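import Mathlib

/-! Signed weights with given moments, and averages over random signs. -/

namespace Pool.Agent.P.MP_4600d4_nt

open Finset

variable {K : Type*} [DecidableEq K]

/-- The indicator of `j ∈ Q`. -/
def ix (Q : Finset K) (j : K) : ℝ := if j ∈ Q then 1 else 0

/-- The sign of `j` attached to `σ`. -/
def ep (σ : Finset K) (j : K) : ℝ := if j ∈ σ then 1 else -1

theorem ix_sq (Q : Finset K) (j : K) : ix Q j ^ 2 = ix Q j := by
  unfold ix; split_ifs <;> norm_num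

theorem avg_aux (α β : K → ℝ) (s : Finset K) : ∀ d a : ℝ,
    ∑ σ ∈ s.powerset, (d + ∑ j ∈ s, ep σ j * α j) ^ 2 * (a + ∑ j ∈ s, ep σ j * β j) ^ 2 =
      2 ^ s.card * (d ^ 2 * a ^ 2 + d ^ 2 * ∑ j ∈ s, β j ^ 2 + a ^ 2 * ∑ j ∈ s, α j ^ 2 +
        4 * d * a * ∑ j ∈ s, α j * β j + (∑ j ∈ s, α j ^ 2) * (∑ j ∈ s, β j ^ 2) +
        2 * (∑ j ∈ s, α j * β j) ^ 2 - 2 * ∑ j ∈ s, α j ^ 2 * β j ^ 2) := by
  induction s using Finset.induction_on with
  | empty => intro d a; simp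
  | insert i s hi ih =>
    intro d a
    have e1 : ∀ σ ∈ s.powerset, ∀ (x : ℝ) (γ : K → ℝ),
        x + ∑ j ∈ insert i s, ep σ j * γ j = (x - γ i) + ∑ j ∈ s, ep σ j * γ j := by
      intro σ hσ x γ
      have : i ∉ σ := fun h => hi (mem_powerset.1 hσ h)
      rw [sum_insert hi, ep, if_neg this]; ring
    have e2 : ∀ σ ∈ s.powerset, ∀ (x : ℝ) (γ : K → ℝ),
        x + ∑ j ∈ insert i s, ep (insert i σ) j * γ j = (x + γ i) + ∑ j ∈ s, ep σ j * γ j := by
      intro σ _ x γ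
      have : ∀ j ∈ s, ep (insert i σ) j * γ j = ep σ j * γ j := fun j hj => by
        have : j ≠ i := fun h => hi (h ▸ hj)
        simp [ep, this]
      rw [sum_insert hi, sum_congr rfl this, ep, if_pos (mem_insert_self _ _)]; ring
    rw [sum_powerset_insert hi, sum_congr rfl fun σ hσ => by rw [e1 σ hσ, e1 σ hσ],
      sum_congr rfl (s₁ := s.powerset) (f := fun σ => (d + ∑ j ∈ insert i s,
        ep (insert i σ) j * α j) ^ 2 * (a + ∑ j ∈ insert i s, ep (insert i σ) j * β j) ^ 2)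
        fun σ hσ => by rw [e2 σ hσ, e2 σ hσ], ih, ih, card_insert_of_notMem hi]
    simp only [sum_insert hi]
    ring

variable [Fintype K]

theorem exists_nu (y : Finset K → ℝ) : ∃ ν : Finset K → ℝ,
    (∀ S, ∑ Q, ν Q * (if S ⊆ Q then 1 else 0) = y S) ∧
      ∀ Q, (∀ T, Q ⊆ T → y T = 0) → ν Q = 0 := by
  refine ⟨fun Q => ∑ T, if Q ⊆ T then IncidenceAlgebra.mu ℝ Q T * y T else 0, fun S => ?_,
    fun Q h => sum_eq_zero fun T _ => ?_⟩
  · simp only [sum_mul]
    rw [sum_comm]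
    have : ∀ T : Finset K, ∑ Q, (if Q ⊆ T then IncidenceAlgebra.mu ℝ Q T * y T else 0) *
        (if S ⊆ Q then 1 else 0) = (if S = T then 1 else 0) * y T := fun T => by
      rw [← IncidenceAlgebra.sum_Icc_mu_left, sum_mul, ← sum_subset (subset_univ (Icc S T))]
      · refine sum_congr rfl fun Q hQ => ?_
        rw [mem_Icc] at hQ
        rw [if_pos (show Q ⊆ T from hQ.2), if_pos (show S ⊆ Q from hQ.1), mul_one]
      · intro Q _ hQ
        rw [mem_Icc] at hQ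
        by_cases h1 : Q ⊆ T
        · rw [if_neg (show ¬ S ⊆ Q from fun h2 => hQ ⟨h2, h1⟩), mul_zero]
        · rw [if_neg h1, zero_mul]
    simp only [this]
    simp
  · split_ifs with hT
    · rw [h T hT, mul_zero]
    · rfl

theorem avg_one (a : ℝ) (β : K → ℝ) :
    ∑ σ : Finset K, (a + ∑ j, ep σ j * β j) ^ 2 =
      2 ^ Fintype.card K * (a ^ 2 + ∑ j, β j ^ 2) := by
  have := avg_aux (fun _ => 0) β univ 1 a
  simpa using this

theorem avg_two (Q : Finset K) (a : ℝ) (δ : K → ℝ) :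
    ∑ σ : Finset K, (∑ j, ep σ j * ix Q j) ^ 2 * (a + ∑ j, ep σ j * (δ j * ix Q j)) ^ 2 =
      ∑ σ : Finset K, (∑ j, ix Q j) * (a + ∑ j, ep σ j * (δ j * ix Q j)) ^ 2 +
        2 ^ Fintype.card K * (2 * (∑ j, δ j * ix Q j) ^ 2 - 2 * ∑ j, δ j ^ 2 * ix Q j) := by
  have := avg_aux (ix Q) (fun j => δ j * ix Q j) univ 0 a
  have e1 : ∀ j, ix Q j * (δ j * ix Q j) = δ j * ix Q j := fun j => by
    linear_combination δ j * ix_sq Q j
  have e2 : ∀ j, ix Q j * (δ j * ix Q j) ^ 2 = δ j ^ 2 * ix Q j := fun j => by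
    unfold ix; split_ifs <;> simp
  simp only [zero_add, powerset_univ, card_univ, ix_sq, e1, e2] at this
  rw [this, ← mul_sum, avg_one]
  ring

end Pool.Agent.P.MP_4600d4_nt
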