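import Pool.Agent.P.MP_4600d4_nt.Mom

/-! The size constraints hold after a random split of the clique. -/

namespace Pool.Agent.P.MP_4600d4_nt

open Finset Pool.Agent.P.MP_9484ad_co

theorem ineq {g V z n κ G : ℝ} (h0 : 0 ≤ κ) (hκ : κ ≤ 1 / 1000) (hG : 80 ≤ G)
    (hκG : κ * G ≤ 1 / 1000) (hn : 0 ≤ n) (hV : V ^ 2 ≤ G * n) (hz : |z| ≤ n / 1000) :
    -(G / 4 * (g ^ 2 + z + (1 - κ) * n)) ≤
      2 * (1 - κ) * g * V - 3 * κ * V ^ 2 + (2 - 5 * κ) * z + n * (1 - 3 * κ + 5 * κ ^ 2) ∧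
    2 * (1 - κ) * g * V - 3 * κ * V ^ 2 + (2 - 5 * κ) * z + n * (1 - 3 * κ + 5 * κ ^ 2) ≤
      G * (g ^ 2 + z + (1 - κ) * n) := by
  obtain ⟨z1, z2⟩ := abs_le.1 hz
  have G0 : 0 < G := by linarith
  have v1 : ((1 - κ) * V) ^ 2 ≤ G * n := by
    have : (1 - κ) ^ 2 ≤ 1 := by nlinarith
    nlinarith [sq_nonneg V]
  have a1 : -(G / 4 * g ^ 2 + 4 * n) ≤ 2 * (1 - κ) * g * V := by
    refine le_of_mul_le_mul_left ?_ G0
    nlinarith [sq_nonneg (G * g / 2 + 2 * ((1 - κ) * V))]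
  have a2 : 2 * (1 - κ) * g * V ≤ G * g ^ 2 + n := by
    refine le_of_mul_le_mul_left ?_ G0
    nlinarith [sq_nonneg (G * g - (1 - κ) * V)]
  have a3 : κ * V ^ 2 ≤ n / 1000 := by
    have := mul_le_mul_of_nonneg_left hV h0
    nlinarith
  have a4 : 0 ≤ κ * V ^ 2 := by positivity
  have a5 : κ * n ≤ n / 1000 := by nlinarith
  have a6 : 0 ≤ κ * n := by positivity
  have a7 : κ * z ≤ n / 1000 := by nlinarith
  have a8 : -(n / 1000) ≤ κ * z := by nlinarith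
  have a9 : κ ^ 2 * n ≤ n / 1000 := by nlinarith
  have a10 : 0 ≤ κ ^ 2 * n := by positivity
  have b : 70 * n ≤ G * (z + (1 - κ) * n) := by nlinarith
  constructor <;> nlinarith

variable {K : Type*} [Field K] [DecidableEq K] [Fintype K] {κ C r : ℝ} {ν : Finset K → ℝ}

omit [Field K] [DecidableEq K] in
theorem lin_sq (hq : r ^ 2 = Fintype.card K) (u : K → ℝ) :
    (κ * ∑ j, u j) ^ 2 ≤ κ * r ^ 2 * (κ * ∑ j, u j ^ 2) := by
  have := sq_sum_le_card_mul_sum_sq (s := univ) (f := u)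
  rw [card_univ, ← hq] at this
  nlinarith [mul_le_mul_of_nonneg_left this (sq_nonneg κ)]

theorem sgn_sq (hK : ringChar K ≠ 2) (hκ : 0 ≤ κ) (hr : 0 ≤ r) (hq : r ^ 2 = Fintype.card K)
    (ht : κ * r ≤ 1 / 1000) (u : K → ℝ) :
    |κ ^ 2 * ∑ i, ∑ j, sg i j * u i * u j| ≤ κ * (∑ j, u j ^ 2) / 1000 := by
  have := sg_form hK hr hq u
  have hn : 0 ≤ κ * ∑ j, u j ^ 2 := mul_nonneg hκ (sum_nonneg fun _ _ => sq_nonneg _)
  rw [abs_mul, abs_of_nonneg (sq_nonneg κ)]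
  nlinarith [mul_le_mul_of_nonneg_left this (sq_nonneg κ), mul_le_mul_of_nonneg_right ht hn]

theorem pe (hK : ringChar K ≠ 2) (h1 : IsSquare (-1 : K))
    (hν : ∀ S, ∑ Q, ν Q * (if S ⊆ Q then 1 else 0) = mom κ C S) (hκ : 0 ≤ κ) (hr : 1 ≤ r)
    (hq : r ^ 2 = Fintype.card K) (ht : κ * r ≤ 1 / 1000) (hG : 80 ≤ κ * r ^ 2)
    (c : ℝ) (u : K → ℝ) :
    3 / 4 * (κ * r ^ 2) * ∑ Q, ν Q * (c + ∑ j, u j * ix Q j) ^ 2 ≤
      ∑ Q, (ν Q * ∑ v, ix Q v) * (c + ∑ j, u j * ix Q j) ^ 2 ∧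
    ∑ Q, (ν Q * ∑ v, ix Q v) * (c + ∑ j, u j * ix Q j) ^ 2 ≤
      2 * (κ * r ^ 2) * ∑ Q, ν Q * (c + ∑ j, u j * ix Q j) ^ 2 := by
  rw [quad_form (nu0 hν) (nu1 hν) (nu2 h1 hν),
    quad_form (nuW0 hν) (nuW1 hK h1 hν) (nuW2 hK h1 hν), ← hq]
  have k0 : 0 ≤ κ * r := by positivity
  obtain ⟨a, b⟩ := ineq (g := c + κ * ∑ j, u j) hκ (by nlinarith) hG (by nlinarith)
    (mul_nonneg hκ (sum_nonneg fun j _ => sq_nonneg (u j))) (lin_sq (κ := κ) hq u)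
    (sgn_sq hK hκ (by linarith) hq ht u)
  constructor
  · linear_combination a
  · linear_combination b

theorem core (hK : ringChar K ≠ 2) (h1 : IsSquare (-1 : K))
    (hν : ∀ S, ∑ Q, ν Q * (if S ⊆ Q then 1 else 0) = mom κ C S)
    (hy : ∀ c : Finset K → ℝ, (∀ S : Finset K, 2 < S.card → c S = 0) →
      0 ≤ ∑ S, ∑ T, c S * c T * mom κ C (S ∪ T)) (hκ : 0 ≤ κ) (hr : 1 ≤ r)
    (hq : r ^ 2 = Fintype.card K) (ht : κ * r ≤ 1 / 1000) (hG : 80 ≤ κ * r ^ 2)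
    {k : ℝ} (hk : k ≤ κ * r ^ 2 / 4) (c : ℝ) (e δ : K → ℝ) :
    (∀ t : ℝ, t ^ 2 = 1 → 0 ≤ ∑ σ : Finset K, ∑ Q, ν Q *
      ((c + ∑ j, (e j + ep σ j * δ j) * ix Q j) ^ 2 *
        ((∑ j, ix Q j + t * ∑ j, ep σ j * ix Q j) / 2 - k))) ∧
    0 ≤ ∑ σ : Finset K, ∑ Q, ν Q * ((c + ∑ j, (e j + ep σ j * δ j) * ix Q j) ^ 2 *
      (((∑ j, ix Q j + ∑ j, ep σ j * ix Q j) / 2 - k) *
        ((∑ j, ix Q j - ∑ j, ep σ j * ix Q j) / 2 - k))) := by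
  set G := κ * r ^ 2 with hGd
  let s : Finset K → Finset K → ℝ := fun σ Q => c + ∑ j, (e j + ep σ j * δ j) * ix Q j
  let W : Finset K → ℝ := fun Q => ∑ j, ix Q j
  let D : Finset K → Finset K → ℝ := fun σ Q => ∑ j, ep σ j * ix Q j
  let E : Finset K → ℝ := fun σ => ∑ Q, ν Q * s σ Q ^ 2
  let P : Finset K → ℝ := fun σ => ∑ Q, ν Q * W Q * s σ Q ^ 2
  let R : Finset K → ℝ := fun σ => ∑ Q, ν Q * (D σ Q * s σ Q ^ 2)
  let T : Finset K → ℝ := fun σ => ∑ Q, ν Q * (D σ Q ^ 2 * s σ Q ^ 2)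
  have hs : ∀ σ Q, s σ Q = (c + ∑ j, e j * ix Q j) + ∑ j, ep σ j * (δ j * ix Q j) := fun σ Q => by
    simp only [s, add_assoc, ← sum_add_distrib]
    exact congrArg _ (sum_congr rfl fun j _ => by ring)
  have hP : ∀ σ, 3 / 4 * G * E σ ≤ P σ ∧ P σ ≤ 2 * G * E σ := fun σ =>
    pe hK h1 hν hκ hr hq ht hG c _
  have hn : 0 ≤ κ * ∑ j, δ j ^ 2 := mul_nonneg hκ (sum_nonneg fun j _ => sq_nonneg _)
  have q2 : (0 : ℝ) < 2 ^ Fintype.card K := by positivity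
  have d1 : ∑ Q, ν Q * ∑ j, δ j ^ 2 * ix Q j = κ * ∑ j, δ j ^ 2 := by
    simp only [mul_sum]
    rw [sum_comm]
    refine sum_congr rfl fun j _ => ?_
    rw [← nu1 hν j, sum_mul]
    exact sum_congr rfl fun Q _ => by ring
  have hE : 2 ^ Fintype.card K * (κ * ∑ j, δ j ^ 2) ≤ ∑ σ, E σ := by
    have a := psd_prod hν hy c 1 e fun _ => 0
    have b : ∀ Q j, (δ j * ix Q j) ^ 2 = δ j ^ 2 * ix Q j := fun Q j => by rw [mul_pow, ix_sq]
    simp only [zero_mul, sum_const_zero, add_zero, mul_one] at a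
    simp only [E, hs]
    rw [sum_comm]
    simp only [← mul_sum, avg_one, b, mul_left_comm (ν _), mul_add (ν _), sum_add_distrib, d1]
    exact mul_le_mul_of_nonneg_left (by linarith) q2.le
  have hE0 : 0 ≤ ∑ σ, E σ := (mul_nonneg q2.le hn).trans hE
  have hP1 : 3 / 4 * G * ∑ σ, E σ ≤ ∑ σ, P σ := by
    rw [mul_sum]; exact sum_le_sum fun σ _ => (hP σ).1
  have hP2 : ∑ σ, P σ ≤ 2 * G * ∑ σ, E σ := by
    rw [mul_sum]; exact sum_le_sum fun σ _ => (hP σ).2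
  have hT : ∑ σ, T σ ≤ 5 * G * ∑ σ, E σ := by
    have a := quad_form (nu0 hν) (nu1 hν) (nu2 h1 hν) 0 δ
    have b1 := lin_sq (κ := κ) hq δ
    have b2 := (abs_le.1 (sgn_sq hK hκ (by linarith) hq ht δ)).2
    have b3 : 0 ≤ κ ^ 2 * ∑ j, δ j ^ 2 := mul_nonneg (sq_nonneg κ) (sum_nonneg fun j _ => sq_nonneg _)
    have e1 : ∑ σ, T σ = ∑ σ, P σ + 2 ^ Fintype.card K *
        (2 * ∑ Q, ν Q * (0 + ∑ j, δ j * ix Q j) ^ 2 - 2 * (κ * ∑ j, δ j ^ 2)) := by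
      simp only [T, P, D, W, hs]
      rw [sum_comm, sum_comm (f := fun σ Q => ν Q * _ * _), ← d1, mul_sum, mul_sum,
        ← sum_sub_distrib, mul_sum, ← sum_add_distrib]
      refine sum_congr rfl fun Q _ => ?_
      rw [← mul_sum, avg_two, ← mul_sum, ← mul_sum]
      ring
    have e2 : 2 * ∑ Q, ν Q * (0 + ∑ j, δ j * ix Q j) ^ 2 - 2 * (κ * ∑ j, δ j ^ 2) ≤
        3 * G * (κ * ∑ j, δ j ^ 2) := by
      rw [a]
      nlinarith
    have e3 := mul_le_mul_of_nonneg_left e2 q2.le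
    have e4 := mul_le_mul_of_nonneg_left hE (show 0 ≤ 3 * G by linarith)
    nlinarith
  refine ⟨fun t ht => ?_, ?_⟩
  · have a : ∀ σ, 0 ≤ T σ + G / 2 * (t * R σ) + G ^ 2 / 16 * E σ := fun σ => by
      refine (psd_prod hν hy (G / 4) c (fun j => t * ep σ j)
        fun j => e j + ep σ j * δ j).trans_eq ?_
      simp only [T, R, E, mul_sum, ← sum_add_distrib]
      refine sum_congr rfl fun Q _ => ?_
      simp only [mul_assoc t, ← mul_sum]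
      linear_combination ν Q * D σ Q ^ 2 * s σ Q ^ 2 * ht
    have b : 0 ≤ ∑ σ, T σ + G / 2 * (t * ∑ σ, R σ) + G ^ 2 / 16 * ∑ σ, E σ := by
      simp only [mul_sum (s := univ (α := Finset K)) (f := R), mul_sum (f := E),
        mul_sum (f := fun σ => t * R σ), ← sum_add_distrib]
      exact sum_nonneg fun σ _ => a σ
    have e1 : ∑ σ : Finset K, ∑ Q, ν Q * (s σ Q ^ 2 * ((W Q + t * D σ Q) / 2 - k)) =
        1 / 2 * ∑ σ, P σ + t / 2 * ∑ σ, R σ - k * ∑ σ, E σ := by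
      simp only [P, R, E, mul_sum, ← sum_add_distrib, ← sum_sub_distrib]
      exact sum_congr rfl fun σ _ => sum_congr rfl fun Q _ => by ring
    refine le_of_le_of_eq ?_ e1.symm
    have e2 : -((10 + G / 8) * ∑ σ, E σ) ≤ t * ∑ σ, R σ := by
      refine le_of_mul_le_mul_left ?_ (show 0 < G / 2 by linarith)
      nlinarith
    nlinarith [mul_le_mul_of_nonneg_right hk hE0, mul_le_mul_of_nonneg_right hG hE0]
  · have a : ∀ σ, 0 ≤ ∑ Q, ν Q * ((W Q / 2 - 3 / 8 * G) * s σ Q) ^ 2 := fun σ => by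
      refine (psd_prod hν hy (-(3 / 8 * G)) c (fun _ => 1 / 2)
        fun j => e j + ep σ j * δ j).trans_eq (sum_congr rfl fun Q _ => ?_)
      simp only [← mul_sum, W, s]
      ring
    have e1 : ∑ σ : Finset K, ∑ Q, ν Q * (s σ Q ^ 2 *
        (((W Q + D σ Q) / 2 - k) * ((W Q - D σ Q) / 2 - k))) =
        ∑ σ, ∑ Q, ν Q * ((W Q / 2 - 3 / 8 * G) * s σ Q) ^ 2 + (3 / 8 * G - k) * ∑ σ, P σ +
          ((3 / 8 * G - k) ^ 2 - (3 / 8 * G - k) * (3 / 4 * G)) * ∑ σ, E σ -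
            1 / 4 * ∑ σ, T σ := by
      simp only [P, T, E, mul_sum, ← sum_add_distrib, ← sum_sub_distrib]
      exact sum_congr rfl fun σ _ => sum_congr rfl fun Q _ => by ring
    refine le_of_le_of_eq ?_ e1.symm
    have b := sum_nonneg (s := univ) fun σ _ => a σ
    have m : G / 8 ≤ 3 / 8 * G - k := by linarith
    have b1 := mul_le_mul_of_nonneg_left hP1 (show 0 ≤ 3 / 8 * G - k by linarith)
    have b2 : 5 / 4 * G ≤ (3 / 8 * G - k) ^ 2 := by nlinarith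
    nlinarith [mul_le_mul_of_nonneg_right b2 hE0]

end Pool.Agent.P.MP_4600d4_nt
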