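import Pool.Agent.P.MP_9484ad_co.SosLayer
import Pool.Agent.P.MP_4600d4_nt.Base

/-! Positivity and low moments of the signed weight on cliques. -/

namespace Pool.Agent.P.MP_4600d4_nt

open Finset Pool.Agent.P.MP_9484ad_co

section
variable {K : Type*} [DecidableEq K] [Fintype K] {y ν : Finset K → ℝ}

theorem psd_fam {ι : Type*} [Fintype ι]
    (hν : ∀ S, ∑ Q, ν Q * (if S ⊆ Q then 1 else 0) = y S)
    (hy : ∀ c : Finset K → ℝ, (∀ S : Finset K, 2 < S.card → c S = 0) →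
      0 ≤ ∑ S, ∑ T, c S * c T * y (S ∪ T))
    (S : ι → Finset K) (hS : ∀ i, (S i).card ≤ 2) (c : ι → ℝ) :
    0 ≤ ∑ Q, ν Q * (∑ i, c i * (if S i ⊆ Q then 1 else 0)) ^ 2 := by
  let c' : Finset K → ℝ := fun T => ∑ i, if S i = T then c i else 0
  have e : ∀ Q : Finset K, ∑ i, c i * (if S i ⊆ Q then (1 : ℝ) else 0) =
      ∑ T, c' T * (if T ⊆ Q then 1 else 0) := fun Q => by
    simp only [c', sum_mul]
    rw [sum_comm]
    refine sum_congr rfl fun i _ => ?_
    simp only [ite_mul, zero_mul, sum_ite_eq, mem_univ, if_true]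
  refine (hy c' fun T hT => sum_eq_zero fun i _ => if_neg fun h => ?_).trans_eq ?_
  · have := hS i
    rw [h] at this
    omega
  · simp only [e, sq, sum_mul_sum, ← hν]
    simp only [mul_sum]
    rw [sum_comm (s := univ) (t := univ) (f := fun Q S => ∑ T, ν Q * _)]
    refine sum_congr rfl fun A _ => ?_
    rw [sum_comm]
    refine sum_congr rfl fun B _ => sum_congr rfl fun Q _ => ?_
    by_cases h1 : A ⊆ B <;> by_cases h2 : Q ⊆ B <;> simp only [union_subset_iff, h1, h2] <;> simp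
    ring

theorem psd_quad {V : Type*} [Fintype V]
    (hν : ∀ S, ∑ Q, ν Q * (if S ⊆ Q then 1 else 0) = y S)
    (hy : ∀ c : Finset K → ℝ, (∀ S : Finset K, 2 < S.card → c S = 0) →
      0 ≤ ∑ S, ∑ T, c S * c T * y (S ∪ T))
    (π : V → K) (c : ℝ) (u : V → ℝ) (w : V → V → ℝ) :
    0 ≤ ∑ Q, ν Q * (c + ∑ i, u i * ix Q (π i) +
      ∑ i, ∑ j, w i j * (ix Q (π i) * ix Q (π j))) ^ 2 := by
  refine (psd_fam (ι := Option (V ⊕ V × V)) hν hy
    (fun o => o.elim ∅ (Sum.elim (fun i => {π i}) fun e => {π e.1, π e.2})) ?_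
    (fun o => o.elim c (Sum.elim u fun e => w e.1 e.2))).trans_eq
    (sum_congr rfl fun Q _ => ?_)
  · rintro (_ | i | e)
    · simp
    · simp
    · exact card_le_two
  · have : ∀ (a b : K) [Decidable (({a, b} : Finset K) ⊆ Q)],
        (if ({a, b} : Finset K) ⊆ Q then (1 : ℝ) else 0) = ix Q a * ix Q b :=
      fun a b _ => by
        by_cases h1 : a ∈ Q <;> by_cases h2 : b ∈ Q <;> simp [ix, insert_subset_iff, h1, h2]
    simp only [Fintype.sum_option, Fintype.sum_sum_type, Fintype.sum_prod_type, Option.elim,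
      Sum.elim_inl, Sum.elim_inr, this, singleton_subset_iff, empty_subset, if_true, mul_one,
      add_assoc]
    rfl

theorem psd_prod (hν : ∀ S, ∑ Q, ν Q * (if S ⊆ Q then 1 else 0) = y S)
    (hy : ∀ c : Finset K → ℝ, (∀ S : Finset K, 2 < S.card → c S = 0) →
      0 ≤ ∑ S, ∑ T, c S * c T * y (S ∪ T))
    (a0 b0 : ℝ) (a b : K → ℝ) :
    0 ≤ ∑ Q, ν Q * ((a0 + ∑ j, a j * ix Q j) * (b0 + ∑ j, b j * ix Q j)) ^ 2 := by
  refine (psd_quad hν hy id (a0 * b0) (fun j => a0 * b j + b0 * a j)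
    fun i j => a i * b j).trans_eq (sum_congr rfl fun Q _ => ?_)
  have e1 : ∑ i, ∑ j, a i * b j * (ix Q i * ix Q j) =
      (∑ j, a j * ix Q j) * ∑ j, b j * ix Q j := by
    rw [sum_mul_sum]
    exact sum_congr rfl fun i _ => sum_congr rfl fun j _ => by ring
  have e2 : ∑ j, (a0 * b j + b0 * a j) * ix Q j =
      a0 * ∑ j, b j * ix Q j + b0 * ∑ j, a j * ix Q j := by
    rw [mul_sum, mul_sum, ← sum_add_distrib]
    exact sum_congr rfl fun i _ => by ring
  simp only [id, e1, e2]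
  ring

end

variable {K : Type*} [Field K] [DecidableEq K] [Fintype K]

theorem quad_form {w : Finset K → ℝ} {w0 w1 w2 w3 : ℝ} (h0 : ∑ Q, w Q = w0)
    (h1 : ∀ i, ∑ Q, w Q * ix Q i = w1)
    (h2 : ∀ i j, ∑ Q, w Q * (ix Q i * ix Q j) = w2 * (1 + sg i j) + w3 * sdl i j)
    (c : ℝ) (u : K → ℝ) :
    ∑ Q, w Q * (c + ∑ j, u j * ix Q j) ^ 2 = c ^ 2 * w0 + 2 * c * w1 * ∑ j, u j +
      w2 * ((∑ j, u j) ^ 2 + ∑ i, ∑ j, sg i j * u i * u j) + w3 * ∑ j, u j ^ 2 := by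
  have e : ∀ Q, w Q * (c + ∑ j, u j * ix Q j) ^ 2 = c ^ 2 * w Q +
      ∑ j, 2 * c * u j * (w Q * ix Q j) + ∑ i, ∑ j, u i * u j * (w Q * (ix Q i * ix Q j)) :=
    fun Q => by
      have a1 : ∑ j, 2 * c * u j * (w Q * ix Q j) = 2 * c * w Q * ∑ j, u j * ix Q j := by
        rw [mul_sum]
        exact sum_congr rfl fun i _ => by ring
      have a2 : ∑ i, ∑ j, u i * u j * (w Q * (ix Q i * ix Q j)) =
          w Q * ((∑ j, u j * ix Q j) * ∑ j, u j * ix Q j) := by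
        rw [sum_mul_sum, mul_sum]
        refine sum_congr rfl fun i _ => ?_
        rw [mul_sum]
        exact sum_congr rfl fun i _ => by ring
      rw [a1, a2]; ring
  have b1 : ∑ Q, ∑ j, 2 * c * u j * (w Q * ix Q j) = 2 * c * w1 * ∑ j, u j := by
    rw [sum_comm, mul_sum]
    exact sum_congr rfl fun j _ => by rw [← mul_sum, h1]; ring
  have b2 : ∑ Q, ∑ i, ∑ j, u i * u j * (w Q * (ix Q i * ix Q j)) =
      w2 * ((∑ j, u j) ^ 2 + ∑ i, ∑ j, sg i j * u i * u j) + w3 * ∑ j, u j ^ 2 := by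
    rw [sum_comm, sq, sum_mul_sum, ← sum_add_distrib, mul_sum, mul_sum, ← sum_add_distrib]
    refine sum_congr rfl fun i _ => ?_
    have : w3 * u i ^ 2 = ∑ j, u i * u j * (w3 * sdl i j) := by
      simp only [sdl, mul_ite, mul_one, mul_zero, sum_ite_eq, mem_univ, if_true]; ring
    rw [sum_comm, this, ← sum_add_distrib, mul_sum, ← sum_add_distrib]
    exact sum_congr rfl fun j _ => by rw [← mul_sum, h2]; ring
  simp only [e, sum_add_distrib, ← mul_sum, h0]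
  rw [b2, b1]
  ring

theorem sg_row (hK : ringChar K ≠ 2) (a : K) : ∑ v, sg v a = 0 := by
  have := quadraticChar_sum_zero hK
  rw [← Equiv.sum_comp (Equiv.subRight a)] at this
  simp only [sg]
  exact_mod_cast this

variable {κ C : ℝ} {ν : Finset K → ℝ}

theorem nu0 (hν : ∀ S, ∑ Q, ν Q * (if S ⊆ Q then 1 else 0) = mom κ C S) : ∑ Q, ν Q = 1 := by
  simpa [mom_empty] using hν ∅

theorem nu1 (hν : ∀ S, ∑ Q, ν Q * (if S ⊆ Q then 1 else 0) = mom κ C S) (i : K) :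
    ∑ Q, ν Q * ix Q i = κ := by
  simpa only [ix, singleton_subset_iff, mom_one] using hν {i}

theorem nu2 (h1 : IsSquare (-1 : K))
    (hν : ∀ S, ∑ Q, ν Q * (if S ⊆ Q then 1 else 0) = mom κ C S) (i j : K) :
    ∑ Q, ν Q * (ix Q i * ix Q j) = κ ^ 2 * (1 + sg i j) + (κ - κ ^ 2) * sdl i j := by
  rw [← mom_vw (C := C) h1, ← hν]
  refine sum_congr rfl fun Q _ => ?_
  by_cases a : i ∈ Q <;> by_cases b : j ∈ Q <;> simp [ix, insert_subset_iff, a, b]

theorem nu3 (hν : ∀ S, ∑ Q, ν Q * (if S ⊆ Q then 1 else 0) = mom κ C S) (v i j : K) :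
    ∑ Q, ν Q * (ix Q v * (ix Q i * ix Q j)) = mom κ C ({v} ∪ {i, j}) := by
  rw [← hν]
  refine sum_congr rfl fun Q _ => ?_
  by_cases a : i ∈ Q <;> by_cases b : j ∈ Q <;> by_cases c : v ∈ Q <;>
    simp [ix, insert_subset_iff, a, b, c]

theorem nuW0 (hν : ∀ S, ∑ Q, ν Q * (if S ⊆ Q then 1 else 0) = mom κ C S) :
    ∑ Q, ν Q * ∑ v, ix Q v = κ * Fintype.card K := by
  simp only [mul_sum]
  rw [sum_comm]
  simp [nu1 hν, mul_comm]

theorem nuW1 (hK : ringChar K ≠ 2) (h1 : IsSquare (-1 : K))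
    (hν : ∀ S, ∑ Q, ν Q * (if S ⊆ Q then 1 else 0) = mom κ C S) (i : K) :
    ∑ Q, (ν Q * ∑ v, ix Q v) * ix Q i = κ + κ ^ 2 * Fintype.card K - κ ^ 2 := by
  simp only [mul_sum, sum_mul, mul_assoc]
  rw [sum_comm]
  simp only [nu2 h1 hν, sum_add_distrib, ← mul_sum, sg_row hK, sdl, sum_ite_eq', mem_univ, if_true,
    sum_const, card_univ, nsmul_eq_mul]
  ring

theorem nuW2 (hK : ringChar K ≠ 2) (h1 : IsSquare (-1 : K))
    (hν : ∀ S, ∑ Q, ν Q * (if S ⊆ Q then 1 else 0) = mom κ C S) (i j : K) :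
    ∑ Q, (ν Q * ∑ v, ix Q v) * (ix Q i * ix Q j) =
      κ ^ 2 * (2 + κ * Fintype.card K - 5 * κ) * (1 + sg i j) +
        (κ + κ ^ 2 * Fintype.card K - κ ^ 2 - κ ^ 2 * (2 + κ * Fintype.card K - 5 * κ)) *
          sdl i j := by
  by_cases h : i = j
  · subst h
    simp only [← sq, ix_sq, nuW1 hK h1 hν, sg_self, sdl, if_true]
    ring
  simp only [mul_sum, sum_mul, mul_assoc]
  rw [sum_comm]
  simp only [nu3 hν]
  rcases sg_cases h with e | e
  · have g := sg_gram hK i j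
    rw [if_neg h] at g
    have : ∀ v, (1 + sg v i) * (1 + sg v j) = 1 + sg v i + sg v j + sg v i * sg v j :=
      fun v => by ring
    simp only [mom_vab h1 _ h e, this, sum_add_distrib, ← mul_sum, sg_row hK, g, sdl, sum_ite_eq',
      mem_univ, if_true, sum_const, card_univ, nsmul_eq_mul, e, if_neg h]
    ring
  · rw [sum_eq_zero fun v _ => mom_nonedge (a := i) (b := j) (by simp) (by simp) h
      (by rw [e]; norm_num), e, sdl, if_neg h]
    ring

end Pool.Agent.P.MP_4600d4_nt
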