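import Pool.Agent.P.MP_4600d4_nt.Core

/-! The signed weight on pairs of sets obtained by splitting a clique at random. -/

namespace Pool.Agent.P.MP_4600d4_nt

open Finset Pool.Agent.P.MP_9484ad_co

variable {K : Type*} [Field K] [DecidableEq K] [Fintype K]

/-- The second half of the split, with signs changed. -/
def oth (σ Q : Finset K) : Finset K := (Q \ σ).image fun x => -x

/-- The weight of a pair. -/
noncomputable def wt (ν : Finset K → ℝ) (A B : Finset K) : ℝ :=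
  ∑ σ : Finset K, ∑ Q, if Q ∩ σ = A ∧ oth σ Q = B then ν Q / 2 ^ Fintype.card K else 0

theorem wt_sum (ν : Finset K → ℝ) (F : Finset K → Finset K → ℝ) :
    ∑ A, ∑ B, wt ν A B * F A B =
      (∑ σ : Finset K, ∑ Q, ν Q * F (Q ∩ σ) (oth σ Q)) / 2 ^ Fintype.card K := by
  simp only [wt, sum_mul, sum_div]
  rw [← Fintype.sum_prod_type', sum_comm]
  refine sum_congr rfl fun σ _ => ?_
  rw [sum_comm]
  refine sum_congr rfl fun Q _ => ?_
  rw [sum_eq_single (Q ∩ σ, oth σ Q)]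
  · simp only [and_self, if_true]; ring
  · rintro ⟨A, B⟩ - h
    rw [if_neg, zero_mul]
    rintro ⟨rfl, rfl⟩
    exact h rfl
  · simp

omit [Fintype K] in
theorem mem_oth {σ Q : Finset K} {b : K} : b ∈ oth σ Q ↔ -b ∈ Q ∧ -b ∉ σ := by
  simp only [oth, mem_image, mem_sdiff]
  exact ⟨fun ⟨x, h, e⟩ => by simpa [← e] using h, fun h => ⟨-b, h, neg_neg b⟩⟩

theorem sum_split (σ Q : Finset K) (u : K ⊕ K → ℝ) :
    ∑ i ∈ (Q ∩ σ).disjSum (oth σ Q), u i =
      ∑ i, Sum.elim (ix σ) (fun b => 1 - ix σ (-b)) i * u i * ix Q (Sum.elim id (fun b => -b) i) := by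
  rw [← sum_subset (subset_univ ((Q ∩ σ).disjSum (oth σ Q)))]
  · refine sum_congr rfl ?_
    rintro (a | b) h
    · rw [inl_mem_disjSum, mem_inter] at h
      simp [ix, h.1, h.2]
    · rw [inr_mem_disjSum, mem_oth] at h
      simp [ix, h.1, h.2]
  · rintro (a | b) - h
    · rw [inl_mem_disjSum, mem_inter] at h
      by_cases h1 : a ∈ Q <;> simp_all [ix]
    · rw [inr_mem_disjSum, mem_oth] at h
      by_cases h1 : -b ∈ Q <;> simp_all [ix]

theorem sum_split' (σ Q : Finset K) (u : K ⊕ K → ℝ) :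
    ∑ i ∈ (Q ∩ σ).disjSum (oth σ Q), u i = ∑ j, ((u (.inl j) + u (.inr (-j))) / 2 +
      ep σ j * ((u (.inl j) - u (.inr (-j))) / 2)) * ix Q j := by
  rw [sum_split, Fintype.sum_sum_type, ← Equiv.sum_comp (Equiv.neg K) fun b => _ * u (.inr b) * _,
    ← sum_add_distrib]
  refine sum_congr rfl fun j _ => ?_
  by_cases h : j ∈ σ <;> simp [ix, ep, h] <;> split_ifs <;> ring

theorem card_fst (σ Q : Finset K) :
    (#(Q ∩ σ) : ℝ) = (∑ j, ix Q j + 1 * ∑ j, ep σ j * ix Q j) / 2 := by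
  have := sum_split' σ Q (Sum.elim (fun _ => 1) fun _ => 0)
  simp only [sum_disjSum, Sum.elim_inl, Sum.elim_inr, sum_const, smul_zero, add_zero,
    nsmul_eq_mul, mul_one] at this
  rw [this, one_mul, ← sum_add_distrib, sum_div]
  exact sum_congr rfl fun j _ => by ring

theorem card_snd (σ Q : Finset K) :
    (#(oth σ Q) : ℝ) = (∑ j, ix Q j + -1 * ∑ j, ep σ j * ix Q j) / 2 := by
  have := sum_split' σ Q (Sum.elim (fun _ => 0) fun _ => 1)
  simp only [sum_disjSum, Sum.elim_inl, Sum.elim_inr, sum_const, smul_zero, zero_add,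
    nsmul_eq_mul, mul_one] at this
  rw [this, mul_sum, ← sum_add_distrib, sum_div]
  exact sum_congr rfl fun j _ => by ring

theorem barrier (hK : ringChar K ≠ 2) (h1 : IsSquare (-1 : K)) {κ C r : ℝ}
    (hy : ∀ c : Finset K → ℝ, (∀ S : Finset K, 2 < S.card → c S = 0) →
      0 ≤ ∑ S, ∑ T, c S * c T * mom κ C (S ∪ T)) (hκ : 0 ≤ κ) (hr : 1 ≤ r)
    (hq : r ^ 2 = Fintype.card K) (ht : κ * r ≤ 1 / 1000) (hG : 80 ≤ κ * r ^ 2)
    {k : ℝ} (hk : k ≤ κ * r ^ 2 / 4) :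
    ∃ μ : Finset K → Finset K → ℝ,
      ∑ A, ∑ B, μ A B = 1 ∧
      (∀ A B, μ A B ≠ 0 → ∀ a ∈ A, ∀ b ∈ B, a + b ≠ 0 ∧ IsSquare (a + b)) ∧
      (∀ (c : ℝ) (u : K ⊕ K → ℝ) (w : K ⊕ K → K ⊕ K → ℝ),
        0 ≤ ∑ A, ∑ B, μ A B * (c + ∑ i ∈ A.disjSum B, u i +
          ∑ i ∈ A.disjSum B, ∑ j ∈ A.disjSum B, w i j) ^ 2) ∧
      ∀ (c : ℝ) (u : K ⊕ K → ℝ),
        0 ≤ ∑ A, ∑ B, μ A B * ((c + ∑ i ∈ A.disjSum B, u i) ^ 2 * (#A - k)) ∧
        0 ≤ ∑ A, ∑ B, μ A B * ((c + ∑ i ∈ A.disjSum B, u i) ^ 2 * (#B - k)) ∧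
        0 ≤ ∑ A, ∑ B, μ A B * ((c + ∑ i ∈ A.disjSum B, u i) ^ 2 * ((#A - k) * (#B - k))) := by
  obtain ⟨ν, hν, h0⟩ := exists_nu (mom κ C : Finset K → ℝ)
  have q2 : (0 : ℝ) < 2 ^ Fintype.card K := by positivity
  refine ⟨wt ν, ?_, fun A B h a ha b hb => ?_, fun c u w => ?_, fun c u => ?_⟩
  · have := wt_sum ν fun _ _ => 1
    simp only [mul_one, nu0 hν, sum_const, card_univ, Fintype.card_finset, nsmul_eq_mul] at this
    rw [this]
    push_cast
    exact div_self q2.ne'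
  · obtain ⟨σ, -, h⟩ := exists_ne_zero_of_sum_ne_zero h
    obtain ⟨Q, -, h⟩ := exists_ne_zero_of_sum_ne_zero h
    obtain ⟨⟨rfl, rfl⟩, h'⟩ := ite_ne_right_iff.1 h
    rw [mem_inter] at ha
    rw [mem_oth] at hb
    have n : a ≠ -b := fun e => hb.2 (e ▸ ha.2)
    have n' : a + b ≠ 0 := fun e => n (eq_neg_of_add_eq_zero_left e)
    refine ⟨n', by_contra fun hs => h' ?_⟩
    have g : sg a (-b) ≠ 1 := fun e => hs (by
      rw [sg, sub_neg_eq_add] at e
      exact (quadraticChar_one_iff_isSquare n').1 (by exact_mod_cast e))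
    rw [h0 Q fun T hT => mom_nonedge (hT ha.1) (hT hb.1) n g, zero_div]
  · rw [wt_sum]
    refine div_nonneg (sum_nonneg fun σ _ => ?_) q2.le
    let h : K ⊕ K → ℝ := Sum.elim (ix σ) fun b => 1 - ix σ (-b)
    refine (psd_quad hν hy (Sum.elim id fun b => -b) c (fun i => h i * u i)
      fun i j => h i * h j * w i j).trans_eq (sum_congr rfl fun Q _ => ?_)
    simp only [sum_split, mul_sum, sum_mul]
    congr 3
    exact sum_congr rfl fun i _ => sum_congr rfl fun j _ => by ring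
  · obtain ⟨a, b⟩ := core hK h1 hν hy hκ hr hq ht hG hk c
      (fun j => (u (.inl j) + u (.inr (-j))) / 2) fun j => (u (.inl j) - u (.inr (-j))) / 2
    simp only [wt_sum, sum_split', card_fst, card_snd]
    refine ⟨div_nonneg (a 1 (by norm_num)) q2.le, div_nonneg (a (-1) (by norm_num)) q2.le,
      div_nonneg ?_ q2.le⟩
    simpa only [one_mul, neg_mul, ← sub_eq_add_neg] using b

end Pool.Agent.P.MP_4600d4_nt
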