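import Mathlib

set_option autoImplicit false

open Finset

namespace Pool.Agent.P.MP_4600d4_nt.Ssg

theorem arith_aux {J n S A Kh N c T sd m : ℕ} (hJ : 1 ≤ J) (hn : 1 ≤ n) (hS : S = m * n)
    (hc : c ≤ n) (hT : T + sd ≤ Kh + n) (hN : N + J * A ≤ c * S)
    (h : c * S * (Kh - N) ≤ N * (S + (T + Kh))) (hA : A ≤ S) (h2J : 2 * J ≤ n)
    (hgap : n * S ≤ 2 * (J * A) + 4 * (J * n)) (hR : 2 * (n + S + n * S) ≤ sd) :
    m * sd ≤ 8 * Kh := by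
  have h1 : c * S * Kh ≤ c * S * (Kh - N) + c * S * N := by
    rw [← mul_add]; exact Nat.mul_le_mul_left _ (by omega)
  have h2 : (N + J * A) * Kh ≤ c * S * Kh := Nat.mul_le_mul_right _ hN
  have h3 : c * S ≤ n * S := Nat.mul_le_mul_right _ hc
  have h4 : c * S * N ≤ n * S * N := Nat.mul_le_mul_right _ h3
  have h5 : J * A * Kh ≤ N * (S + T + n * S) := by nlinarith
  obtain ⟨N0, hN0⟩ : ∃ N0, n * S = J * A + N0 := ⟨n * S - J * A, by omega⟩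
  have h6 : N ≤ N0 := by omega
  have h7 : J * A * Kh ≤ N0 * (S + T + n * S) := h5.trans (Nat.mul_le_mul_right _ h6)
  have h8 : N0 * (T + sd) ≤ N0 * (Kh + n) := Nat.mul_le_mul_left _ hT
  have h9 : N0 * (2 * (n + S + n * S)) ≤ N0 * sd := Nat.mul_le_mul_left _ hR
  have h10 : N0 ≤ J * A + 4 * (J * n) := by omega
  have h11 : N0 * Kh ≤ (J * A + 4 * (J * n)) * Kh := Nat.mul_le_mul_right _ h10
  have h12 : N0 * sd ≤ 8 * (J * n) * Kh := by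
    generalize n * S = Q at h7 h9
    nlinarith
  have h13 : J * A ≤ J * S := Nat.mul_le_mul_left _ hA
  have h14 : 2 * J * S ≤ n * S := Nat.mul_le_mul_right _ h2J
  have h15 : J * S ≤ N0 := by nlinarith
  have h16 : J * S * sd ≤ N0 * sd := Nat.mul_le_mul_right _ h15
  have h17 : J * n * (m * sd) ≤ J * n * (8 * Kh) := by
    calc J * n * (m * sd) = J * S * sd := by rw [hS]; ring
      _ ≤ 8 * (J * n) * Kh := h16.trans h12
      _ = J * n * (8 * Kh) := by ring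
  exact Nat.le_of_mul_le_mul_left h17 (Nat.mul_pos hJ hn)

/-- The numerical end of step 5 (`J = s m`, `n = 2 (J + s)`, `S = m n`, `Kh = K + J + s - 1`). -/
theorem arith_core {s m d K N c T : ℕ} (hs : 1 ≤ s) (hm : 1 ≤ m) (hd : 8 * s * (m + 1) ^ 3 ≤ d)
    (hK : 1 ≤ K) (hc : c ≤ 2 * (s * m + s))
    (hT : T + s * d ≤ (K + (s * m + s) - 1) + 2 * (s * m + s))
    (hN : N + s * m * (m * (2 * (s * m + s)) + 1 - 2 * (s * m + s)) ≤ c * (m * (2 * (s * m + s))))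
    (h : c * (m * (2 * (s * m + s))) * ((K + (s * m + s) - 1) - N)
      ≤ N * (m * (2 * (s * m + s)) + (T + (K + (s * m + s) - 1)))) :
    s * m * d ≤ 16 * K := by
  obtain ⟨m', rfl⟩ : ∃ m', m = m' + 1 := ⟨m - 1, by omega⟩
  have hJ : 1 ≤ s * (m' + 1) := Nat.mul_pos hs hm
  have hsub : (m' + 1) * (2 * (s * (m' + 1) + s)) + 1 - 2 * (s * (m' + 1) + s)
      = m' * (2 * (s * (m' + 1) + s)) + 1 := by
    rw [add_mul m' 1, one_mul]; omega
  rw [hsub] at hN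
  have hn2 : m' + 2 ≤ 2 * (s * (m' + 1) + s) := by nlinarith
  have hR : 2 * (2 * (s * (m' + 1) + s) + (m' + 1) * (2 * (s * (m' + 1) + s)) +
      2 * (s * (m' + 1) + s) * ((m' + 1) * (2 * (s * (m' + 1) + s)))) ≤ s * d := by
    have e1 : s * (8 * s * (m' + 1 + 1) ^ 3) ≤ s * d := Nat.mul_le_mul_left _ hd
    have e2 : s * (8 * s * (m' + 1 + 1) ^ 3)
        = 2 * ((m' + 2) * (2 * (s * (m' + 1) + s)) ^ 2) := by ring
    rw [e2] at e1
    refine le_trans ?_ e1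
    generalize 2 * (s * (m' + 1) + s) = n at hn2
    have e3 : (m' + 2) * n ≤ n * n := Nat.mul_le_mul_right _ hn2
    nlinarith
  have hgap : 2 * (s * (m' + 1) + s) * ((m' + 1) * (2 * (s * (m' + 1) + s))) ≤
      2 * (s * (m' + 1) * (m' * (2 * (s * (m' + 1) + s)) + 1)) +
        4 * (s * (m' + 1) * (2 * (s * (m' + 1) + s))) := by
    apply le_of_le_of_eq (Nat.le_add_right _ (2 * (s * (m' + 1))))
    ring
  have key := arith_aux (m := m' + 1) hJ (by omega) rfl hc hT hN h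
    (by rw [add_mul m' 1, one_mul]; omega) (by omega) hgap hR
  have h64 : 64 ≤ d := by
    have e1 : 2 ^ 3 ≤ (m' + 1 + 1) ^ 3 := Nat.pow_le_pow_left (by omega) 3
    have e2 : 8 * 1 * 2 ^ 3 ≤ 8 * s * (m' + 1 + 1) ^ 3 :=
      Nat.mul_le_mul (Nat.mul_le_mul_left _ hs) e1
    omega
  have e4 : s * (m' + 1) * 64 ≤ s * (m' + 1) * d := Nat.mul_le_mul_left _ h64
  have e5 : s ≤ s * (m' + 1) := Nat.le_mul_of_pos_right _ hm
  have e6 : (m' + 1) * (s * d) = s * (m' + 1) * d := by ring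
  rw [e6] at key
  omega

/-- Choice of `s` and `m`. -/
theorem arith_final {g b d s0 p : ℕ} (hg : g ≤ 2 * d) (hs0 : 1 ≤ s0) (hb : b ≤ 2 * (s0 * d))
    (hd : 64 ≤ d)
    (h : ∀ s m : ℕ, 1 ≤ s → s ≤ s0 → 1 ≤ m → 8 * s * (m + 1) ^ 3 ≤ d → s * m * d ^ 2 ≤ 8 * p) :
    (min (g ^ 2) (max g b)) ^ 2 * g ^ 5 ≤ 2 ^ 63 * p ^ 3 := by
  classical
  obtain ⟨s, hs1, hs2, hs3, hs4⟩ : ∃ s, 1 ≤ s ∧ s ≤ s0 ∧ 64 * s ≤ d ∧
      min (g ^ 2) (max g b) ≤ 512 * (s * d) := by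
    rcases le_total s0 (d / 64) with h1 | h1
    · refine ⟨s0, hs0, le_rfl, by omega, (min_le_right _ _).trans (max_le ?_ (by omega))⟩
      have : d ≤ s0 * d := Nat.le_mul_of_pos_left _ hs0
      omega
    · refine ⟨d / 64, by omega, h1, by omega, (min_le_left _ _).trans ?_⟩
      have e1 : g ^ 2 ≤ (2 * d) ^ 2 := Nat.pow_le_pow_left hg 2
      have e2 : d ≤ 128 * (d / 64) := by omega
      have e3 : d * d ≤ 128 * (d / 64) * d := Nat.mul_le_mul_right _ e2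
      nlinarith
  have hex : ∃ m, d < 8 * s * (m + 2) ^ 3 := by
    refine ⟨d, ?_⟩
    have e1 : d + 2 ≤ (d + 2) ^ 3 := Nat.le_self_pow (by norm_num) _
    have e2 : 1 * (d + 2) ^ 3 ≤ 8 * s * (d + 2) ^ 3 := Nat.mul_le_mul_right _ (by omega)
    omega
  have hm1 := Nat.find_spec hex
  have hm0 : Nat.find hex ≠ 0 := by
    intro h0
    rw [h0] at hm1
    norm_num at hm1
    omega
  obtain ⟨m', hm'⟩ := Nat.exists_eq_succ_of_ne_zero hm0
  have hm2 := Nat.find_min hex (m := m') (by omega)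
  rw [hm'] at hm1
  have h1 := h s (m' + 1) hs1 hs2 (by omega) (not_lt.1 hm2)
  have h2 : d ≤ 216 * s * (m' + 1) ^ 3 := by
    have e1 : (m'.succ + 2) ^ 3 ≤ (3 * (m' + 1)) ^ 3 := Nat.pow_le_pow_left (by omega) 3
    have e2 : 8 * s * (m'.succ + 2) ^ 3 ≤ 8 * s * (3 * (m' + 1)) ^ 3 := Nat.mul_le_mul_left _ e1
    have e3 : 8 * s * (3 * (m' + 1)) ^ 3 = 216 * s * (m' + 1) ^ 3 := by ring
    omega
  have h3 : (s * (m' + 1) * d ^ 2) ^ 3 ≤ (8 * p) ^ 3 := Nat.pow_le_pow_left h1 3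
  have h4 : s ^ 2 * d ^ 7 ≤ 216 * (8 * p) ^ 3 := by
    calc s ^ 2 * d ^ 7 = s ^ 2 * d ^ 6 * d := by ring
      _ ≤ s ^ 2 * d ^ 6 * (216 * s * (m' + 1) ^ 3) := Nat.mul_le_mul_left _ h2
      _ = 216 * (s * (m' + 1) * d ^ 2) ^ 3 := by ring
      _ ≤ 216 * (8 * p) ^ 3 := Nat.mul_le_mul_left _ h3
  calc (min (g ^ 2) (max g b)) ^ 2 * g ^ 5 ≤ (512 * (s * d)) ^ 2 * (2 * d) ^ 5 :=
        Nat.mul_le_mul (Nat.pow_le_pow_left hs4 2) (Nat.pow_le_pow_left hg 5)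
    _ = 2 ^ 23 * (s ^ 2 * d ^ 7) := by ring
    _ ≤ 2 ^ 23 * (216 * (8 * p) ^ 3) := Nat.mul_le_mul_left _ h4
    _ = (2 ^ 23 * 216 * 512) * p ^ 3 := by ring
    _ ≤ 2 ^ 63 * p ^ 3 := Nat.mul_le_mul_right _ (by norm_num)

end Pool.Agent.P.MP_4600d4_nt.Ssg
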