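import Pool.Agent.P.MP_4600d4_nt.SsgRun

set_option autoImplicit false

open Polynomial Finset

namespace Pool.Agent.P.MP_4600d4_nt.Ssg

variable {F : Type*} [Field F]

theorem cas_all (p : ℕ) [CharP F p] (h : F) (hh : h ≠ 0) {ι : Type*} [Fintype ι] (f : ι → F[X])
    (hf : LinearIndependent F f) (hdeg : ∀ a, (f a).natDegree < p) (c : ι → F[X])
    (hc : ∀ b : ℕ, ∑ a, c a * taylor ((b : F) * h) (f a) = 0) : c = 0 := by
  funext a0
  have hp : 0 < p := (Nat.zero_le _).trans_lt (hdeg a0)
  have hg : (∑ a, C (c a) * (f a).map (C : F →+* F[X]) : F[X][X]) = 0 := by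
    refine eq_zero_of_natDegree_lt_card_of_eval_eq_zero _
      (f := fun b : Fin p => (X + C (((b : ℕ) : F) * h) : F[X])) (fun b b' e => ?_) (fun b => ?_) ?_
    · have e1 := mul_right_cancel₀ hh (C_injective (add_left_cancel e))
      exact Fin.ext (CharP.natCast_injOn_Iio F p b.2 b'.2 e1)
    · rw [eval_finsetSum, ← hc b]
      refine sum_congr rfl fun a _ => ?_
      rw [eval_mul, eval_C, eval_map, taylor_apply]
      rfl
    · rw [Fintype.card_fin]
      refine lt_of_le_of_lt (natDegree_sum_le_of_forall_le _ _ (n := p - 1) fun a _ => ?_) (by omega)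
      refine (natDegree_C_mul_le _ _).trans (natDegree_map_le.trans ?_)
      have := hdeg a
      omega
  ext j
  have h1 : ∑ a, (c a).coeff j • f a = 0 := by
    ext k
    have h2 := congrArg (fun q : F[X][X] => (q.coeff k).coeff j) hg
    simpa [finsetSum_coeff, coeff_C_mul, coeff_map, coeff_mul_C] using h2
  simpa using Fintype.linearIndependent_iff.1 hf _ h1 a0

theorem cas_step (h : F) (b : ℕ) (q : F[X]) :
    taylor (((b + 1 : ℕ) : F) * h) q = taylor h (taylor ((b : F) * h) q) := by
  rw [taylor_taylor]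
  congr 2
  push_cast
  ring

theorem cas_step' (h : F) (b : ℕ) (q : F[X]) :
    taylor (((b + 1 : ℕ) : F) * h) q = taylor ((b : F) * h) (taylor h q) := by
  rw [taylor_taylor]
  congr 2
  push_cast
  ring

theorem cas_fin (p : ℕ) [CharP F p] (h : F) (hh : h ≠ 0) (N : ℕ) : ∀ (f : Fin N → F[X]),
    LinearIndependent F f → (∀ a, (f a).natDegree < p) → ∀ c : Fin N → F[X],
    (∀ b : ℕ, b < N → ∑ a, c a * taylor ((b : F) * h) (f a) = 0) → c = 0 := by
  induction N with
  | zero => intro f _ _ c _; funext a; exact a.elim0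
  | succ N ih =>
    intro f hf hdeg c hc
    have hf' : LinearIndependent F fun a : Fin N => f a.succ := hf.comp _ (Fin.succ_injective N)
    by_cases h0 : c 0 = 0
    · have := ih _ hf' (fun a => hdeg _) (fun a => c a.succ) fun b hb => by
        have := hc b (by omega)
        rwa [Fin.sum_univ_succ, h0, zero_mul, zero_add] at this
      funext a
      exact Fin.cases h0 (fun a => congrFun this a) a
    have key : ∀ b : ℕ, c 0 * taylor h (∑ a, c a * taylor ((b : F) * h) (f a)) -
        taylor h (c 0) * ∑ a, c a * taylor (((b + 1 : ℕ) : F) * h) (f a) =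
        ∑ a : Fin N, (taylor h (c a.succ) * c 0 - c a.succ * taylor h (c 0)) *
          taylor ((b : F) * h) (taylor h (f a.succ)) := by
      intro b
      rw [map_sum, mul_sum, mul_sum, ← sum_sub_distrib, Fin.sum_univ_succ]
      simp only [taylor_mul, ← cas_step, ← cas_step']
      rw [show ∀ x y z : F[X], x * (y * z) - y * (x * z) = 0 from fun x y z => by ring, zero_add]
      exact sum_congr rfl fun a _ => by ring
    have hz := ih (fun a => taylor h (f a.succ))
      (hf'.map' (taylor h) (LinearMap.ker_eq_bot.2 (taylor_injective h)))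
      (fun a => by rw [natDegree_taylor]; exact hdeg _)
      (fun a => taylor h (c a.succ) * c 0 - c a.succ * taylor h (c 0)) fun b hb => by
        rw [← key b, hc b (by omega), hc (b + 1) (by omega)]
        simp
    have ht : taylor h (c 0) ≠ 0 := fun e => h0 (taylor_injective h (e.trans (map_zero _).symm))
    refine cas_all p h hh f hf hdeg c fun b => ?_
    induction b with
    | zero => exact hc 0 (by omega)
    | succ b ihb =>
      have h1 := key b
      have h2 : ∀ a : Fin N, taylor h (c a.succ) * c 0 - c a.succ * taylor h (c 0) = 0 :=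
        fun a => congrFun hz a
      simp only [h2, zero_mul, sum_const_zero] at h1
      rw [ihb, map_zero, mul_zero, zero_sub, neg_eq_zero] at h1
      exact (mul_eq_zero.1 h1).resolve_left ht

/-- Casoratian lemma, kernel form. -/
theorem cas_ker (p : ℕ) [CharP F p] (h : F) (hh : h ≠ 0) {ι : Type*} [Fintype ι] (f : ι → F[X])
    (hf : LinearIndependent F f) (hdeg : ∀ a, (f a).natDegree < p) (c : ι → F[X])
    (hc : ∀ b : ℕ, b < Fintype.card ι → ∑ a, c a * taylor ((b : F) * h) (f a) = 0) : c = 0 := by
  let e := (Fintype.equivFin ι).symm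
  have := cas_fin p h hh _ (fun a => f (e a)) (hf.comp _ e.injective) (fun a => hdeg _)
    (fun a => c (e a)) fun b hb => by
      rw [← hc b hb]
      exact e.sum_comp fun a => c a * taylor ((b : F) * h) (f a)
  funext a
  simpa using congrFun this (e.symm a)

/-- Casoratian lemma, determinant form. -/
theorem cas_det_ne_zero (p : ℕ) [CharP F p] (h : F) (hh : h ≠ 0) {N : ℕ} (f : Fin N → F[X])
    (hf : LinearIndependent F f) (hdeg : ∀ a, (f a).natDegree < p) :
    (Matrix.of fun b a : Fin N => taylor (((b : ℕ) : F) * h) (f a)).det ≠ 0 := by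
  intro hd
  obtain ⟨c, hc0, hc⟩ := Matrix.exists_mulVec_eq_zero_iff.2 hd
  refine hc0 (cas_ker p h hh f hf hdeg c fun b hb => ?_)
  rw [Fintype.card_fin] at hb
  have := congrFun hc ⟨b, hb⟩
  simpa [Matrix.mulVec, dotProduct, mul_comm] using this

/-- Casoratian lemma, row form. -/
theorem cas_row (p : ℕ) [CharP F p] (h : F) (hh : h ≠ 0) {ι : Type*} [Fintype ι] (f : ι → F[X])
    (hf : LinearIndependent F f) (hdeg : ∀ a, (f a).natDegree < p) {J : ℕ}
    (hJ : J ≤ Fintype.card ι) (g : Fin J → F[X])
    (hg : ∀ a, ∑ l : Fin J, g l * taylor (((l : ℕ) : F) * h) (f a) = 0) : g = 0 := by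
  obtain ⟨e⟩ : Nonempty (Fin J ↪ ι) :=
    Function.Embedding.nonempty_of_card_le (by rwa [Fintype.card_fin])
  have hd := cas_det_ne_zero p h hh (fun a => f (e a)) (hf.comp _ e.injective) fun a => hdeg _
  refine Matrix.eq_zero_of_vecMul_eq_zero hd (funext fun a => ?_)
  simpa [Matrix.vecMul, dotProduct] using hg (e a)

end Pool.Agent.P.MP_4600d4_nt.Ssg
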