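import Pool.Agent.P.MP_4600d4_nt.SsgRun

set_option autoImplicit false

open Polynomial Finset

namespace Pool.Agent.P.MP_4600d4_nt.Ssg

variable {F : Type*} [Field F]

/-- `S` independent vectors in the kernel of `M(x)` give a zero of order `S` of `det M`. -/
theorem pow_dvd_det {N S : ℕ} (M : Matrix (Fin N) (Fin N) F[X]) (x : F) (v : Fin S → Fin N → F)
    (hv : LinearIndependent F v) (h : ∀ j b, ∑ a, (M b a).eval x * v j a = 0) :
    (X - C x) ^ S ∣ M.det := by
  classical
  obtain ⟨W', hW⟩ := Submodule.exists_isCompl (Submodule.span F (Set.range v))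
  let b1 := Module.Basis.span hv
  let b2 := Module.finBasis F W'
  let bb := (b1.prod b2).map (Submodule.prodEquivOfIsCompl _ _ hW)
  have hb : ∀ j, bb (Sum.inl j) = v j := by
    intro j
    simp [bb, b1, Submodule.coe_prodEquivOfIsCompl', Module.Basis.span_apply]
  have hcard : Fintype.card (Fin S ⊕ Fin (Module.finrank F W')) = Fintype.card (Fin N) := by
    rw [← Module.finrank_eq_card_basis bb]; simp
  let σ := Fintype.equivOfCardEq hcard
  let P : Matrix (Fin N) (Fin N) F := fun a c => bb (σ.symm c) a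
  have hP : IsUnit P := by
    rw [← Matrix.linearIndependent_cols_iff_isUnit]
    exact bb.linearIndependent.comp σ.symm σ.symm.injective
  let d : Fin N → F[X] := fun c => Sum.elim (fun _ => X - C x) (fun _ => 1) (σ.symm c)
  have hd : ∀ b c, d c ∣ (M * P.map C) b c := by
    intro b c
    obtain ⟨i, rfl⟩ := σ.surjective c
    rcases i with j | j
    · simp only [d, Equiv.symm_apply_apply, Sum.elim_inl]
      rw [dvd_iff_isRoot, IsRoot.def, Matrix.mul_apply, eval_finsetSum]
      rw [← h j b]
      refine Finset.sum_congr rfl fun a _ => ?_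
      have h3 : P a (σ (Sum.inl j)) = v j a := by simp only [P, Equiv.symm_apply_apply, hb]
      rw [eval_mul, Matrix.map_apply, eval_C, h3]
    · simp [d]
  choose A' hA' using hd
  have hA : M * P.map C = Matrix.of A' * Matrix.diagonal d := by
    ext1 b c
    rw [Matrix.mul_diagonal, hA', Matrix.of_apply, mul_comm]
  have hprod : ∏ c, d c = (X - C x) ^ S := by
    rw [← Equiv.prod_comp σ]
    simp [d, Fintype.prod_sum_type]
  have hdet : M.det * C P.det = (Matrix.of A').det * (X - C x) ^ S := by
    have := congrArg Matrix.det hA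
    rw [Matrix.det_mul, Matrix.det_mul, Matrix.det_diagonal, hprod] at this
    rw [← this]
    congr 1
    exact RingHom.map_det (C : F →+* F[X]) P
  have hu : IsUnit (C P.det : F[X]) := ((Matrix.isUnit_iff_isUnit_det P).1 hP).map C
  exact (hu.dvd_mul_right).1 ⟨_, by rw [hdet, mul_comm]⟩

theorem natDegree_det_le_mul {N : ℕ} (M : Matrix (Fin N) (Fin N) F[X]) (e : ℕ)
    (h : ∀ b a, (M b a).natDegree ≤ e) : M.det.natDegree ≤ N * e := by
  rw [Matrix.det_apply]
  refine natDegree_sum_le_of_forall_le _ _ fun σ _ => ?_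
  have h1 : (∏ i, M (σ i) i).natDegree ≤ N * e := by
    refine (natDegree_prod_le _ _).trans ?_
    refine (Finset.sum_le_sum fun i _ => h (σ i) i).trans ?_
    simp
  rcases Int.units_eq_one_or (Equiv.Perm.sign σ) with h2 | h2
  · simpa [h2] using h1
  · simpa [h2] using h1

/-- Siegel's lemma over `F[Y]` (a dimension count). -/
theorem siegel {n L T E : ℕ} (e : Fin L → Fin n → F[X]) (he : ∀ l i, (e l i).natDegree ≤ E)
    (hc : L * (T + E + 1) < n * (T + 1)) :
    ∃ Δ : Fin n → F[X], Δ ≠ 0 ∧ (∀ i, (Δ i).natDegree ≤ T) ∧ ∀ l, ∑ i, Δ i * e l i = 0 := by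
  have key : ∀ (Δ : Fin n → degreeLT F (T + 1)) (l : Fin L),
      ∑ i, (Δ i : F[X]) * e l i ∈ degreeLT F (T + E + 1) := by
    intro Δ l
    refine Submodule.sum_mem _ fun i _ => ?_
    rw [mem_degreeLT]
    have h1 : (Δ i : F[X]).natDegree ≤ T := by
      have := mem_degreeLT.1 (Δ i).2
      by_cases h0 : (Δ i : F[X]) = 0
      · simp [h0]
      · exact Nat.lt_succ_iff.1 ((natDegree_lt_iff_degree_lt h0).2 this)
    have h2 : ((Δ i : F[X]) * e l i).natDegree ≤ T + E :=
      natDegree_mul_le.trans (add_le_add h1 (he l i))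
    refine degree_le_natDegree.trans_lt ?_
    exact_mod_cast Nat.lt_succ_of_le h2
  let Φ : (Fin n → degreeLT F (T + 1)) →ₗ[F] (Fin L → degreeLT F (T + E + 1)) :=
    { toFun := fun Δ l => ⟨∑ i, (Δ i : F[X]) * e l i, key Δ l⟩
      map_add' := by
        intro a b; ext1 l; apply Subtype.ext
        simp [add_mul, Finset.sum_add_distrib]
      map_smul' := by
        intro r a; ext1 l; apply Subtype.ext
        simp [Finset.smul_sum] }
  have hfr : ∀ k, Module.finrank F (degreeLT F k) = k := fun k => by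
    simpa using (degreeLTEquiv F k).finrank_eq
  have hlt : Module.finrank F (Fin L → degreeLT F (T + E + 1)) <
      Module.finrank F (Fin n → degreeLT F (T + 1)) := by
    simp only [Module.finrank_pi_fintype, hfr, Finset.sum_const, Finset.card_univ,
      Fintype.card_fin, smul_eq_mul]
    exact hc
  obtain ⟨Δ, hΔ, hne⟩ := (Submodule.ne_bot_iff _).1 (LinearMap.ker_ne_bot_of_finrank_lt (f := Φ) hlt)
  refine ⟨fun i => Δ i, fun h0 => hne ?_, fun i => ?_, fun l => ?_⟩
  · ext1 i
    exact Subtype.ext (congrFun h0 i)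
  · have := mem_degreeLT.1 (Δ i).2
    by_cases h0 : (Δ i : F[X]) = 0
    · simp [h0]
    · exact Nat.lt_succ_iff.1 ((natDegree_lt_iff_degree_lt h0).2 this)
  · exact congrArg Subtype.val (congrFun (LinearMap.mem_ker.1 hΔ) l)

end Pool.Agent.P.MP_4600d4_nt.Ssg
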