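import Pool.Agent.P.MP_4600d4_nt.SsgCas
import Pool.Agent.P.MP_4600d4_nt.SsgDet

set_option autoImplicit false

open Polynomial Finset

namespace Pool.Agent.P.MP_4600d4_nt.Ssg

variable {F : Type*} [Field F]

theorem count_aux1 {S : ℕ} (y : F[X]) (hy : y ≠ 0) :
    LinearIndependent F fun j : Fin S => X ^ (j : ℕ) * y := by
  rw [Fintype.linearIndependent_iff]
  intro g hg
  have h1 : (∑ j : Fin S, g j • (X : F[X]) ^ (j : ℕ)) * y = 0 := by
    rw [Finset.sum_mul]
    simpa only [smul_mul_assoc] using hg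
  have h2 := (mul_eq_zero.1 h1).resolve_right hy
  intro j
  have h3 := congrArg (fun q : F[X] => q.coeff j) h2
  simp only [finsetSum_coeff, coeff_smul, coeff_X_pow, smul_eq_mul, coeff_zero] at h3
  rw [Finset.sum_eq_single j] at h3
  · simpa using h3
  · intro b _ hb
    have : (j : ℕ) ≠ b := fun h => hb (Fin.ext h.symm)
    simp [this]
  · intro h
    exact absurd (mem_univ j) h

theorem count_aux2 {N S : ℕ} (f : Fin N → F[X]) (w : Fin S → F[X]) (hw : LinearIndependent F w)
    (v : Fin S → Fin N → F) (hv : ∀ j, ∑ a, v j a • f a = w j) : LinearIndependent F v := by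
  rw [Fintype.linearIndependent_iff] at hw ⊢
  intro g hg
  apply hw g
  have h1 : ∀ a, ∑ j, g j * v j a = 0 := fun a => by
    have := congrFun hg a
    simpa [Finset.sum_apply] using this
  calc ∑ j, g j • w j = ∑ j, ∑ a, (g j * v j a) • f a := by
        refine Finset.sum_congr rfl fun j _ => ?_
        rw [← hv j, Finset.smul_sum]
        simp only [smul_smul]
    _ = ∑ a, (∑ j, g j * v j a) • f a := by
        rw [Finset.sum_comm]
        simp only [Finset.sum_smul]
    _ = 0 := by simp [h1]

/-- Step 5b: counting the zeros of the Casoratian with step `d`. -/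
theorem count_zeros (p : ℕ) [CharP F p] {ι : Type*} [Fintype ι] {s d Kh S N E : ℕ}
    (r : ι → ℕ) (hr : Function.Injective r) (hrd : ∀ i, r i < d) (hd : (d : F) ≠ 0)
    (hp : (s + Kh) * d ≤ p) (y : ι → F[X]) (hy : ∀ i, y i ≠ 0)
    (hz : ∀ i, ∀ k : ℕ, k < Kh → (y i).eval (-(((s + k) * d + r i : ℕ) : F)) = 0)
    (f : Fin N → F[X]) (hf : LinearIndependent F f) (hE : ∀ a, (f a).natDegree < E) (hEp : E ≤ p)
    (hmem : ∀ i, ∀ j : ℕ, j < S → X ^ j * y i ∈ Submodule.span F (Set.range f)) :
    Fintype.card ι * S * (Kh - N) ≤ N * E := by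
  classical
  set M : Matrix (Fin N) (Fin N) F[X] :=
    Matrix.of fun b a : Fin N => taylor (((b : ℕ) : F) * (d : F)) (f a) with hM
  have hW : M.det ≠ 0 := cas_det_ne_zero p (d : F) hd f hf fun a => lt_of_lt_of_le (hE a) hEp
  have hdeg : M.det.natDegree ≤ N * E := by
    refine natDegree_det_le_mul M E fun b a => ?_
    simp only [hM, Matrix.of_apply, natDegree_taylor]
    exact (hE a).le
  have hdvd : ∀ q ∈ (univ : Finset ι) ×ˢ Ico N Kh,
      (X - C (-(((s + q.2) * d + r q.1 : ℕ) : F))) ^ S ∣ M.det := by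
    rintro ⟨i, k⟩ hq
    have hk := mem_Ico.1 (mem_product.1 hq).2
    simp only at hk
    have hex : ∀ j : Fin S, ∃ c : Fin N → F, ∑ a, c a • f a = X ^ (j : ℕ) * y i := fun j =>
      (Submodule.mem_span_range_iff_exists_fun F).1 (hmem i j j.2)
    choose v hv using hex
    refine pow_dvd_det M _ v (count_aux2 f _ (count_aux1 (y i) (hy i)) v hv) fun j b => ?_
    have hb := b.2
    have e1 : -(((s + k) * d + r i : ℕ) : F) + ((b : ℕ) : F) * (d : F)
        = -(((s + (k - b)) * d + r i : ℕ) : F) := by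
      have : s + k = s + (k - b) + b := by omega
      rw [this]
      push_cast
      ring
    have e2 := congrArg (eval (-(((s + (k - b)) * d + r i : ℕ) : F))) (hv j)
    rw [eval_mul, hz i (k - b) (by omega), mul_zero, eval_finsetSum] at e2
    rw [← e2]
    refine Finset.sum_congr rfl fun a _ => ?_
    simp only [hM, Matrix.of_apply]
    rw [taylor_eval, e1, eval_smul, smul_eq_mul, mul_comm]
  have hlt : ∀ (i : ι) (k : ℕ), k < Kh → (s + k) * d + r i < p := by
    intro i k hk
    have h1 : (s + k + 1) * d ≤ (s + Kh) * d := Nat.mul_le_mul_right d (by omega)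
    have h2 := hrd i
    have h3 : (s + k + 1) * d = (s + k) * d + d := by ring
    omega
  have hinj : Set.InjOn (fun q : ι × ℕ => -(((s + q.2) * d + r q.1 : ℕ) : F))
      ((univ : Finset ι) ×ˢ Ico N Kh : Finset (ι × ℕ)) := by
    rintro ⟨i, k⟩ hq ⟨i', k'⟩ hq' h
    have hk := (mem_Ico.1 (mem_product.1 (mem_coe.1 hq)).2).2
    have hk' := (mem_Ico.1 (mem_product.1 (mem_coe.1 hq')).2).2
    simp only at hk hk'
    have h0 : (((s + k) * d + r i : ℕ) : F) = (((s + k') * d + r i' : ℕ) : F) := neg_injective h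
    have h1 : (s + k) * d + r i = (s + k') * d + r i' :=
      CharP.natCast_injOn_Iio F p (hlt i k hk) (hlt i' k' hk') h0
    have hd0 : 0 < d := lt_of_le_of_lt (Nat.zero_le _) (hrd i)
    have h2 : r i = r i' := by
      have := congrArg (· % d) h1
      simp only [Nat.mul_add_mod', Nat.mod_eq_of_lt (hrd i), Nat.mod_eq_of_lt (hrd i')] at this
      exact this
    have h3 : (s + k) * d = (s + k') * d := by omega
    have h4 : s + k = s + k' := Nat.eq_of_mul_eq_mul_right hd0 h3
    exact Prod.ext (hr h2) (by simpa using h4)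
  have hall := prod_pow_dvd _ _ hinj S M.det hdvd
  have hle := natDegree_le_of_dvd hall hW
  rw [natDegree_prod_of_monic _ _ fun _ _ => (monic_X_sub_C _).pow S] at hle
  simp only [natDegree_pow, natDegree_X_sub_C, mul_one, sum_const, card_product, card_univ,
    Nat.card_Ico, smul_eq_mul] at hle
  calc Fintype.card ι * S * (Kh - N) = Fintype.card ι * (Kh - N) * S := by ring
    _ ≤ N * E := hle.trans hdeg

end Pool.Agent.P.MP_4600d4_nt.Ssg
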