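import Pool.Agent.P.MP_4600d4_nt.SsgDet

set_option autoImplicit false

open Polynomial Finset

namespace Pool.Agent.P.MP_4600d4_nt.Ssg

variable {F : Type*} [Field F]

theorem delta_dvd (p : ℕ) [CharP F p] {K d s L : ℕ} (u : F[X]) (hd : 1 ≤ d) (hs : 1 ≤ s)
    (hp : d * K + s * d ≤ p + 1)
    (hz : ∀ y : ℕ, 0 < y → y < d * K + s * d → (¬ d ∣ y ∨ y < s * d) → u.eval (-(y : F)) = 0)
    {l : ℕ} (hl : l < L) :
    run F (l * d + 1) (d * K + s * d - 1) ∣
      Cp F s d (K + L - 1) * taylor ((l * d : ℕ) : F) u := by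
  have hsd : 1 ≤ s * d := Nat.mul_pos hs hd
  refine run_dvd p (by omega) _ fun y h1 h2 => ?_
  obtain ⟨y', rfl⟩ : ∃ y', y = l * d + y' := ⟨y - l * d, by omega⟩
  rw [eval_mul, taylor_eval]
  by_cases hy : ¬ d ∣ y' ∨ y' < s * d
  · have h3 := hz y' (by omega) (by omega) hy
    have h4 : (-((l * d + y' : ℕ) : F) + ((l * d : ℕ) : F)) = -(y' : F) := by
      push_cast
      ring
    rw [h4, h3, mul_zero]
  · push Not at hy
    obtain ⟨⟨k, rfl⟩, hk⟩ := hy
    have hk1 : s ≤ k := by
      by_contra h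
      push Not at h
      have := Nat.mul_lt_mul_of_pos_left h (show 0 < d by omega)
      nlinarith
    have hk2 : k < K + s := by
      by_contra h
      push Not at h
      have h5 := Nat.mul_le_mul_left d h
      have h6 : d * (K + s) = d * K + s * d := by ring
      omega
    obtain ⟨j, rfl⟩ : ∃ j, k = s + j := ⟨k - s, by omega⟩
    have h3 := eval_Cp_eq_zero (F := F) (s := s) (d := d) (k := K + L - 1) (j := j + l)
      (by omega)
    have h4 : l * d + d * (s + j) = (s + (j + l)) * d := by ring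
    rw [h4, h3, zero_mul]

/-- Steps 2 and 3. Here `L = J + s`, `n = 2 L`, `Kh = K + L - 1`. -/
theorem exists_delta (p : ℕ) [CharP F p] {K d s J : ℕ} (P u : F[X]) (c : F) (hc : c ≠ 0)
    (hs : 1 ≤ s) (hK : 1 ≤ K) (hn : 2 * (J + s) ≤ d) (hp : d * K + s * d ≤ p + 1)
    (hu : u.natDegree ≤ d * K)
    (hrel : ∑ j ∈ range (s + 1), C (P.coeff j) * taylor ((((s - j) * d : ℕ)) : F) u
        = C c * run F (s * d + 1) (d * K - 1))
    (hz : ∀ y : ℕ, 0 < y → y < d * K + s * d → (¬ d ∣ y ∨ y < s * d) → u.eval (-(y : F)) = 0) :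
    s * d ≤ K + (J + s) ∧ ∃ Δ : Fin (2 * (J + s)) → F[X], Δ ≠ 0 ∧
      (∀ i, (Δ i).natDegree + s * d ≤ (K + (J + s) - 1) + 2 * (J + s)) ∧
      ∀ l : ℕ, l < J → ∑ i : Fin (2 * (J + s)),
        (Δ i * taylor ((i : ℕ) : F) (Cp F s d (K + (J + s) - 1))) *
          taylor ((l : F) * (d : F)) (cof F (s * d + 1) (d * K - 1) (2 * (J + s)) i) = 0 := by
  classical
  have hd : 1 ≤ d := by omega
  have hsd : d ≤ s * d := Nat.le_mul_of_pos_left d hs
  have hdK : d ≤ d * K := Nat.le_mul_of_pos_right d hK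
  have hu0 : u ≠ 0 := by
    intro h
    rw [h] at hrel
    simp only [map_zero, mul_zero, sum_const_zero] at hrel
    exact mul_ne_zero (C_ne_zero.2 hc) (run_ne_zero _ _) hrel.symm
  have hv : ∀ l : Fin (J + s), ∃ v : F[X], Cp F s d (K + (J + s) - 1) *
      taylor (((l : ℕ) * d : ℕ) : F) u = run F (l * d + 1) (d * K + s * d - 1) * v :=
    fun l => delta_dvd p u hd hs hp hz l.2
  choose v hv using hv
  have hdeg : ∀ l, (d * K + s * d - 1) + (v l).natDegree ≤ (K + (J + s) - 1) + d * K := by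
    intro l
    have h0 : taylor (((l : ℕ) * d : ℕ) : F) u ≠ 0 := by
      intro h
      exact hu0 (taylor_injective _ (by rw [h, map_zero]))
    have h1 : v l ≠ 0 := by
      intro h
      have := hv l
      rw [h, mul_zero] at this
      exact mul_ne_zero (Cp_monic _ _ _).ne_zero h0 this
    have h2 := congrArg natDegree (hv l)
    rw [natDegree_mul (Cp_monic _ _ _).ne_zero h0, natDegree_mul (run_ne_zero _ _) h1,
      natDegree_Cp, natDegree_run, natDegree_taylor] at h2
    omega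
  have hfirst : s * d ≤ K + (J + s) := by
    have := hdeg ⟨0, by omega⟩
    omega
  refine ⟨hfirst, ?_⟩
  obtain ⟨T, hT⟩ : ∃ T, T + s * d = (K + (J + s) - 1) + 2 * (J + s) :=
    ⟨(K + (J + s) - 1) + 2 * (J + s) - s * d, by omega⟩
  obtain ⟨Δ, hΔ0, hΔT, hΔ⟩ := siegel (n := 2 * (J + s)) (L := J + s) (T := T) (E := T)
    (fun l i => cof F (l * d + 1) (d * K + s * d - 1) (2 * (J + s)) i *
      taylor ((i : ℕ) : F) (v l)) (fun l i => by
        refine natDegree_mul_le.trans ?_
        rw [natDegree_cof i.2, natDegree_taylor]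
        have := hdeg l
        omega) (by
        have h1 : 0 < J + s := by omega
        nlinarith)
  refine ⟨Δ, hΔ0, fun i => by have := hΔT i; omega, ?_⟩
  have key : ∀ l : ℕ, l < J + s → ∑ i : Fin (2 * (J + s)),
      (Δ i * taylor ((i : ℕ) : F) (Cp F s d (K + (J + s) - 1))) *
        taylor (((l * d + i : ℕ)) : F) u = 0 := by
    intro l hl
    have h1 := congrArg (· * run F (l * d + 1 + 2 * (J + s) - 1)
      ((d * K + s * d - 1) - (2 * (J + s) - 1))) (hΔ ⟨l, hl⟩)
    simp only [zero_mul, sum_mul] at h1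
    rw [← h1]
    refine sum_congr rfl fun i _ => ?_
    have h2 := congrArg (taylor ((i : ℕ) : F)) (hv ⟨l, hl⟩)
    rw [taylor_mul, taylor_mul, taylor_run, taylor_taylor,
      run_eq_cof (n := 2 * (J + s)) i.2 (by omega)] at h2
    have h3 : ((l * d + i : ℕ) : F) = ((i : ℕ) : F) + ((l * d : ℕ) : F) := by
      push_cast
      ring
    rw [h3, mul_assoc, h2]
    ring
  intro l hl
  have hcore : C c * run F (s * d + 1 + l * d + 2 * (J + s) - 1)
      ((d * K - 1) - (2 * (J + s) - 1)) ≠ 0 := mul_ne_zero (C_ne_zero.2 hc) (run_ne_zero _ _)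
  refine (mul_eq_zero.1 ?_).resolve_right hcore
  have h5 : ∑ j ∈ range (s + 1), C (P.coeff j) * ∑ i : Fin (2 * (J + s)),
      (Δ i * taylor ((i : ℕ) : F) (Cp F s d (K + (J + s) - 1))) *
        taylor ((((l + (s - j)) * d + i : ℕ)) : F) u = 0 := by
    refine sum_eq_zero fun j _ => ?_
    rw [key _ (by omega), mul_zero]
  rw [← h5]
  simp only [sum_mul, mul_sum]
  rw [sum_comm]
  refine sum_congr rfl fun i _ => ?_
  have h6 := congrArg (taylor ((l * d + i : ℕ) : F)) hrel
  rw [map_sum, taylor_mul, taylor_C, taylor_run,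
    show s * d + 1 + (l * d + i) = (s * d + 1 + l * d) + i by ring,
    run_eq_cof (n := 2 * (J + s)) i.2 (by omega), ← taylor_cof] at h6
  have h7 : ∀ j ∈ range (s + 1), C (P.coeff j) *
      ((Δ i * taylor ((i : ℕ) : F) (Cp F s d (K + (J + s) - 1))) *
        taylor ((((l + (s - j)) * d + i : ℕ)) : F) u) =
      (Δ i * taylor ((i : ℕ) : F) (Cp F s d (K + (J + s) - 1))) *
        taylor ((l * d + i : ℕ) : F) (C (P.coeff j) * taylor ((((s - j) * d : ℕ)) : F) u) := by
    intro j _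
    rw [taylor_mul, taylor_C, taylor_taylor]
    have h8 : (((l + (s - j)) * d + i : ℕ) : F) =
        ((l * d + i : ℕ) : F) + (((s - j) * d : ℕ) : F) := by
      rw [← Nat.cast_add]
      congr 1
      ring
    rw [h8]
    ring
  rw [sum_congr rfl h7, ← mul_sum, h6, Nat.cast_mul l d]
  ring

end Pool.Agent.P.MP_4600d4_nt.Ssg
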