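import Pool.Agent.P.MP_4600d4_nt.SsgCas

set_option autoImplicit false

open Polynomial Finset

namespace Pool.Agent.P.MP_4600d4_nt.Ssg

variable {F : Type*} [Field F]

theorem space_dim {V W q : Type*} [AddCommGroup V] [Module F V] [FiniteDimensional F V]
    [AddCommGroup W] [Module F W] [Fintype q] (Θ : V →ₗ[F] W) (w : q → V)
    (hw : ∀ c : q → F, ∑ i, c i • w i = 0 → ∀ i, c i = 0) (h0 : ∀ i, Θ (w i) = 0) :
    ∃ (N : ℕ) (f : Fin N → W), LinearIndependent F f ∧ (∀ a, ∃ v, Θ v = f a) ∧
      N + Fintype.card q ≤ Module.finrank F V ∧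
      ∀ v, Θ v ∈ Submodule.span F (Set.range f) := by
  have c1 := (LinearIndependent.of_comp (v := fun i => (⟨w i, h0 i⟩ : LinearMap.ker Θ))
    (LinearMap.ker Θ).subtype (Fintype.linearIndependent_iff.2 hw)).fintype_card_le_finrank
  have c2 := LinearMap.finrank_range_add_finrank_ker Θ
  let b := Module.finBasis F (LinearMap.range Θ)
  refine ⟨_, fun a => (b a : W), b.linearIndependent.map' _ (Submodule.ker_subtype _),
    fun a => (b a).2, by omega, fun v => ?_⟩
  have := congrArg (Submodule.map (LinearMap.range Θ).subtype) b.span_eq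
  rw [Submodule.map_span, ← Set.range_comp, Submodule.map_top, Submodule.range_subtype] at this
  exact this.ge ⟨v, rfl⟩

theorem space_theta {ι : Type*} [Fintype ι] (S : ℕ) (y : ι → F[X]) :
    ∃ Θ : (ι → degreeLT F S) →ₗ[F] F[X], ∀ f, Θ f = ∑ i, (f i : F[X]) * y i :=
  ⟨∑ i, (LinearMap.mulRight F (y i)) ∘ₗ (degreeLT F S).subtype ∘ₗ LinearMap.proj i,
    fun f => by simp⟩

/-- Step 5a: the space spanned by the `Y^j y_i`, `j < S`, has dimension at most
`card ι * S - J (S + 1 - n)`. -/
theorem exists_space (p : ℕ) [CharP F p] (h : F) (hh : h ≠ 0) {ι : Type*} [Fintype ι] [Nonempty ι]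
    {n J S M : ℕ} (κ y : ι → F[X]) (hκ : LinearIndependent F κ)
    (hκd : ∀ i, (κ i).natDegree < n) (hnp : n ≤ p) (hS : n ≤ S) (hy : ∀ i, y i ≠ 0)
    (hM : ∀ i, (y i).natDegree ≤ M)
    (hR : ∀ l : ℕ, l < J → ∑ i, y i * taylor ((l : F) * h) (κ i) = 0) :
    ∃ (N : ℕ) (f : Fin N → F[X]), LinearIndependent F f ∧ (∀ a, (f a).natDegree < S + M) ∧
      N + J * (S + 1 - n) ≤ Fintype.card ι * S ∧
      ∀ i, ∀ j : ℕ, j < S → X ^ j * y i ∈ Submodule.span F (Set.range f) := by
  classical
  have hκp : ∀ i, (κ i).natDegree < p := fun i => (hκd i).trans_le hnp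
  have hJ : J ≤ Fintype.card ι := by
    by_contra hc
    obtain ⟨i⟩ := ‹Nonempty ι›
    exact hy i (congrFun (cas_ker p h hh κ hκ hκp y fun b hb => hR b (by omega)) i)
  have mem : ∀ g : F[X], g.natDegree < S → g ∈ degreeLT F S := fun g hg =>
    mem_degreeLT.2 (degree_le_natDegree.trans_lt (by exact_mod_cast hg))
  obtain ⟨Θ, hΘ⟩ := space_theta S y
  have : Module.Finite F (degreeLT F S) := Module.Finite.equiv (degreeLTEquiv F S).symm
  have fr : Module.finrank F (ι → degreeLT F S) = Fintype.card ι * S := by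
    rw [Module.finrank_pi_fintype, (degreeLTEquiv F S).finrank_eq]
    simp
  have dg : ∀ (q : Fin J × Fin (S + 1 - n)) (i : ι),
      (X ^ (q.2 : ℕ) * taylor (((q.1 : ℕ) : F) * h) (κ i)).natDegree < S := fun q i => by
    have a := natDegree_mul_le (p := (X : F[X]) ^ (q.2 : ℕ))
      (q := taylor (((q.1 : ℕ) : F) * h) (κ i))
    rw [natDegree_X_pow, natDegree_taylor] at a
    have := hκd i
    have := q.2.2
    omega
  obtain ⟨N, f, f1, f2, f3, f4⟩ := space_dim Θ
    (fun (q : Fin J × Fin (S + 1 - n)) i => ⟨_, mem _ (dg q i)⟩) (fun c hc => by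
      have a := cas_row p h hh κ hκ hκp hJ
        (fun l => ∑ k : Fin (S + 1 - n), monomial (k : ℕ) (c (l, k))) fun i => by
          have := congrArg (fun z : ι → degreeLT F S => (z i : F[X])) hc
          simp only [AddSubmonoidClass.coe_finsetSum, Finset.sum_apply, SetLike.val_smul,
            Pi.smul_apply, ZeroMemClass.coe_zero, Pi.zero_apply, Fintype.sum_prod_type] at this
          rw [← this]
          refine sum_congr rfl fun l _ => ?_
          rw [sum_mul]
          exact sum_congr rfl fun k _ => by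
            rw [smul_eq_C_mul, ← mul_assoc, C_mul_X_pow_eq_monomial]
      rintro ⟨l, k⟩
      have := congrArg (fun z => coeff z k) (congrFun a l)
      simpa [finsetSum_coeff, coeff_monomial, Fin.val_inj] using this) fun q => by
      rw [hΘ]
      have := congrArg (fun z => X ^ (q.2 : ℕ) * z) (hR q.1 q.1.2)
      simp only [mul_sum, mul_zero] at this
      rw [← this]
      exact sum_congr rfl fun i _ => by ring
  rw [Fintype.card_prod, Fintype.card_fin, Fintype.card_fin, fr] at f3
  refine ⟨N, f, f1, fun a => ?_, f3, fun i j hj => ?_⟩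
  · obtain ⟨g, hg⟩ := f2 a
    obtain ⟨i⟩ := ‹Nonempty ι›
    have := hκd i
    rw [← hg, hΘ]
    refine lt_of_le_of_lt (natDegree_sum_le_of_forall_le _ _ (n := S - 1 + M) fun i _ =>
      natDegree_mul_le.trans (add_le_add ?_ (hM i))) (by omega)
    by_cases e : (g i : F[X]) = 0
    · simp [e]
    · have := (natDegree_lt_iff_degree_lt e).2 (mem_degreeLT.1 (g i).2)
      omega
  · have := f4 (Pi.single i ⟨X ^ j, mem _ (by rwa [natDegree_X_pow])⟩)
    rwa [hΘ, sum_eq_single i (fun k _ hk => by simp [Pi.single_eq_of_ne hk]) (by simp),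
      Pi.single_eq_same] at this

end Pool.Agent.P.MP_4600d4_nt.Ssg
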