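import Pool.Agent.P.MP_4600d4_nt.SsgU
import Pool.Agent.P.MP_4600d4_nt.SsgDelta
import Pool.Agent.P.MP_4600d4_nt.SsgSpace
import Pool.Agent.P.MP_4600d4_nt.SsgCount
import Pool.Agent.P.MP_4600d4_nt.SsgArith

set_option autoImplicit false

open Polynomial Finset

namespace Pool.Agent.P.MP_4600d4_nt.Ssg

variable {F : Type*} [Field F]

theorem core_ineq {s m d : ℕ} (hs : 1 ≤ s) (hm : 1 ≤ m) (hd : 8 * s * (m + 1) ^ 3 ≤ d) :
    2 * (s * m + s) ≤ d ∧ 3 + 2 * m ≤ d ∧
      2 * (m * (2 * (s * m + s)) + 2 * (s * m + s)) ≤ s * d ∧ 4 * (s * m + s) ≤ s * d := by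
  have h1 : (m + 1) * 4 ≤ (m + 1) ^ 3 := by nlinarith [Nat.mul_le_mul hm hm]
  have h2 : 8 * s * ((m + 1) * 4) ≤ d := le_trans (Nat.mul_le_mul_left _ h1) hd
  have h3 : (m + 1) ^ 2 ≤ (m + 1) ^ 3 := Nat.pow_le_pow_right (by omega) (by omega)
  have h4 : 8 * s * (m + 1) ^ 2 ≤ d := le_trans (Nat.mul_le_mul_left _ h3) hd
  have h5 : d ≤ s * d := Nat.le_mul_of_pos_left _ hs
  refine ⟨by nlinarith, by nlinarith, by nlinarith, by nlinarith⟩

/-- The algebraic core. -/
theorem core (p : ℕ) [CharP F p] {K d s m : ℕ} (P Q : F[X]) (ε : F) (hP0 : P ≠ 0)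
    (hP : P.natDegree = s) (hε : ε ≠ 0) (hs : 1 ≤ s) (hm : 1 ≤ m)
    (hd : 8 * s * (m + 1) ^ 3 ≤ d) (hK : 1 ≤ K) (hp : 2 * (d * K) < p)
    (h : (1 - X) ^ (d * K + 1) - C ε * (1 - X) = expand F d P * Q) : s * m * d ≤ 16 * K := by
  classical
  obtain ⟨i1, i2, i3, i4⟩ := core_ineq hs hm hd
  have hdK : d ≤ d * K := Nat.le_mul_of_pos_right _ hK
  have hD : ((d * K : ℕ) : F) ≠ 0 := by
    have := cast_ne_cast (F := F) p (a := 0) (b := d * K) (by omega) (by omega)
    simpa using this.symm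
  have hdF : (d : F) ≠ 0 := by
    have := cast_ne_cast (F := F) p (a := 0) (b := d) (by omega) (by omega)
    simpa using this.symm
  obtain ⟨hsd, u, c, hc, hu, hrel, hz⟩ := exists_u P Q ε hP0 hP (by omega) hε hD h
  have hex := exists_delta p (J := s * m) P u c hc hs hK i1 (by omega) hu hrel hz
  obtain ⟨n, hn⟩ : ∃ n, n = 2 * (s * m + s) := ⟨_, rfl⟩
  obtain ⟨Kh, hKh⟩ : ∃ Kh, Kh = K + (s * m + s) - 1 := ⟨_, rfl⟩
  obtain ⟨T, hTdef⟩ : ∃ T, T = Kh + n - s * d := ⟨_, rfl⟩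
  rw [← hn, ← hKh] at hex
  rw [← hn] at i1 i3
  obtain ⟨hK2, Δ, hΔ, hT, hR⟩ := hex
  have hsm : 1 ≤ s * m := Nat.mul_pos hs hm
  have hTe : T + s * d = Kh + n := by omega
  let ι := {i : Fin n // Δ i ≠ 0}
  have hne : Nonempty ι := by
    by_contra h0
    exact hΔ (funext fun i => by
      by_contra hi
      exact h0 ⟨⟨i, hi⟩⟩)
  let κ : ι → F[X] := fun i => cof F (s * d + 1) (d * K - 1) n i.1
  let y : ι → F[X] := fun i => Δ i.1 * taylor ((i.1 : ℕ) : F) (Cp F s d Kh)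
  have hκ : LinearIndependent F κ :=
    (cof_linearIndependent (F := F) p (a := s * d + 1) (len := d * K - 1) (n := n)
      (by omega) (by omega)).comp Subtype.val Subtype.val_injective
  have hy : ∀ i, y i ≠ 0 := fun i =>
    mul_ne_zero i.2 fun h0 => (Cp_monic (F := F) s d Kh).ne_zero
      (taylor_injective _ (h0.trans (map_zero _).symm))
  have hM : ∀ i, (y i).natDegree ≤ T + Kh := fun i => by
    refine natDegree_mul_le.trans ?_
    rw [natDegree_taylor, natDegree_Cp]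
    have := hT i.1
    omega
  have hR' : ∀ l : ℕ, l < s * m → ∑ i, y i * taylor ((l : F) * (d : F)) (κ i) = 0 := by
    intro l hl
    refine Eq.trans ?_ (hR l hl)
    rw [← Finset.sum_subtype (p := fun i : Fin n => Δ i ≠ 0) (univ.filter fun i => Δ i ≠ 0)
      (fun i => by simp) (fun i => Δ i * taylor ((i : ℕ) : F) (Cp F s d Kh) *
        taylor ((l : F) * (d : F)) (cof F (s * d + 1) (d * K - 1) n i))]
    refine Finset.sum_filter_of_ne fun i _ hi h0 => hi ?_
    rw [h0, zero_mul, zero_mul]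
  have hS : n ≤ m * n := Nat.le_mul_of_pos_left _ hm
  obtain ⟨N, f, hf, hfd, hN, hmem⟩ := exists_space p (d : F) hdF (n := n) (J := s * m)
    (S := m * n) κ y hκ (fun i => by
      have := natDegree_cof (F := F) (a := s * d + 1) (len := d * K - 1) i.1.2
      simp only [κ, this]
      omega) (by omega) hS hy hM hR'
  have hK3 : s + (s * m + s) ≤ K := by
    have : s * (3 + 2 * m) ≤ s * d := Nat.mul_le_mul_left _ i2
    have e : s * (3 + 2 * m) = 3 * s + 2 * (s * m) := by ring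
    omega
  have hKD : K ≤ d * K := Nat.le_mul_of_pos_left _ (by omega)
  have hcount := count_zeros p (s := s) (d := d) (Kh := Kh) (S := m * n) (E := m * n + (T + Kh))
    (fun i : ι => (i.1 : ℕ)) (fun i j hij => Subtype.ext (Fin.ext hij))
    (fun i => lt_of_lt_of_le i.1.2 i1) hdF
    (by
      have : (s + Kh) * d ≤ (K + K) * d := Nat.mul_le_mul_right _ (by omega)
      have e : (K + K) * d = 2 * (d * K) := by ring
      omega) y hy
    (fun i k hk => by
      simp only [y, eval_mul, taylor_eval]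
      rw [show (-(((s + k) * d + (i.1 : ℕ) : ℕ) : F) + ((i.1 : ℕ) : F))
        = -(((s + k) * d : ℕ) : F) by push_cast; ring, eval_Cp_eq_zero hk, mul_zero])
    f hf hfd (by omega) hmem
  have hcard : Fintype.card ι ≤ n :=
    (Fintype.card_subtype_le (fun i : Fin n => Δ i ≠ 0)).trans (Fintype.card_fin n).le
  have key := @arith_core s m d K N (Fintype.card ι) T hs hm hd hK
  rw [← hn, ← hKh] at key
  exact key hcard hTe.le hN hcount

end Pool.Agent.P.MP_4600d4_nt.Ssg
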