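import Pool.Agent.P.MP_4600d4_nt.SsgCore

set_option autoImplicit false

open Polynomial Finset

namespace Pool.Agent.P.MP_4600d4_nt.Ssg

theorem binom_dvd {F : Type*} [Field F] {ζ x : F} {d : ℕ} (hζ : IsPrimitiveRoot ζ d) (hd : 0 < d)
    (hx : x ≠ 0) (f : F[X]) (h : ∀ i : ℕ, f.eval (ζ ^ i * x) = 0) : X ^ d - C (x ^ d) ∣ f := by
  rw [X_pow_sub_C_eq_prod hζ hd rfl]
  have := prod_pow_dvd (range d) (fun i => ζ ^ i * x) ?_ 1 f ?_
  · simpa using this
  · intro i hi j hj hij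
    exact hζ.pow_inj (mem_range.1 (mem_coe.1 hi)) (mem_range.1 (mem_coe.1 hj))
      (mul_right_cancel₀ hx hij)
  · intro i _
    rw [pow_one, dvd_iff_isRoot]
    exact h i

theorem expand_dvd {F : Type*} [Field F] (d : ℕ) (T : Finset F) (f : F[X])
    (h : ∀ t ∈ T, X ^ d - C t ∣ f) : expand F d (∏ t ∈ T, (X - C t)) ∣ f := by
  rw [map_prod]
  simp only [map_sub, expand_X, expand_C]
  refine Finset.prod_dvd_of_coprime ?_ h
  intro t _ t' _ htt
  have h0 : t' - t ≠ 0 := sub_ne_zero.2 (Ne.symm htt)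
  refine ⟨C (t' - t)⁻¹, -C (t' - t)⁻¹, ?_⟩
  have e : C (t' - t)⁻¹ * (X ^ d - C t) + -C (t' - t)⁻¹ * (X ^ d - C t')
      = C (t' - t)⁻¹ * C (t' - t) := by
    rw [C_sub]
    ring
  rw [e, ← C_mul, inv_mul_cancel₀ h0, C_1]

theorem root_of_sq {p D : ℕ} [Fact p.Prime] (hp : p = 2 * D + 1) {α w c z : ZMod p} (hα : α ≠ 0)
    (hw : w ^ D = 1) (hw0 : w ≠ 0) (hz : α * w * (1 - z) = c) (hc : IsSquare c) :
    (1 - z) ^ (D + 1) - (α ^ D)⁻¹ * (1 - z) = 0 := by
  obtain ⟨y, rfl⟩ := hc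
  have h1 : (y * y) ^ (D + 1) = y * y := by
    have h2 : y ^ p = y := ZMod.pow_card y
    calc (y * y) ^ (D + 1) = y ^ (2 * D + 1) * y := by ring
      _ = y * y := by rw [← hp, h2]
  rw [← hz] at h1
  have h3 : α ^ D ≠ 0 := pow_ne_zero _ hα
  have h4 : α * w * (α ^ D * (1 - z) ^ (D + 1) - (1 - z)) = 0 := by
    have e : (α * w * (1 - z)) ^ (D + 1) = α * w * (α ^ D * w ^ D * (1 - z) ^ (D + 1)) := by
      rw [mul_pow, mul_pow]
      ring
    rw [e, hw] at h1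
    linear_combination h1
  have h5 := (mul_eq_zero.1 h4).resolve_left (mul_ne_zero hα hw0)
  field_simp
  linear_combination h5

theorem main (p : ℕ) [hpp : Fact p.Prime] (G : Subgroup (ZMod p)ˣ) (α β : ZMod p)
    (A B : Finset (ZMod p)) (hα : α ≠ 0) (hA : ∀ g ∈ G, α * (g : ZMod p) + β ∈ A)
    (hB : 2 ≤ B.card) (hsq : ∀ a ∈ A, ∀ b ∈ B, IsSquare (a + b)) :
    (min (Nat.card G ^ 2) (max (Nat.card G) B.card)) ^ 2 * Nat.card G ^ 5 ≤ 2 ^ 63 * p ^ 3 := by
  classical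
  have hp2 := hpp.out.two_le
  by_cases hg : Nat.card G < 128
  · have h1 : min (Nat.card G ^ 2) (max (Nat.card G) B.card) ≤ 128 ^ 2 :=
      (min_le_left _ _).trans (Nat.pow_le_pow_left hg.le 2)
    calc _ ≤ (128 ^ 2) ^ 2 * 128 ^ 5 :=
          Nat.mul_le_mul (Nat.pow_le_pow_left h1 2) (Nat.pow_le_pow_left hg.le 5)
      _ = 2 ^ 63 * 1 := by norm_num
      _ ≤ _ := Nat.mul_le_mul_left _ (Nat.one_le_pow _ _ (by omega))
  have hgp : Nat.card G ≤ p - 1 := by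
    have h1 := Subgroup.card_le_card_group G
    rwa [Nat.card_eq_fintype_card (α := (ZMod p)ˣ), ZMod.card_units] at h1
  obtain ⟨D, hD⟩ : ∃ D, p = 2 * D + 1 := hpp.out.odd_of_ne_two (by omega)
  obtain ⟨γ, hγ⟩ := IsCyclic.exists_ofOrder_eq_natCard (α := G)
  let ζu : (ZMod p)ˣ := ((γ ^ 2 : G) : (ZMod p)ˣ)
  have hζG : ζu ∈ G := (γ ^ 2).2
  obtain ⟨d, hd⟩ : ∃ d, d = orderOf ζu := ⟨_, rfl⟩
  have hgd : Nat.card G ≤ 2 * d := by
    have h1 : d = Nat.card G / Nat.gcd (Nat.card G) 2 := by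
      rw [hd, Subgroup.orderOf_coe, orderOf_pow, hγ]
    have h2 : Nat.gcd (Nat.card G) 2 ≤ 2 := Nat.gcd_le_right _ (by norm_num)
    have h3 := Nat.mul_div_cancel' (Nat.gcd_dvd_left (Nat.card G) 2)
    rw [← h1] at h3
    calc Nat.card G = Nat.gcd (Nat.card G) 2 * d := h3.symm
      _ ≤ 2 * d := Nat.mul_le_mul_right _ h2
  have hζD : ζu ^ D = 1 := by
    have h1 := ZMod.units_pow_card_sub_one_eq_one p (γ : (ZMod p)ˣ)
    have e : p - 1 = 2 * D := by omega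
    rw [e, pow_mul] at h1
    simpa [ζu] using h1
  obtain ⟨K, hK⟩ : d ∣ D := hd ▸ orderOf_dvd_of_pow_eq_one hζD
  have hd64 : 64 ≤ d := by omega
  have hK1 : 1 ≤ K := by
    rcases Nat.eq_zero_or_pos K with h | h
    · rw [h, mul_zero] at hK
      omega
    · exact h
  have hζ : IsPrimitiveRoot (ζu : ZMod p) d :=
    IsPrimitiveRoot.coe_units_iff.2 (hd ▸ IsPrimitiveRoot.orderOf ζu)
  let x : ZMod p → ZMod p := fun b => -(β + b) / α
  let B' := B.erase (-β)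
  let T0 := B'.image fun b => x b ^ d
  have hB' : B.card - 1 ≤ B'.card := Finset.pred_card_le_card_erase
  have hT0 : 1 ≤ T0.card := card_pos.2 ((card_pos.1 (by omega)).image _)
  have hfib : B'.card ≤ d * T0.card := by
    refine card_le_mul_card_image B' d fun t _ => ?_
    calc _ ≤ (nthRoots d t).toFinset.card := by
          refine card_le_card_of_injOn x (fun b hb => ?_) fun b _ b' _ h => ?_
          · have := (mem_filter.1 (mem_coe.1 hb)).2
            exact mem_coe.2 (Multiset.mem_toFinset.2 ((mem_nthRoots (by omega)).2 this))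
          · have h1 : -(β + b) = -(β + b') := (div_left_inj' hα).1 h
            linear_combination -h1
      _ ≤ d := (Multiset.toFinset_card_le _).trans (card_nthRoots _ _)
  have hdvd : ∀ t ∈ T0, X ^ d - C t ∣
      ((1 - X) ^ (D + 1) - C (α ^ D)⁻¹ * (1 - X) : (ZMod p)[X]) := by
    intro t ht
    obtain ⟨b, hb, rfl⟩ := mem_image.1 ht
    obtain ⟨hb1, hb2⟩ := mem_erase.1 hb
    have hb0 : β + b ≠ 0 := fun h => hb1 (by linear_combination h)
    refine binom_dvd hζ (by omega) (div_ne_zero (neg_ne_zero.2 hb0) hα) _ fun i => ?_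
    simp only [eval_sub, eval_pow, eval_one, eval_X, eval_mul, eval_C]
    have hw : (ζu ^ i)⁻¹ ∈ G := G.inv_mem (G.pow_mem hζG i)
    refine root_of_sq hD hα (w := (((ζu ^ i)⁻¹ : (ZMod p)ˣ) : ZMod p)) ?_ (Units.ne_zero _) ?_
      (hsq _ (hA _ hw) b hb2)
    · rw [← Units.val_pow_eq_pow_val, inv_pow, ← pow_mul, mul_comm, pow_mul, hζD, one_pow, inv_one,
        Units.val_one]
    · have h1 : (((ζu ^ i)⁻¹ : (ZMod p)ˣ) : ZMod p) * (ζu : ZMod p) ^ i = 1 := by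
        rw [← Units.val_pow_eq_pow_val, Units.inv_mul]
      have h2 : α * x b = -(β + b) := mul_div_cancel₀ _ hα
      linear_combination (-(α * x b)) * h1 - h2
  refine arith_final hgd hT0 (by rw [mul_comm T0.card d]; omega) hd64 fun s m hs hs0 hm hsm => ?_
  obtain ⟨T, hT, hTc⟩ := Finset.exists_subset_card_eq hs0
  obtain ⟨Q, hQ⟩ := expand_dvd d T _ fun t ht => hdvd t (hT ht)
  have hmon : (∏ t ∈ T, (X - C t) : (ZMod p)[X]).Monic :=
    monic_prod_of_monic _ _ fun _ _ => monic_X_sub_C _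
  have hc := core p (K := K) (d := d) (s := s) (m := m) (∏ t ∈ T, (X - C t)) Q (α ^ D)⁻¹
    hmon.ne_zero (by rw [natDegree_finsetProd_X_sub_C_eq_card, hTc])
    (inv_ne_zero (pow_ne_zero _ hα)) hs hm hsm hK1 (by omega) (hK ▸ hQ)
  calc s * m * d ^ 2 = s * m * d * d := by ring
    _ ≤ 16 * K * d := Nat.mul_le_mul_right _ hc
    _ = 16 * (d * K) := by ring
    _ ≤ 8 * p := by omega

end Pool.Agent.P.MP_4600d4_nt.Ssg
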