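import Mathlib

set_option autoImplicit false

open Polynomial Finset

namespace Pool.Agent.P.MP_4600d4_nt.Ssg

variable {F : Type*} [Field F]

/-- `run F a n = ∏_{i<n} (Y + (a+i))`. -/
noncomputable def run (F : Type*) [Field F] (a n : ℕ) : F[X] :=
  ∏ i ∈ range n, (X + C ((a + i : ℕ) : F))

/-- the cofactor of degree `n-1` in `run (a+i) len = cof * run (a+n-1) (len-(n-1))`. -/
noncomputable def cof (F : Type*) [Field F] (a len n i : ℕ) : F[X] :=
  run F (a + i) (n - 1 - i) * run F (a + len) i

/-- `Cp F s d k = ∏_{j<k} (Y + (s+j) d)`. -/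
noncomputable def Cp (F : Type*) [Field F] (s d k : ℕ) : F[X] :=
  ∏ j ∈ range k, (X + C (((s + j) * d : ℕ) : F))

theorem run_monic (a n : ℕ) : (run F a n).Monic :=
  monic_prod_of_monic _ _ fun _ _ => monic_X_add_C _

theorem run_ne_zero (a n : ℕ) : run F a n ≠ 0 := (run_monic a n).ne_zero

theorem natDegree_run (a n : ℕ) : (run F a n).natDegree = n := by
  unfold run
  rw [natDegree_prod_of_monic _ _ fun _ _ => monic_X_add_C _]
  simp only [natDegree_X_add_C, sum_const, card_range, smul_eq_mul, mul_one]

theorem run_zero (a : ℕ) : run F a 0 = 1 := by simp [run]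

theorem run_add (a m n : ℕ) : run F a (m + n) = run F a m * run F (a + m) n := by
  unfold run
  rw [prod_range_add]
  simp only [add_assoc]

theorem run_succ (a n : ℕ) : run F a (n + 1) = run F a n * (X + C ((a + n : ℕ) : F)) := by
  unfold run
  rw [prod_range_succ]

theorem taylor_prod {ι : Type*} (s : Finset ι) (f : ι → F[X]) (h : F) :
    taylor h (∏ i ∈ s, f i) = ∏ i ∈ s, taylor h (f i) :=
  map_prod (taylorAlgHom h) f s

theorem taylor_run (a n h : ℕ) : taylor (h : F) (run F a n) = run F (a + h) n := by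
  unfold run
  rw [taylor_prod]
  refine prod_congr rfl fun i _ => ?_
  rw [map_add, taylor_X, taylor_C, add_assoc, ← C_add]
  congr 2
  push_cast
  ring

theorem eval_run (a n : ℕ) (x : F) :
    (run F a n).eval x = ∏ i ∈ range n, (x + ((a + i : ℕ) : F)) := by
  unfold run
  rw [eval_prod]
  simp only [eval_add, eval_X, eval_C]

theorem eval_run_eq_zero {a n y : ℕ} (h1 : a ≤ y) (h2 : y < a + n) :
    (run F a n).eval (-(y : F)) = 0 := by
  rw [eval_run]
  refine prod_eq_zero (i := y - a) (mem_range.2 (by omega)) ?_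
  rw [show a + (y - a) = y by omega]
  ring

theorem cast_ne_cast (p : ℕ) [CharP F p] {a b : ℕ} (hab : a < b) (hp : b < a + p) :
    (a : F) ≠ (b : F) := by
  intro h
  have h1 := (CharP.natCast_eq_natCast F p).1 h
  have h2 := (Nat.modEq_iff_dvd' hab.le).1 h1
  have := Nat.le_of_dvd (by omega) h2
  omega

theorem eval_run_ne_zero (p : ℕ) [CharP F p] {a n y : ℕ} (h1 : a + n ≤ y) (h2 : y < a + p) :
    (run F a n).eval (-(y : F)) ≠ 0 := by
  rw [eval_run]
  refine prod_ne_zero_iff.2 fun i hi h => ?_
  have hi' := mem_range.1 hi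
  refine cast_ne_cast (F := F) p (a := a + i) (b := y) (by omega) (by omega) ?_
  linear_combination h

theorem prod_pow_dvd {ι : Type*} (s : Finset ι) (x : ι → F) (hx : Set.InjOn x s) (e : ℕ)
    (f : F[X]) (h : ∀ i ∈ s, (X - C (x i)) ^ e ∣ f) : (∏ i ∈ s, (X - C (x i)) ^ e) ∣ f := by
  refine Finset.prod_dvd_of_coprime ?_ h
  intro i hi j hj hij
  exact (isCoprime_X_sub_C_of_isUnit_sub
    (sub_ne_zero.2 fun h => hij (hx hi hj h)).isUnit).pow

theorem run_dvd (p : ℕ) [CharP F p] {a n : ℕ} (hn : n ≤ p) (f : F[X])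
    (h : ∀ y : ℕ, a ≤ y → y < a + n → f.eval (-(y : F)) = 0) : run F a n ∣ f := by
  have := prod_pow_dvd (range n) (fun i => -((a + i : ℕ) : F)) ?_ 1 f ?_
  · simpa [run, sub_eq_add_neg] using this
  · intro i hi j hj hij
    have hi' := mem_range.1 (mem_coe.1 hi)
    have hj' := mem_range.1 (mem_coe.1 hj)
    have h0 : ((a + i : ℕ) : F) = ((a + j : ℕ) : F) := neg_injective hij
    rcases lt_trichotomy i j with h1 | h1 | h1
    · exact absurd h0 (cast_ne_cast p (by omega) (by omega))
    · exact h1
    · exact absurd h0.symm (cast_ne_cast p (by omega) (by omega))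
  · intro i hi
    rw [pow_one, dvd_iff_isRoot]
    exact h _ (by omega) (by have := mem_range.1 hi; omega)

theorem run_eq_cof {a len n i : ℕ} (hi : i < n) (hn : n ≤ len + 1) :
    run F (a + i) len = cof F a len n i * run F (a + n - 1) (len - (n - 1)) := by
  have e : len = (n - 1 - i) + ((len - (n - 1)) + i) := by omega
  conv_lhs => rw [e]
  rw [run_add, run_add, cof, show a + i + (n - 1 - i) = a + n - 1 by omega,
    show a + n - 1 + (len - (n - 1)) = a + len by omega]
  ring

theorem natDegree_cof {a len n i : ℕ} (hi : i < n) : (cof F a len n i).natDegree = n - 1 := by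
  rw [cof, (run_monic _ _).natDegree_mul (run_monic _ _), natDegree_run, natDegree_run]
  omega

theorem taylor_cof (a len n i h : ℕ) :
    taylor (h : F) (cof F a len n i) = cof F (a + h) len n i := by
  rw [cof, taylor_mul, taylor_run, taylor_run, cof]
  congr 2 <;> omega

theorem Cp_monic (s d k : ℕ) : (Cp F s d k).Monic :=
  monic_prod_of_monic _ _ fun _ _ => monic_X_add_C _

theorem natDegree_Cp (s d k : ℕ) : (Cp F s d k).natDegree = k := by
  unfold Cp
  rw [natDegree_prod_of_monic _ _ fun _ _ => monic_X_add_C _]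
  simp only [natDegree_X_add_C, sum_const, card_range, smul_eq_mul, mul_one]

theorem eval_Cp_eq_zero {s d k j : ℕ} (hj : j < k) :
    (Cp F s d k).eval (-(((s + j) * d : ℕ) : F)) = 0 := by
  unfold Cp
  rw [eval_prod]
  exact prod_eq_zero (i := j) (mem_range.2 hj) (by simp)

/-- the `n` cofactors are linearly independent over the constants -/
theorem cof_linearIndependent (p : ℕ) [CharP F p] {a len n : ℕ} (hn : n ≤ len + 1)
    (hp : len + n ≤ p) : LinearIndependent F fun i : Fin n => cof F a len n i := by
  rw [Fintype.linearIndependent_iff]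
  intro g hg
  suffices H : ∀ m : ℕ, ∀ i : Fin n, (i : ℕ) = m → g i = 0 from fun i => H i i rfl
  intro m
  induction m using Nat.strong_induction_on with
  | _ m ih =>
    intro i hi
    have h1 := congrArg (eval (-((a + len + m : ℕ) : F))) hg
    rw [eval_finsetSum, eval_zero, Finset.sum_eq_single i] at h1
    · rw [eval_smul, smul_eq_mul, cof, eval_mul] at h1
      have hi2 := i.2
      have h2 := eval_run_ne_zero (F := F) p (a := a + i) (n := n - 1 - i) (y := a + len + m)
        (by omega) (by omega)
      have h3 := eval_run_ne_zero (F := F) p (a := a + len) (n := i) (y := a + len + m)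
        (by omega) (by omega)
      exact (mul_eq_zero.1 h1).resolve_right (mul_ne_zero h2 h3)
    · intro j _ hj
      have hj' : (j : ℕ) ≠ m := fun h => hj (Fin.ext (by omega))
      rcases lt_or_gt_of_ne hj' with h | h
      · rw [ih j h j rfl, zero_smul, eval_zero]
      · rw [eval_smul, cof, eval_mul, eval_run_eq_zero (a := a + len) (by omega) (by omega)]
        simp
    · intro h
      exact absurd (mem_univ i) h

end Pool.Agent.P.MP_4600d4_nt.Ssg
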