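import Pool.Agent.P.MP_4600d4_nt.SsgRun

set_option autoImplicit false

open Polynomial Finset

namespace Pool.Agent.P.MP_4600d4_nt.Ssg

variable {F : Type*} [Field F]

/-- the shift operator -/
noncomputable def uS (F : Type*) [Field F] : Module.End F F[X] := taylor (-1 : F)

theorem u_pow (j : ℕ) (f : F[X]) : (uS F ^ j) f = taylor (-(j : F)) f := by
  induction j with
  | zero => simp
  | succ j ih =>
    rw [pow_succ', Module.End.mul_apply, ih, uS, taylor_taylor]
    congr 2
    push_cast
    ring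

theorem u_step (k : ℕ) : (1 - uS F) (run F 1 (k + 1)) = ((k + 1 : ℕ) : F) • run F 1 k := by
  have e : uS F (run F 1 (k + 1)) = run F 0 (k + 1) := by
    have := taylor_run (F := F) 0 (k + 1) 1
    rw [zero_add] at this
    rw [← this, uS, taylor_taylor]
    simp
  have e2 : run F 0 (k + 1) = X * run F 1 k := by
    rw [add_comm k 1, run_add]
    simp [run]
  rw [LinearMap.sub_apply, Module.End.one_apply, e, e2, run_succ, smul_eq_C_mul, add_comm 1 k]
  ring

theorem u_nil (k : ℕ) : ((1 - uS F) ^ (k + 1)) (run F 1 k) = 0 := by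
  induction k with
  | zero => simp [run_zero, uS]
  | succ k ih => rw [pow_succ, Module.End.mul_apply, u_step, map_smul, ih, smul_zero]

theorem u_aeval (f v : F[X]) (e : ℕ) : (aeval (uS F ^ e) f) v =
    ∑ j ∈ range (f.natDegree + 1), f.coeff j • taylor (-((e * j : ℕ) : F)) v := by
  rw [aeval_eq_sum_range, LinearMap.sum_apply]
  refine sum_congr rfl fun j _ => ?_
  rw [LinearMap.smul_apply, ← pow_mul, u_pow]

/-- Step 1: the polynomial `u` on the coefficient side. -/
theorem exists_u {D d s : ℕ} (P Q : F[X]) (ε : F) (hP0 : P ≠ 0) (hP : P.natDegree = s)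
    (hd : 1 ≤ d) (hε : ε ≠ 0) (hD : (D : F) ≠ 0)
    (h : (1 - X) ^ (D + 1) - C ε * (1 - X) = expand F d P * Q) :
    s * d ≤ D + 1 ∧ ∃ (u : F[X]) (c : F), c ≠ 0 ∧ u.natDegree ≤ D ∧
      (∑ j ∈ range (s + 1), C (P.coeff j) * taylor ((((s - j) * d : ℕ)) : F) u
        = C c * run F (s * d + 1) (D - 1)) ∧
      ∀ y : ℕ, 0 < y → y < D + s * d → (¬ d ∣ y ∨ y < s * d) → u.eval (-(y : F)) = 0 := by
  obtain ⟨k, rfl⟩ : ∃ k, D = k + 1 := ⟨D - 1, by
    rcases D with _ | D
    · simp at hD
    · rfl⟩
  obtain ⟨u, hu⟩ : ∃ u, u = (aeval (uS F) Q) (run F 1 (k + 1)) := ⟨_, rfl⟩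
  have hc : -(ε * ((k + 1 : ℕ) : F)) ≠ 0 := neg_ne_zero.2 (mul_ne_zero hε hD)
  have R : (aeval (uS F ^ d) P) u = (-(ε * ((k + 1 : ℕ) : F))) • run F 1 k := by
    have := congrArg (fun f => (aeval (uS F) f) (run F 1 (k + 1))) h
    simp only [map_sub, map_mul, map_pow, map_one, aeval_X, aeval_C, expand_aeval,
      Module.End.mul_apply] at this
    rw [LinearMap.sub_apply, u_nil, Module.End.mul_apply, u_step, Module.algebraMap_end_apply,
      ← hu] at this
    rw [← this, smul_smul, zero_sub, neg_smul]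
  have hQ : Q ≠ 0 := by
    rintro rfl
    rw [map_zero, LinearMap.zero_apply] at hu
    rw [hu, map_zero] at R
    exact smul_ne_zero hc (run_ne_zero 1 k) R.symm
  have hdeg : s * d + Q.natDegree ≤ k + 1 + 1 := by
    have a : (1 - X : F[X]).natDegree ≤ 1 := by compute_degree
    rw [← hP, ← natDegree_expand, ← natDegree_mul ((expand_ne_zero hd).2 hP0) hQ, ← h]
    refine (natDegree_sub_le _ _).trans (max_le ?_ ?_)
    · exact natDegree_pow_le.trans (by nlinarith)
    · exact (natDegree_C_mul_le _ _).trans (by omega)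
  have hu' := u_aeval Q (run F 1 (k + 1)) 1
  rw [pow_one, ← hu] at hu'
  have rel : ∑ j ∈ range (s + 1), C (P.coeff j) * taylor ((((s - j) * d : ℕ)) : F) u
      = C (-(ε * ((k + 1 : ℕ) : F))) * run F (s * d + 1) (k + 1 - 1) := by
    have := congrArg (taylor ((s * d : ℕ) : F)) R
    rw [u_aeval, hP, map_sum, map_smul, taylor_run, smul_eq_C_mul, add_comm 1] at this
    rw [add_tsub_cancel_right, ← this]
    refine sum_congr rfl fun j hj => ?_
    obtain ⟨t, rfl⟩ := Nat.exists_eq_add_of_le (Nat.lt_succ_iff.1 (mem_range.1 hj))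
    rw [map_smul, taylor_taylor, smul_eq_C_mul, add_tsub_cancel_left]
    congr 3
    push_cast
    ring
  refine ⟨by omega, u, _, hc, ?_, rel, fun y => ?_⟩
  · rw [hu']
    refine natDegree_sum_le_of_forall_le _ _ fun j _ => (natDegree_smul_le _ _).trans ?_
    rw [natDegree_taylor, natDegree_run]
  induction y using Nat.strong_induction_on with
  | _ y ih =>
    intro y0 y1 y2
    by_cases hy : y < s * d
    · rw [hu', eval_finsetSum]
      refine sum_eq_zero fun j hj => ?_
      have := mem_range.1 hj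
      rw [eval_smul, taylor_eval, one_mul, ← neg_add, ← Nat.cast_add,
        eval_run_eq_zero (by omega) (by omega), smul_zero]
    have nd : ¬ d ∣ y := y2.resolve_right hy
    have y3 : s * d + 1 ≤ y := by
      rcases Nat.eq_or_lt_of_le (not_lt.1 hy) with e | e
      · exact absurd (e ▸ dvd_mul_left d s) nd
      · exact e
    have := congrArg (eval (-(y : F))) rel
    rw [eval_mul, eval_run_eq_zero y3 (by omega), mul_zero, eval_finsetSum, sum_range_succ,
      sum_eq_zero fun j hj => ?_, zero_add, Nat.sub_self, zero_mul, Nat.cast_zero, taylor_zero,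
      eval_mul, eval_C] at this
    · refine (mul_eq_zero.1 this).resolve_left ?_
      rw [← hP]
      exact leadingCoeff_ne_zero.2 hP0
    · have j1 := mem_range.1 hj
      have a1 : (s - j) * d ≤ s * d := Nat.mul_le_mul_right d (by omega)
      have a2 : 0 < (s - j) * d := Nat.mul_pos (by omega) hd
      obtain ⟨w, hw⟩ := Nat.exists_eq_add_of_le (show (s - j) * d ≤ y by omega)
      have e : -(y : F) + (((s - j) * d : ℕ) : F) = -(w : F) := by
        rw [hw, Nat.cast_add]
        ring
      rw [eval_mul, taylor_eval, e, ih w (by omega) (by omega) (by omega)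
        (Or.inl fun hd' => nd (hw ▸ dvd_add (dvd_mul_left d _) hd')), mul_zero]

end Pool.Agent.P.MP_4600d4_nt.Ssg
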