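import Pool.Agent.P.MP_4600d4_nt.SshArithB

set_option autoImplicit false

open Polynomial Finset

namespace Pool.Agent.P.MP_4600d4_nt.Ssh

open Pool.Agent.P.MP_4600d4_nt.Ssg

variable {F : Type*} [Field F]

/-- Step 4. -/
theorem arith {m d e K r s0 : ℕ} (hm : 4 * m * e + 4 * d ≤ m * d) (hd : 48 * m ^ 2 ≤ d)
    (hd0 : 0 < d) (hK : 1 ≤ K) (hr : 1 ≤ r) (hs : 1 ≤ s0)
    (H : ∀ s n h J N1 : ℕ, s ≤ s0 → e < n → n ≤ d → h < d → J + 1 ≤ K → s * (h + 1) ≤ K + J →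
      N1 + J * (h + n + 1) ≤ s * (h + 1) * (n - e) →
      r * N1 * ((J + 1) * d) ≤ r * N1 * (n + h) + s * (h + 1) * (n * (K + J + r * N1))) :
    r * s0 * d ^ 2 ≤ 288 * m ^ 3 * K := by
  have hm4 : 4 ≤ m := Nat.le_of_mul_le_mul_right (by omega : 4 * d ≤ m * d) hd0
  have hd1 : 768 ≤ d := by nlinarith
  have he : 4 * e ≤ d := by
    refine Nat.le_of_mul_le_mul_left (c := m) ?_ (by omega)
    nlinarith
  have hA : d ≤ 12 * K + 8 := by
    have h1 := H 1 (d / 3) 0 0 (d / 3 - e) hs (by omega) (by omega) hd0 (by omega) (by omega)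
      (by omega)
    obtain ⟨n, hn⟩ : ∃ n, n = d / 3 := ⟨_, rfl⟩
    rw [← hn] at h1
    obtain ⟨N1, hN1⟩ : ∃ N1, N1 = n - e := ⟨_, rfl⟩
    rw [← hN1] at h1
    have h2 : r * N1 * (3 * n) ≤ r * N1 * d := Nat.mul_le_mul_left _ (by omega)
    have h3 : n * (r * N1) ≤ n * K := by nlinarith
    have h4 : r * N1 ≤ K := Nat.le_of_mul_le_mul_left h3 (by omega)
    have h5 : N1 ≤ r * N1 := Nat.le_mul_of_pos_left _ hr
    omega
  have hB := fun (s : ℕ) (s1 : 1 ≤ s) (s2 : s ≤ s0) (s3 : s * (d / (6 * m)) ≤ K) =>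
    arith_B (r := r) hm hd hd0 s1 s3 fun n h J N1 => H s n h J N1 s2
  obtain ⟨del, hdel⟩ : ∃ del, del = d / (6 * m) := ⟨_, rfl⟩
  rw [← hdel] at hB
  have l1 : 6 * m * del ≤ d := hdel ▸ Nat.mul_div_le d (6 * m)
  have l2 : d < 6 * m * (del + 1) := hdel ▸ Nat.lt_mul_div_succ d (by omega)
  have l3 : 1 ≤ del := by
    rcases Nat.eq_zero_or_pos del with h0 | h0
    · rw [h0] at l2
      nlinarith
    · exact h0
  by_cases hc : s0 * del ≤ K
  · have h1 := hB s0 hs le_rfl hc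
    have h2 : d ≤ 12 * m * del := by nlinarith
    calc r * s0 * d ^ 2 = r * s0 * d * d := by ring
      _ ≤ r * s0 * d * (12 * m * del) := Nat.mul_le_mul_left _ h2
      _ = 12 * m * (r * (s0 * del) * d) := by ring
      _ ≤ 12 * m * (24 * m ^ 2 * K) := Nat.mul_le_mul_left _ h1
      _ = 288 * m ^ 3 * K := by ring
  · exfalso
    have k1 : 24 * del ≤ d := by nlinarith
    have k2 : del ≤ K := by omega
    obtain ⟨s, hs'⟩ : ∃ s, s = K / del := ⟨_, rfl⟩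
    have k3 : s * del ≤ K := hs' ▸ Nat.div_mul_le_self K del
    have k4 : K < del * (s + 1) := hs' ▸ Nat.lt_mul_div_succ K l3
    have k5 : 1 ≤ s := hs' ▸ Nat.div_pos k2 l3
    have k6 : s ≤ s0 := Nat.le_of_mul_le_mul_right (by omega : s * del ≤ s0 * del) l3
    have h1 := hB s k5 k6 k3
    have k7 : K < 2 * (s * del) := by nlinarith
    obtain ⟨σ, hσ⟩ : ∃ σ, σ = s * del := ⟨_, rfl⟩
    rw [← hσ] at h1 k7
    have k8 : σ * d ≤ r * σ * d := by
      rw [mul_assoc]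
      exact Nat.le_mul_of_pos_left _ hr
    have k9 : 24 * m ^ 2 * K < 24 * m ^ 2 * (2 * σ) :=
      Nat.mul_lt_mul_of_pos_left k7 (by positivity)
    have k10 : σ * (48 * m ^ 2) ≤ σ * d := Nat.mul_le_mul_left _ hd
    nlinarith

end Pool.Agent.P.MP_4600d4_nt.Ssh
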