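import Pool.Agent.P.MP_4600d4_nt.SsgRun

set_option autoImplicit false

open Polynomial Finset

namespace Pool.Agent.P.MP_4600d4_nt.Ssh

open Pool.Agent.P.MP_4600d4_nt.Ssg

variable {F : Type*} [Field F]

theorem ssharithb_key {m d e w del : ℕ} (hm : 4 * m * e + 4 * d ≤ m * d) (h4 : 4 ≤ m)
    (h1 : 6 * m * del ≤ d) (h8 : 8 * m ≤ del) (hn : d ≤ 2 * (e + del + w) + 1) :
    (m + 2) * (e + del + w + del) ≤ 2 * m * w := by
  obtain ⟨k, rfl⟩ : ∃ k, m = k + 4 := ⟨m - 4, by omega⟩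
  have a1 : (k + 2) * d ≤ (k + 2) * (2 * (e + del + w) + 1) := Nat.mul_le_mul_left _ hn
  have a2 : 24 * del ≤ d := by nlinarith [Nat.zero_le (k * del)]
  nlinarith [a1, a2, hm, h1, h8]

theorem ssharithb_fin {m d K r sg del n x J : ℕ} (hd0 : 0 < d) (hx : sg * (m + 2) ≤ 2 * m * x)
    (hn : 2 * n ≤ d) (hnd : n + del ≤ d) (hsg : 2 * m ≤ sg) (hJ : J ≤ K)
    (H : r * del * (x * d) ≤ r * del * (n + del) + n * (K + J + r * (sg * del))) :
    r * sg * del ≤ 2 * m * K := by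
  have b1 : r * del * d * (sg * (m + 2)) ≤ r * del * d * (2 * m * x) := Nat.mul_le_mul_left _ hx
  have b2 : 2 * m * (r * del * (x * d)) ≤
      2 * m * (r * del * (n + del) + n * (K + J + r * (sg * del))) := Nat.mul_le_mul_left _ H
  have b3 : 2 * m * (r * del) * (n + del) ≤ sg * (r * del) * d :=
    Nat.mul_le_mul (Nat.mul_le_mul_right _ hsg) hnd
  have b4 : m * (2 * n) * (K + J) ≤ m * d * (K + K) :=
    Nat.mul_le_mul (Nat.mul_le_mul_left _ hn) (by omega)
  have b5 : m * (r * (sg * del)) * (2 * n) ≤ m * (r * (sg * del)) * d := Nat.mul_le_mul_left _ hn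
  have b6 : d * (r * sg * del) ≤ d * (2 * m * K) := by nlinarith [b1, b2, b3, b4, b5]
  exact Nat.le_of_mul_le_mul_left b6 hd0

/-- Step 4 (B). -/
theorem arith_B {m d e K r s : ℕ} (hm : 4 * m * e + 4 * d ≤ m * d) (hd : 48 * m ^ 2 ≤ d)
    (hd0 : 0 < d) (hs : 1 ≤ s) (hσ : s * (d / (6 * m)) ≤ K)
    (H : ∀ n h J N1 : ℕ, e < n → n ≤ d → h < d → J + 1 ≤ K → s * (h + 1) ≤ K + J →
      N1 + J * (h + n + 1) ≤ s * (h + 1) * (n - e) →
      r * N1 * ((J + 1) * d) ≤ r * N1 * (n + h) + s * (h + 1) * (n * (K + J + r * N1))) :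
    r * (s * (d / (6 * m))) * d ≤ 24 * m ^ 2 * K := by
  have h4 : 4 ≤ m := by
    have : 4 * d ≤ m * d := le_trans (Nat.le_add_left _ _) hm
    exact Nat.le_of_mul_le_mul_right this hd0
  have hm0 : 0 < 6 * m := by omega
  have h1 : 6 * m * (d / (6 * m)) ≤ d := Nat.mul_div_le _ _
  have h2 : d < 6 * m * (d / (6 * m) + 1) := Nat.lt_mul_div_succ _ hm0
  have h8 : 8 * m ≤ d / (6 * m) := by
    rw [Nat.le_div_iff_mul_le hm0]
    nlinarith [hd]
  generalize d / (6 * m) = del at *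
  have h24 : 24 * del ≤ d := by
    have : 24 * del ≤ 6 * m * del := Nat.mul_le_mul_right _ (by omega)
    omega
  have he : 4 * e ≤ d := by
    have a : m * (4 * e) ≤ m * d := by nlinarith [hm]
    exact Nat.le_of_mul_le_mul_left a (by omega)
  obtain ⟨w, hw⟩ : ∃ w, d / 2 = e + del + w := ⟨d / 2 - (e + del), by omega⟩
  obtain ⟨h, rfl⟩ : ∃ h, del = h + 1 := ⟨del - 1, by omega⟩
  have hkey := ssharithb_key (w := w) hm h4 h1 h8 (by omega)
  set n := e + (h + 1) + w with hn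
  set sg := s * (h + 1) with hsg
  have hsg1 : h + 1 ≤ sg := Nat.le_mul_of_pos_left _ hs
  have hq0 : 0 < n + (h + 1) := by omega
  have j1 : (n + (h + 1)) * (sg * w / (n + (h + 1))) ≤ sg * w := Nat.mul_div_le _ _
  have j2 : sg * w < (n + (h + 1)) * (sg * w / (n + (h + 1)) + 1) := Nat.lt_mul_div_succ _ hq0
  have j3 : sg * w / (n + (h + 1)) < sg := by
    rw [Nat.div_lt_iff_lt_mul hq0]
    exact Nat.mul_lt_mul_of_pos_left (by omega) (by omega)
  generalize sg * w / (n + (h + 1)) = J at *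
  have hne : n - e = (h + 1) + w := by omega
  have H1 := H n h J (sg * (h + 1)) (by omega) (by omega) (by omega) (by omega)
    (by rw [← hsg]; omega) (by rw [← hsg, hne]; nlinarith [j1])
  rw [← hsg] at H1
  have hx : sg * (m + 2) ≤ 2 * m * (J + 1) := by
    have c1 : sg * ((m + 2) * (n + (h + 1))) ≤ sg * (2 * m * w) := Nat.mul_le_mul_left _ hkey
    have c2 : 2 * m * (sg * w) ≤ 2 * m * ((n + (h + 1)) * (J + 1)) :=
      Nat.mul_le_mul_left _ j2.le
    have c3 : (n + (h + 1)) * (sg * (m + 2)) ≤ (n + (h + 1)) * (2 * m * (J + 1)) := by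
      calc (n + (h + 1)) * (sg * (m + 2)) = sg * ((m + 2) * (n + (h + 1))) := by ring
        _ ≤ sg * (2 * m * w) := c1
        _ = 2 * m * (sg * w) := by ring
        _ ≤ 2 * m * ((n + (h + 1)) * (J + 1)) := c2
        _ = (n + (h + 1)) * (2 * m * (J + 1)) := by ring
    exact Nat.le_of_mul_le_mul_left c3 hq0
  have H2 : r * (h + 1) * ((J + 1) * d) ≤
      r * (h + 1) * (n + (h + 1)) + n * (K + J + r * (sg * (h + 1))) := by
    have c1 : sg * (r * (h + 1) * ((J + 1) * d)) ≤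
        sg * (r * (h + 1) * (n + h) + n * (K + J + r * (sg * (h + 1)))) := by
      calc sg * (r * (h + 1) * ((J + 1) * d)) = r * (sg * (h + 1)) * ((J + 1) * d) := by ring
        _ ≤ _ := H1
        _ = _ := by ring
    have c2 := Nat.le_of_mul_le_mul_left c1 (by omega)
    have c3 : r * (h + 1) * (n + h) ≤ r * (h + 1) * (n + (h + 1)) :=
      Nat.mul_le_mul_left _ (by omega)
    omega
  have hfin := ssharithb_fin hd0 hx (by omega) (by omega) (by omega) (by omega) H2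
  have hd2 : d ≤ 12 * m * (h + 1) := by nlinarith [h2]
  calc r * sg * d ≤ r * sg * (12 * m * (h + 1)) := Nat.mul_le_mul_left _ hd2
    _ = 12 * m * (r * sg * (h + 1)) := by ring
    _ ≤ 12 * m * (2 * m * K) := Nat.mul_le_mul_left _ hfin
    _ = 24 * m ^ 2 * K := by ring

end Pool.Agent.P.MP_4600d4_nt.Ssh
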