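import Pool.Agent.P.MP_4600d4_nt.SsgCas

set_option autoImplicit false

open Polynomial Finset

namespace Pool.Agent.P.MP_4600d4_nt.Ssh

open Pool.Agent.P.MP_4600d4_nt.Ssg

variable {F : Type*} [Field F]

/-- twisted Casoratian lemma, all shifts -/
theorem tcas_all (p : ℕ) [Fact p.Prime] [CharP F p] (h : F) (hh : h ≠ 0) {ι : Type*} [Fintype ι]
    (θ : ι → F) (hθ : ∀ a, θ a ≠ 0) (f : ι → F[X])
    (hf : ∀ (lam : F) (v : ι → F), (∀ a, θ a ≠ lam → v a = 0) → ∑ a, v a • f a = 0 → v = 0)
    (hdeg : ∀ a, (f a).natDegree < p) (c : ι → F[X])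
    (hc : ∀ j : ℕ, ∑ a, c a * (C (θ a ^ j) * taylor ((j : F) * h) (f a)) = 0) : c = 0 := by
  classical
  have hp : p ≠ 0 := (Fact.out : p.Prime).ne_zero
  have h1 : ∀ (j : ℕ) (P : F[X]),
      ∑ a, c a * (C (θ a ^ j * P.eval (θ a ^ p)) * taylor ((j : F) * h) (f a)) = 0 := by
    intro j P
    induction P using Polynomial.induction_on' with
    | add P Q hP hQ =>
      have e : ∀ a, c a * (C (θ a ^ j * (P + Q).eval (θ a ^ p)) * taylor ((j : F) * h) (f a)) =
          c a * (C (θ a ^ j * P.eval (θ a ^ p)) * taylor ((j : F) * h) (f a)) +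
          c a * (C (θ a ^ j * Q.eval (θ a ^ p)) * taylor ((j : F) * h) (f a)) := by
        intro a
        rw [eval_add, mul_add, C_add]
        ring
      simp only [e, sum_add_distrib, hP, hQ, add_zero]
    | monomial m r =>
      have h2 := hc (j + p * m)
      have h3 : ((j + p * m : ℕ) : F) = (j : F) := by
        push_cast
        rw [CharP.cast_eq_zero F p]
        ring
      rw [h3] at h2
      have e : ∀ a, c a * (C (θ a ^ j * (monomial m r).eval (θ a ^ p)) *
          taylor ((j : F) * h) (f a)) =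
          C r * (c a * (C (θ a ^ (j + p * m)) * taylor ((j : F) * h) (f a))) := by
        intro a
        rw [eval_monomial, pow_add, pow_mul]
        simp only [C_mul]
        ring
      simp only [e, ← mul_sum, h2, mul_zero]
  funext a0
  set lam := θ a0 with hlam
  have hl0 : lam ≠ 0 := hθ a0
  let P : F[X] := ∏ a ∈ univ.filter (fun a => θ a ≠ lam), (X - C (θ a ^ p))
  have hP0 : ∀ a, θ a ≠ lam → P.eval (θ a ^ p) = 0 := by
    intro a ha
    simp only [P, eval_prod]
    refine prod_eq_zero (i := a) (by simpa using ha) ?_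
    simp
  have hP1 : P.eval (lam ^ p) ≠ 0 := by
    simp only [P, eval_prod]
    refine prod_ne_zero_iff.2 fun a ha => ?_
    have ha' : θ a ≠ lam := by simpa using ha
    simp only [eval_sub, eval_X, eval_C]
    rw [← sub_pow_char]
    exact pow_ne_zero _ (sub_ne_zero.2 ha'.symm)
  have h4 : ∀ j : ℕ, ∑ a : {a // θ a = lam}, c a.1 * taylor ((j : F) * h) (f a.1) = 0 := by
    intro j
    have h5 := h1 j P
    rw [← Fintype.sum_subtype_add_sum_subtype (fun a => θ a = lam)] at h5
    have h6 : ∑ a : {a // ¬ θ a = lam},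
        c a.1 * (C (θ a.1 ^ j * P.eval (θ a.1 ^ p)) * taylor ((j : F) * h) (f a.1)) = 0 :=
      sum_eq_zero fun a _ => by rw [hP0 a.1 a.2]; simp
    rw [h6, add_zero] at h5
    have h7 : ∑ a : {a // θ a = lam},
        c a.1 * (C (θ a.1 ^ j * P.eval (θ a.1 ^ p)) * taylor ((j : F) * h) (f a.1)) =
        C (lam ^ j * P.eval (lam ^ p)) *
          ∑ a : {a // θ a = lam}, c a.1 * taylor ((j : F) * h) (f a.1) := by
      rw [mul_sum]
      refine sum_congr rfl fun a _ => ?_
      rw [a.2]
      ring
    rw [h7] at h5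
    exact (mul_eq_zero.1 h5).resolve_left
      (C_ne_zero.2 (mul_ne_zero (pow_ne_zero _ hl0) hP1))
  have hli : LinearIndependent F (fun a : {a // θ a = lam} => f a.1) := by
    rw [Fintype.linearIndependent_iff]
    intro g hg a
    let v : ι → F := fun b => if hb : θ b = lam then g ⟨b, hb⟩ else 0
    have hv : v = 0 := by
      refine hf lam v (fun b hb => dif_neg hb) ?_
      rw [← Fintype.sum_subtype_add_sum_subtype (fun b => θ b = lam)]
      have h8 : ∑ b : {b // ¬ θ b = lam}, v b.1 • f b.1 = 0 :=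
        sum_eq_zero fun b _ => by simp only [v, dif_neg b.2, zero_smul]
      rw [h8, add_zero, ← hg]
      exact sum_congr rfl fun b _ => by simp only [v, dif_pos b.2]
    have h9 := congrFun hv a.1
    simpa only [v, dif_pos a.2, Pi.zero_apply] using h9
  have h10 := cas_all p h hh (fun a : {a // θ a = lam} => f a.1) hli (fun a => hdeg a.1)
    (fun a => c a.1) h4
  exact congrFun h10 ⟨a0, rfl⟩

end Pool.Agent.P.MP_4600d4_nt.Ssh
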