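import Pool.Agent.P.MP_4600d4_nt.SshCasA

set_option autoImplicit false

open Polynomial Finset

namespace Pool.Agent.P.MP_4600d4_nt.Ssh

open Pool.Agent.P.MP_4600d4_nt.Ssg

variable {F : Type*} [Field F]

theorem sshcasb_succ {N : ℕ} (θ : Fin (N + 1) → F) (f : Fin (N + 1) → F[X])
    (hf : ∀ (lam : F) (v : Fin (N + 1) → F), (∀ a, θ a ≠ lam → v a = 0) →
      ∑ a, v a • f a = 0 → v = 0)
    (lam : F) (v : Fin N → F) (hv : ∀ a, θ a.succ ≠ lam → v a = 0)
    (hs : ∑ a, v a • f a.succ = 0) : v = 0 := by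
  have := hf lam (Fin.cons 0 v) (fun a => Fin.cases (fun _ => rfl) (fun a ha => hv a ha) a) (by
    rw [Fin.sum_univ_succ]
    simpa using hs)
  funext a
  simpa using congrFun this a.succ

theorem sshcasb_fin (p : ℕ) [Fact p.Prime] [CharP F p] (h : F) (hh : h ≠ 0) (N : ℕ) :
    ∀ (θ : Fin N → F), (∀ a, θ a ≠ 0) → ∀ (f : Fin N → F[X]),
    (∀ (lam : F) (v : Fin N → F), (∀ a, θ a ≠ lam → v a = 0) → ∑ a, v a • f a = 0 → v = 0) →
    (∀ a, (f a).natDegree < p) → ∀ c : Fin N → F[X],
    (∀ b : ℕ, b < N → ∑ a, c a * (C (θ a ^ b) * taylor ((b : F) * h) (f a)) = 0) → c = 0 := by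
  induction N with
  | zero => intro θ _ f _ _ c _; funext a; exact a.elim0
  | succ N ih =>
    intro θ hθ f hf hdeg c hc
    have hf' := sshcasb_succ θ f hf
    by_cases h0 : c 0 = 0
    · have := ih (fun a => θ a.succ) (fun a => hθ _) (fun a => f a.succ) hf' (fun a => hdeg _)
        (fun a => c a.succ) fun b hb => by
        have := hc b (by omega)
        rwa [Fin.sum_univ_succ, h0, zero_mul, zero_add] at this
      funext a
      exact Fin.cases h0 (fun a => congrFun this a) a
    have key : ∀ b : ℕ,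
        C (θ 0) * c 0 * taylor h (∑ a, c a * (C (θ a ^ b) * taylor ((b : F) * h) (f a))) -
        taylor h (c 0) * ∑ a, c a * (C (θ a ^ (b + 1)) * taylor (((b + 1 : ℕ) : F) * h) (f a)) =
        ∑ a : Fin N, (C (θ 0) * taylor h (c a.succ) * c 0 -
            C (θ a.succ) * c a.succ * taylor h (c 0)) *
          (C (θ a.succ ^ b) * taylor ((b : F) * h) (taylor h (f a.succ))) := by
      intro b
      rw [map_sum, mul_sum, mul_sum, ← sum_sub_distrib, Fin.sum_univ_succ]
      simp only [taylor_mul, taylor_C, ← cas_step, ← cas_step', pow_succ, C_mul]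
      rw [show ∀ t x y w z : F[X], t * x * (y * (w * z)) - y * (x * (w * t * z)) = 0 from
        fun t x y w z => by ring, zero_add]
      exact sum_congr rfl fun a _ => by ring
    have hz := ih (fun a => θ a.succ) (fun a => hθ _) (fun a => taylor h (f a.succ))
      (fun lam v hv hs => hf' lam v hv (taylor_injective h (by
        rw [map_sum, map_zero, ← hs]
        exact sum_congr rfl fun a _ => map_smul _ _ _)))
      (fun a => by rw [natDegree_taylor]; exact hdeg _)
      (fun a => C (θ 0) * taylor h (c a.succ) * c 0 - C (θ a.succ) * c a.succ * taylor h (c 0))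
      fun b hb => by
        rw [← key b, hc b (by omega), hc (b + 1) (by omega)]
        simp
    have ht : taylor h (c 0) ≠ 0 := fun e => h0 (taylor_injective h (e.trans (map_zero _).symm))
    refine tcas_all p h hh θ hθ f hf hdeg c fun b => ?_
    induction b with
    | zero => exact hc 0 (by omega)
    | succ b ihb =>
      have h1 := key b
      have h2 : ∀ a : Fin N, C (θ 0) * taylor h (c a.succ) * c 0 -
          C (θ a.succ) * c a.succ * taylor h (c 0) = 0 := fun a => congrFun hz a
      simp only [h2, zero_mul, sum_const_zero] at h1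
      rw [ihb, map_zero, mul_zero, zero_sub, neg_eq_zero] at h1
      exact (mul_eq_zero.1 h1).resolve_left ht

/-- twisted Casoratian lemma, determinant form -/
theorem tcas_det_ne_zero (p : ℕ) [Fact p.Prime] [CharP F p] (h : F) (hh : h ≠ 0) {N : ℕ}
    (θ : Fin N → F) (hθ : ∀ a, θ a ≠ 0) (f : Fin N → F[X])
    (hf : ∀ (lam : F) (v : Fin N → F), (∀ a, θ a ≠ lam → v a = 0) → ∑ a, v a • f a = 0 → v = 0)
    (hdeg : ∀ a, (f a).natDegree < p) :
    (Matrix.of fun j a : Fin N =>
      C (θ a ^ (j : ℕ)) * taylor (((j : ℕ) : F) * h) (f a)).det ≠ 0 := by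
  intro hd
  obtain ⟨c, hc0, hc⟩ := Matrix.exists_mulVec_eq_zero_iff.2 hd
  refine hc0 (sshcasb_fin p h hh N θ hθ f hf hdeg c fun b hb => ?_)
  have := congrFun hc ⟨b, hb⟩
  simp only [Matrix.mulVec, dotProduct, Matrix.of_apply, Pi.zero_apply] at this
  rw [← this]
  exact sum_congr rfl fun a _ => mul_comm _ _

end Pool.Agent.P.MP_4600d4_nt.Ssh
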