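import Pool.Agent.P.MP_4600d4_nt.SshMain

set_option autoImplicit false

open Finset

namespace Pool.Agent.P.MP_4600d4_nt.Ssh

theorem char_count (p : ℕ) [Fact p.Prime] (G : Subgroup (ZMod p)ˣ) [Fintype G] (a : ZMod p) :
    let n1 := Nat.card {g : G // IsSquare (1 * ((g : (ZMod p)ˣ) : ZMod p) + a)}
    let n2 := Nat.card {g : G // ¬ IsSquare (1 * ((g : (ZMod p)ˣ) : ZMod p) + a)}
    let T : ℤ := ∑ g : G, quadraticChar (ZMod p) (((g : (ZMod p)ˣ) : ZMod p) + a)
    n1 + n2 = Nat.card G ∧ T ≤ (n1 : ℤ) - n2 ∧ (n1 : ℤ) - n2 ≤ T + 1 := by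
  classical
  intro n1 n2 T
  have e1 : n1 = (univ.filter fun g : G => IsSquare (((g : (ZMod p)ˣ) : ZMod p) + a)).card := by
    simp only [n1, one_mul, Nat.card_eq_fintype_card, Fintype.card_subtype]
  have e2 : n2 = (univ.filter fun g : G => ¬ IsSquare (((g : (ZMod p)ˣ) : ZMod p) + a)).card := by
    simp only [n2, one_mul, Nat.card_eq_fintype_card, Fintype.card_subtype]
  have e3 : (n1 : ℤ) - n2 =
      ∑ g : G, (if IsSquare (((g : (ZMod p)ˣ) : ZMod p) + a) then (1 : ℤ) else -1) := by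
    rw [sum_ite, e1, e2]
    simp [sub_eq_add_neg]
  have e4 : ∀ x : ZMod p, (if IsSquare x then (1 : ℤ) else -1) =
      quadraticChar (ZMod p) x + if x = 0 then 1 else 0 := by
    intro x
    by_cases h0 : x = 0
    · simp [h0]
    · by_cases h1 : IsSquare x
      · rw [if_pos h1, if_neg h0, (quadraticChar_one_iff_isSquare h0).2 h1, add_zero]
      · rw [if_neg h1, if_neg h0, quadraticChar_neg_one_iff_not_isSquare.2 h1, add_zero]
  have e5 : (n1 : ℤ) - n2 =
      T + ((univ.filter fun g : G => ((g : (ZMod p)ˣ) : ZMod p) + a = 0).card : ℤ) := by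
    rw [e3, sum_congr rfl fun g _ => e4 _, sum_add_distrib, sum_boole]
  have e6 : (univ.filter fun g : G => ((g : (ZMod p)ˣ) : ZMod p) + a = 0).card ≤ 1 := by
    refine card_le_one.2 fun g hg g' hg' => ?_
    have h1 := (mem_filter.1 hg).2
    have h2 := (mem_filter.1 hg').2
    exact Subtype.ext (Units.ext (by linear_combination h1 - h2))
  refine ⟨?_, by omega, by omega⟩
  rw [e1, e2, card_filter_add_card_filter_not, Nat.card_eq_fintype_card, card_univ]

/-- A saving in the sum of the quadratic character over a shifted subgroup. -/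
theorem char_sum (ε : ℝ) (hε : 0 < ε) : ∃ C : ℕ, ∀ (p : ℕ) [Fact p.Prime] (G : Subgroup (ZMod p)ˣ)
    [Fintype G] (a : ZMod p), a ≠ 0 → C * p < Nat.card G ^ 3 →
    ((|∑ g : G, quadraticChar (ZMod p) (((g : (ZMod p)ˣ) : ZMod p) + a)| : ℤ) : ℝ) <
      (1 / 2 + ε) * (Nat.card G : ℝ) := by
  obtain ⟨C0, hC0⟩ := main (ε / 4) (by positivity)
  obtain ⟨M, hM⟩ := exists_nat_ge (2 / ε)
  refine ⟨(C0 + M + 1) ^ 3, fun p hp G _ a ha hd => ?_⟩
  have hp1 : 1 ≤ p := hp.out.one_le
  have h1 : C0 + M + 1 < Nat.card G := by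
    refine lt_of_pow_lt_pow_left₀ 3 (Nat.zero_le _) (lt_of_le_of_lt ?_ hd)
    exact Nat.le_mul_of_pos_right _ hp1
  by_contra hc
  rw [not_lt] at hc
  obtain ⟨c1, c2, c3⟩ := char_count p G a
  have key := hC0 p G {1} {a} (by omega) (singleton_nonempty _) (singleton_nonempty _)
    (by simp) (by simpa using ha.symm) fun a' ha' b' hb' => ?_
  · have h2 : Nat.card G ^ 3 ≤ C0 * p := by
      refine le_trans ?_ key
      rw [pow_succ, pow_two]
      exact Nat.mul_le_mul_right _ (Nat.mul_le_mul (le_max_right _ _) (le_max_right _ _))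
    have h3 : C0 ≤ (C0 + M + 1) ^ 3 := le_trans (by omega) (Nat.le_self_pow (by norm_num) _)
    have h4 := Nat.mul_le_mul_right p h3
    omega
  rw [mem_singleton.1 ha', mem_singleton.1 hb']
  generalize Nat.card {g : G // IsSquare (1 * ((g : (ZMod p)ˣ) : ZMod p) + a)} = n1 at *
  generalize Nat.card {g : G // ¬ IsSquare (1 * ((g : (ZMod p)ˣ) : ZMod p) + a)} = n2 at *
  generalize (∑ g : G, quadraticChar (ZMod p) (((g : (ZMod p)ˣ) : ZMod p) + a) : ℤ) = T at *
  have d1 : (n1 : ℝ) + n2 = Nat.card G := by exact_mod_cast c1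
  have d2 : (T : ℝ) ≤ n1 - n2 := by exact_mod_cast c2
  have d3 : (n1 : ℝ) - n2 ≤ T + 1 := by exact_mod_cast c3
  have d4 : (M : ℝ) ≤ Nat.card G := by exact_mod_cast (by omega : M ≤ Nat.card G)
  have d5 : 2 ≤ ε * Nat.card G := by
    rw [div_le_iff₀ hε] at hM
    nlinarith
  rw [Int.cast_abs] at hc
  rcases le_abs.1 hc with h | h
  · left
    nlinarith
  · right
    nlinarith

end Pool.Agent.P.MP_4600d4_nt.Ssh
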