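import Pool.Agent.P.MP_4600d4_nt.SshMain

set_option autoImplicit false

open Polynomial Finset

namespace Pool.Agent.P.MP_4600d4_nt.Ssh

open Pool.Agent.P.MP_4600d4_nt.Ssg

variable {F : Type*} [Field F]

/-- The negated form of the question for sets `A` with a multiplicative symmetry. -/
theorem invariant_case : ∃ C : ℝ, ∀ (p : ℕ) [Fact p.Prime] (G : Subgroup (ZMod p)ˣ) (β : ZMod p)
    (A B : Finset (ZMod p)), (∀ a ∈ A, ∀ g ∈ G, β + (g : ZMod p) * (a - β) ∈ A) →
    C * (p : ℝ) ^ (0.02 : ℝ) < (Nat.card G : ℝ) →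
    (p : ℝ) ^ (0.49 : ℝ) ≤ (A.card : ℝ) → (p : ℝ) ^ (0.49 : ℝ) ≤ (B.card : ℝ) →
    ∃ a ∈ A, ∃ b ∈ B, ¬ IsSquare (a + b) := by
  classical
  obtain ⟨C0, hC0⟩ := main (1 / 4) (by norm_num)
  refine ⟨4 * C0, fun p hp G β A B hA hG hAc hBc => ?_⟩
  by_contra hcon
  push Not at hcon
  have hp1 : (1 : ℝ) < p := by exact_mod_cast hp.out.one_lt
  have hp0 : (0 : ℝ) < p := by linarith
  have h49 : (1 : ℝ) < (p : ℝ) ^ (0.49 : ℝ) := Real.one_lt_rpow hp1 (by norm_num)
  have h02 : (1 : ℝ) < (p : ℝ) ^ (0.02 : ℝ) := Real.one_lt_rpow hp1 (by norm_num)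
  have hA2 : 2 ≤ A.card := by
    have : (1 : ℝ) < A.card := h49.trans_le hAc
    exact_mod_cast this
  have hB2 : 2 ≤ B.card := by
    have : (1 : ℝ) < B.card := h49.trans_le hBc
    exact_mod_cast this
  let R : Finset (ZMod p) := (A.image fun a => a - β).erase 0
  let S : Finset (ZMod p) := (B.image fun b => b + β).erase 0
  have hRc : A.card - 1 ≤ R.card := by
    have h1 : (A.image fun a => a - β).card = A.card :=
      card_image_of_injective _ sub_left_injective
    rw [← h1]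
    exact Finset.pred_card_le_card_erase
  have hSc : B.card - 1 ≤ S.card := by
    have h1 : (B.image fun b => b + β).card = B.card :=
      card_image_of_injective _ (add_left_injective β)
    rw [← h1]
    exact Finset.pred_card_le_card_erase
  have hC : (0 : ℝ) ≤ C0 := Nat.cast_nonneg _
  have hCG : C0 ≤ Nat.card G := by
    have : (C0 : ℝ) ≤ Nat.card G := by nlinarith
    exact_mod_cast this
  have key := hC0 p G R S hCG (card_pos.1 (by omega)) (card_pos.1 (by omega))
    (notMem_erase _ _) (notMem_erase _ _) (fun a ha b hb => Or.inl (by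
      obtain ⟨a', ha', rfl⟩ := mem_image.1 (mem_erase.1 ha).2
      obtain ⟨b', hb', rfl⟩ := mem_image.1 (mem_erase.1 hb).2
      have hall : ∀ g : G, IsSquare ((a' - β) * ((g : (ZMod p)ˣ) : ZMod p) + (b' + β)) := by
        intro g
        have h1 := hcon _ (hA a' ha' g g.2) b' hb'
        convert h1 using 1
        ring
      rw [Nat.card_congr (Equiv.subtypeUnivEquiv hall)]
      norm_num))
  have k1 : R.card * S.card * Nat.card G ≤ C0 * p :=
    (Nat.mul_le_mul_right _ (Nat.mul_le_mul (le_max_left _ _) (le_max_left _ _))).trans key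
  have k2 : (R.card : ℝ) * S.card * Nat.card G ≤ C0 * p := by exact_mod_cast k1
  have k3 : (A.card : ℝ) ≤ 2 * R.card := by
    have : A.card ≤ 2 * R.card := by omega
    exact_mod_cast this
  have k4 : (B.card : ℝ) ≤ 2 * S.card := by
    have : B.card ≤ 2 * S.card := by omega
    exact_mod_cast this
  have k5 : (p : ℝ) ^ (0.49 : ℝ) * (p : ℝ) ^ (0.49 : ℝ) * (p : ℝ) ^ (0.02 : ℝ) = p := by
    rw [← Real.rpow_add hp0, ← Real.rpow_add hp0]
    norm_num
  set x := (p : ℝ) ^ (0.49 : ℝ)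
  set y := (p : ℝ) ^ (0.02 : ℝ)
  have k6 : x * x ≤ (2 * R.card) * (2 * S.card) :=
    mul_le_mul (hAc.trans k3) (hBc.trans k4) (by linarith) (by positivity)
  have hG0 : (0 : ℝ) ≤ Nat.card G := Nat.cast_nonneg _
  have k7 : x * x * Nat.card G ≤ 4 * (C0 * p) := by
    nlinarith [mul_le_mul_of_nonneg_right k6 hG0]
  have k8 : x * x * (4 * C0 * y) < x * x * Nat.card G :=
    mul_lt_mul_of_pos_left hG (by positivity)
  have k9 : x * x * (4 * C0 * y) = 4 * (C0 * p) := by
    rw [← k5]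
    ring
  linarith

end Pool.Agent.P.MP_4600d4_nt.Ssh
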