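import Pool.Agent.P.MP_4600d4_nt.SshKer

set_option autoImplicit false

open Polynomial Finset

namespace Pool.Agent.P.MP_4600d4_nt.Ssh

open Pool.Agent.P.MP_4600d4_nt.Ssg

variable {F : Type*} [Field F]

/-- a product of powers of distinct linear factors bounds the degree from below -/
theorem sshcount_deg (T : Finset F) (S : F → ℕ) (f : F[X]) (hf : f ≠ 0)
    (h : ∀ ξ ∈ T, (X - C ξ) ^ (S ξ) ∣ f) : ∑ ξ ∈ T, S ξ ≤ f.natDegree := by
  have hd : ∏ ξ ∈ T, (X - C ξ) ^ (S ξ) ∣ f := by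
    refine Finset.prod_dvd_of_coprime ?_ h
    intro a _ b _ hab
    exact IsCoprime.pow (isCoprime_X_sub_C_of_isUnit_sub (sub_ne_zero.2 hab).isUnit)
  have h1 := natDegree_le_of_dvd hd hf
  rw [natDegree_prod_of_monic _ _ (fun ξ _ => (monic_X_sub_C ξ).pow _)] at h1
  simpa [natDegree_pow] using h1

/-- counting the zeros of a determinant -/
theorem count {N E Λ : ℕ} {Pt ω : Type*} [Fintype Pt] [Fintype ω]
    (M : Matrix (Fin N) (Fin N) F[X]) (hM : M.det ≠ 0) (hE : ∀ j a, (M j a).natDegree ≤ E)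
    (π : Pt → F) (L : Pt → ω → Fin N → F) (x : Fin N → Fin Λ → F)
    (hx : ∀ j, Function.Injective (x j))
    (hrow : ∀ j y, ∀ v : Fin N → F, (∀ q, π q = x j y → ∀ w, ∑ a, L q w a * v a = 0) →
      ∑ a, (M j a).eval (x j y) * v a = 0) :
    N * Λ ≤ N * E + Fintype.card ω * Fintype.card Pt := by
  classical
  let X0 : Finset F := (univ : Finset (Fin N × Fin Λ)).image (fun z => x z.1 z.2)
  let B : F → Finset (Fin N) := fun ξ => univ.filter (fun j => ∃ y, x j y = ξ)
  let k : F → ℕ := fun ξ => (univ.filter (fun q : Pt => π q = ξ)).card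
  have hdvd : ∀ ξ ∈ X0, (X - C ξ) ^ ((B ξ).card - Fintype.card ω * k ξ) ∣ M.det := by
    intro ξ _
    by_cases hlt : (B ξ).card ≤ Fintype.card ω * k ξ
    · rw [Nat.sub_eq_zero_of_le hlt, pow_zero]
      exact one_dvd _
    · refine count_one (κ := {q : Pt // π q = ξ} × ω) M ξ (B ξ) (fun z => L z.1.1 z.2) ?_ ?_
      · rw [Fintype.card_prod, Fintype.card_subtype]
        show (B ξ).card - Fintype.card ω * k ξ + k ξ * Fintype.card ω ≤ (B ξ).card
        rw [mul_comm (k ξ)]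
        omega
      · intro j hj v hv
        obtain ⟨y, hy⟩ := (mem_filter.1 hj).2
        rw [← hy]
        exact hrow j y v (fun q hq w => hv (⟨q, hq.trans hy⟩, w))
  have h1 := sshcount_deg X0 _ _ hM hdvd
  have h2 := natDegree_det_le_mul M E hE
  have h3 : N * Λ ≤ ∑ ξ ∈ X0, (B ξ).card := by
    have e1 : N * Λ = (univ : Finset (Fin N × Fin Λ)).card := by simp
    rw [e1, card_eq_sum_card_image (fun z : Fin N × Fin Λ => x z.1 z.2)]
    refine sum_le_sum (fun ξ _ => ?_)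
    refine card_le_card_of_injOn Prod.fst ?_ ?_
    · intro z hz
      have hz' : x z.1 z.2 = ξ := (mem_filter.1 (mem_coe.1 hz)).2
      exact mem_coe.2 (mem_filter.2 ⟨mem_univ _, z.2, hz'⟩)
    · intro z hz z' hz' hzz
      have a1 : x z.1 z.2 = ξ := (mem_filter.1 (mem_coe.1 hz)).2
      have a2 : x z'.1 z'.2 = ξ := (mem_filter.1 (mem_coe.1 hz')).2
      refine Prod.ext hzz (hx z'.1 ?_)
      rw [a2, ← a1, hzz]
  have h4 : ∑ ξ ∈ X0, k ξ ≤ Fintype.card Pt := by
    have e1 : ∑ ξ ∈ X0, k ξ = (univ.filter (fun q : Pt => π q ∈ X0)).card :=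
      sum_card_fiberwise_eq_card_filter univ X0 π
    rw [e1]
    exact card_le_univ _
  have h5 : ∑ ξ ∈ X0, (B ξ).card ≤
      ∑ ξ ∈ X0, ((B ξ).card - Fintype.card ω * k ξ) + Fintype.card ω * ∑ ξ ∈ X0, k ξ := by
    rw [mul_sum, ← sum_add_distrib]
    exact sum_le_sum (fun ξ _ => by omega)
  have h6 := Nat.mul_le_mul_left (Fintype.card ω) h4
  omega

end Pool.Agent.P.MP_4600d4_nt.Ssh
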