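import Pool.Agent.P.MP_4600d4_nt.SshDefs
import Pool.Agent.P.MP_4600d4_nt.SshCasB
import Pool.Agent.P.MP_4600d4_nt.SshCount

set_option autoImplicit false

open Polynomial Finset

namespace Pool.Agent.P.MP_4600d4_nt.Ssh

open Pool.Agent.P.MP_4600d4_nt.Ssg

variable {F : Type*} [Field F]

/-- Step 3, columns indexed by `Fin N`; `θ a` is the twist of column `a`. -/
theorem core (p : ℕ) [Fact p.Prime] [CharP F p] {D d n h J K s N Λ : ℕ} (θ : Fin N → F)
    (hθ : ∀ a, θ a ≠ 0) (mu : Fin s → F) (f : Fin N → F[X]) (g : Fin N → ℕ → Fin s → F[X])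
    (hf : ∀ (lam : F) (v : Fin N → F), (∀ a, θ a ≠ lam → v a = 0) → ∑ a, v a • f a = 0 → v = 0)
    (hF : ∀ a, Fam D d n h Λ (fun b => θ a * mu b) (f a) (g a)) (hd : (d : F) ≠ 0) (hnd : n ≤ d)
    (hΛ : Λ + n = D + (J + 1) * d) (hΛp : Λ ≤ p) (hK : D ≤ (K + 1) * d) (hh : D + h < p) :
    N * Λ ≤ N * (D + h) + s * (h + 1) * (n * (K + J + N)) := by
  classical
  have hd0 : 0 < d := Nat.pos_of_ne_zero fun h0 => hd (by rw [h0, Nat.cast_zero])
  have hM := tcas_det_ne_zero p (d : F) hd θ hθ f hf fun a => lt_of_le_of_lt (hF a).degf hh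
  have key := count (E := D + h) (Λ := Λ) (Pt := Fin n × Fin (K + J + N))
    (ω := Fin s × Fin (h + 1)) _ hM (fun j a => ?_)
    (fun q => -((d - n + 1 + q.1 + q.2 * d : ℕ) : F))
    (fun q w a => θ a ^ (q.2 : ℕ) * (g a (d - n + 1 + q.1) w.1).coeff w.2)
    (fun j y => -(((y : ℕ) + 1 + j * d : ℕ) : F)) (fun j y y' hy => ?_) (fun j y v hv => ?_)
  · simpa only [Fintype.card_prod, Fintype.card_fin] using key
  · rw [Matrix.of_apply]
    refine (natDegree_C_mul_le _ _).trans ?_
    rw [natDegree_taylor]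
    exact (hF a).degf
  · have h1 : ((y : ℕ) : F) = ((y' : ℕ) : F) := by
      have := neg_injective hy
      push_cast at this
      linear_combination this
    exact Fin.ext (CharP.natCast_injOn_Iio F p (lt_of_lt_of_le y.2 hΛp) (lt_of_lt_of_le y'.2 hΛp) h1)
  · obtain ⟨ρ, hρ⟩ : ∃ ρ, ρ = (y : ℕ) % d + 1 := ⟨_, rfl⟩
    obtain ⟨k, hk⟩ : ∃ k, k = (y : ℕ) / d := ⟨_, rfl⟩
    have hy : (y : ℕ) + 1 = ρ + k * d := by
      have := Nat.mod_add_div' (y : ℕ) d
      rw [hρ, hk]
      omega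
    have hρ1 : 1 ≤ ρ := by omega
    have hρ2 : ρ ≤ d := by
      have := Nat.mod_lt (y : ℕ) hd0
      omega
    have hyΛ : ρ + k * d ≤ Λ := by
      have := y.2
      omega
    have hent : ∀ a, ((Matrix.of fun j a : Fin N =>
        C (θ a ^ (j : ℕ)) * taylor (((j : ℕ) : F) * (d : F)) (f a)) j a).eval
          (-(((y : ℕ) + 1 + j * d : ℕ) : F)) * v a =
        ∑ b, mu b ^ k * (C (θ a ^ (k + j) * v a) * g a ρ b).eval (-((ρ + k * d : ℕ) : F)) := by
      intro a
      have e1 : -(((y : ℕ) + 1 + j * d : ℕ) : F) + ((j : ℕ) : F) * (d : F)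
          = -((ρ + k * d : ℕ) : F) := by
        rw [hy]
        push_cast
        ring
      rw [Matrix.of_apply, eval_mul, eval_C, taylor_eval, e1, (hF a).val ρ k hρ1 hρ2 hyΛ,
        mul_sum, sum_mul]
      refine sum_congr rfl fun b _ => ?_
      rw [eval_mul, eval_C, mul_pow, pow_add]
      ring
    rw [sum_congr rfl fun a _ => hent a, sum_comm]
    refine sum_eq_zero fun b _ => ?_
    rw [← mul_sum, ← eval_finsetSum]
    suffices H : ∑ a, C (θ a ^ (k + j) * v a) * g a ρ b = 0 by rw [H, eval_zero, mul_zero]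
    by_cases hz : ρ + n ≤ d
    · exact sum_eq_zero fun a _ => by rw [(hF a).zero ρ b hρ1 hz, mul_zero]
    have hkK : k < K + J + 1 := by
      by_contra hc
      have h1 : (K + J + 1) * d ≤ k * d := Nat.mul_le_mul_right d (by omega)
      have h2 : (K + J + 1) * d + d = (K + 1) * d + (J + 1) * d := by ring
      omega
    have hj := j.2
    have hq := hv (⟨ρ - (d - n + 1), by omega⟩, ⟨k + j, by omega⟩) (by
      simp only
      congr 2
      rw [hy, add_mul]
      omega)
    ext m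
    rw [finsetSum_coeff, coeff_zero]
    by_cases hm : m < h + 1
    · have := hq (b, ⟨m, hm⟩)
      simp only at this
      rw [show d - n + 1 + (ρ - (d - n + 1)) = ρ by omega] at this
      rw [← this]
      refine sum_congr rfl fun a _ => ?_
      rw [coeff_C_mul]
      ring
    · refine sum_eq_zero fun a _ => ?_
      rw [coeff_C_mul, coeff_eq_zero_of_natDegree_lt
        (lt_of_le_of_lt ((hF a).degg ρ b) (by omega)), mul_zero]

end Pool.Agent.P.MP_4600d4_nt.Ssh
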