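import Pool.Agent.P.MP_4600d4_nt.SsgRun

set_option autoImplicit false

open Polynomial Finset

namespace Pool.Agent.P.MP_4600d4_nt.Ssh

open Pool.Agent.P.MP_4600d4_nt.Ssg

variable {F : Type*} [Field F]

/-- the four properties of the polynomial attached to one pair -/
structure UGood (D d e : ℕ) (t : F) (u : F[X]) : Prop where
  deg : u.natDegree ≤ D
  per : ∀ y : ℕ, 1 ≤ y → y + e < D → u.eval (-((y + d : ℕ) : F)) = t * u.eval (-(y : F))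
  zero : ∀ y : ℕ, 0 < y → y + e < d → u.eval (-(y : F)) = 0
  top : u.eval (-((d - e : ℕ) : F)) ≠ 0

/-- `psi d t u c l = ∑ c_(b,i)(Y) t_b^l u_b(Y + l d - i)` -/
noncomputable def psi {s ν : ℕ} (d : ℕ) (t : Fin s → F) (u : Fin s → F[X])
    (c : Fin s → Fin ν → F[X]) (l : ℕ) : F[X] :=
  ∑ b : Fin s, ∑ i : Fin ν, c b i * (C (t b ^ l) * taylor (((l * d : ℕ) : F) - ((i : ℕ) : F)) (u b))

/-- `gg u c ρ b = ∑ u_b(-(ρ+i)) c_(b,i)` -/
noncomputable def gg {s ν : ℕ} (u : Fin s → F[X]) (c : Fin s → Fin ν → F[X]) (ρ : ℕ)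
    (b : Fin s) : F[X] :=
  ∑ i : Fin ν, C ((u b).eval (-((ρ + (i : ℕ) : ℕ) : F))) * c b i

/-- a polynomial `f` whose values at `-1, …, -Λ` are exponential polynomials along each row -/
structure Fam {s : ℕ} (D d n h Λ : ℕ) (t : Fin s → F) (f : F[X]) (g : ℕ → Fin s → F[X]) :
    Prop where
  degf : f.natDegree ≤ D + h
  degg : ∀ ρ b, (g ρ b).natDegree ≤ h
  val : ∀ ρ k : ℕ, 1 ≤ ρ → ρ ≤ d → ρ + k * d ≤ Λ →
    f.eval (-((ρ + k * d : ℕ) : F)) = ∑ b, t b ^ k * (g ρ b).eval (-((ρ + k * d : ℕ) : F))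
  zero : ∀ ρ b, 1 ≤ ρ → ρ + n ≤ d → g ρ b = 0

end Pool.Agent.P.MP_4600d4_nt.Ssh
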