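import Pool.Agent.P.MP_4600d4_nt.SsgRun

set_option autoImplicit false

open Polynomial Finset

namespace Pool.Agent.P.MP_4600d4_nt.Ssh

open Pool.Agent.P.MP_4600d4_nt.Ssg

variable {F : Type*} [Field F]

theorem sshexp_per (p : ℕ) [CharP F p] (x0 δ : F) (hδ : δ ≠ 0) (f : F[X])
    (hf : f.degree < (p : ℕ)) (ht : taylor δ f = f) (h0 : f.eval x0 = 0) : f = 0 := by
  classical
  have hk : ∀ k : ℕ, f.eval (x0 + (k : F) * δ) = 0 := by
    intro k
    induction k with
    | zero => simpa using h0
    | succ k ih =>
      have h1 : (taylor δ f).eval (x0 + (k : F) * δ) = f.eval (x0 + (k : F) * δ + δ) :=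
        taylor_eval _ _ _
      rw [ht, ih] at h1
      have h2 : x0 + ((k + 1 : ℕ) : F) * δ = x0 + (k : F) * δ + δ := by push_cast; ring
      rw [h2, ← h1]
  by_cases hf0 : f = 0
  · exact hf0
  have hnat : f.natDegree < p := by
    rw [degree_eq_natDegree hf0] at hf
    exact_mod_cast hf
  refine eq_zero_of_natDegree_lt_card_of_eval_eq_zero (ι := Fin p) f
    (f := fun k : Fin p => x0 + ((k : ℕ) : F) * δ) ?_ (fun k => hk k) (by simpa using hnat)
  intro a b hab
  have h1 : ((a : ℕ) : F) = ((b : ℕ) : F) := by
    have h2 : ((a : ℕ) : F) * δ = ((b : ℕ) : F) * δ := add_left_cancel hab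
    exact mul_right_cancel₀ hδ h2
  exact Fin.ext (CharP.natCast_injOn_Iio F p a.2 b.2 h1)

theorem sshexp_gen (p : ℕ) [CharP F p] {ι : Type*} [Fintype ι] (μ : ι → F)
    (hμ : Function.Injective μ) (hμ0 : ∀ b, μ b ≠ 0) (x0 δ : F) (hδ : δ ≠ 0) (T : ℕ) :
    ∀ (n : ι → ℕ) (g : ι → F[X]), ∑ b, n b = T → (∀ b, n b ≤ p) →
      (∀ b, (g b).degree < (n b : ℕ)) →
      (∀ k : ℕ, k < T → ∑ b, μ b ^ k * (g b).eval (x0 + (k : F) * δ) = 0) → g = 0 := by
  classical
  induction T with
  | zero =>
    intro n g hn _ hdeg _
    funext b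
    have h1 : n b = 0 := (Finset.sum_eq_zero_iff.1 hn) b (mem_univ b)
    have h2 := hdeg b
    rw [h1] at h2
    have h3 : (g b).degree = ⊥ := by
      simpa using h2
    exact degree_eq_bot.1 h3
  | succ T ih =>
    intro n g hn hnp hdeg hz
    obtain ⟨b0, hb0⟩ : ∃ b0, n b0 ≠ 0 := by
      by_contra hcon
      push Not at hcon
      simp [hcon] at hn
    set g' : ι → F[X] := fun b => C (μ b) * taylor δ (g b) - C (μ b0) * g b with hg'
    have hsum : ∑ b, Function.update n b0 (n b0 - 1) b = T := by
      rw [Finset.sum_update_of_mem (mem_univ b0)]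
      have h1 := Finset.add_sum_erase univ n (mem_univ b0)
      rw [hn] at h1
      rw [Finset.sdiff_singleton_eq_erase]
      omega
    have hg0 : g' = 0 := by
      refine ih (Function.update n b0 (n b0 - 1)) g' hsum ?_ ?_ ?_
      · intro b
        by_cases hb : b = b0
        · subst hb
          rw [Function.update_self]
          exact le_trans (Nat.sub_le _ _) (hnp b)
        · rw [Function.update_of_ne hb]
          exact hnp b
      · intro b
        by_cases hb : b = b0
        · subst hb
          rw [Function.update_self]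
          by_cases hgb : g b = 0
          · simp [hg', hgb]
          have h1 : g' b = C (μ b) * (taylor δ (g b) - g b) := by
            simp only [hg']; ring
          have h2 : (taylor δ (g b) - g b).degree < (g b).degree := by
            have h3 := degree_sub_lt_left (p := taylor δ (g b)) (q := g b) (degree_taylor _ _)
              (by simpa using hgb) (leadingCoeff_taylor _ _)
            rwa [degree_taylor] at h3
          rw [h1, degree_C_mul (hμ0 b)]
          refine lt_of_lt_of_le h2 ?_
          have h4 := hdeg b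
          rw [degree_eq_natDegree hgb] at h4 ⊢
          have h5 : (g b).natDegree < n b := by exact_mod_cast h4
          have h6 : (g b).natDegree ≤ n b - 1 := by omega
          exact_mod_cast h6
        · rw [Function.update_of_ne hb]
          refine lt_of_le_of_lt (degree_sub_le _ _) (max_lt ?_ ?_)
          · rw [degree_C_mul (hμ0 b), degree_taylor]
            exact hdeg b
          · rw [degree_C_mul (hμ0 b0)]
            exact hdeg b
      · intro k hk
        have h1 := hz (k + 1) (by omega)
        have h2 := hz k (by omega)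
        have h3 : ∀ b, μ b ^ k * (g' b).eval (x0 + (k : F) * δ) =
            μ b ^ (k + 1) * (g b).eval (x0 + ((k + 1 : ℕ) : F) * δ) -
              μ b0 * (μ b ^ k * (g b).eval (x0 + (k : F) * δ)) := by
          intro b
          have h4 : x0 + ((k + 1 : ℕ) : F) * δ = x0 + (k : F) * δ + δ := by push_cast; ring
          simp only [hg', eval_sub, eval_mul, eval_C, taylor_eval, h4]
          ring
        rw [Finset.sum_congr rfl (fun b _ => h3 b), Finset.sum_sub_distrib, ← Finset.mul_sum,
          h1, h2]
        simp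
    have heq : ∀ b, C (μ b) * taylor δ (g b) = C (μ b0) * g b := by
      intro b
      have h1 := congrFun hg0 b
      simp only [hg', Pi.zero_apply] at h1
      exact sub_eq_zero.1 h1
    have hne : ∀ b, b ≠ b0 → g b = 0 := by
      intro b hb
      have h1 := congrArg leadingCoeff (heq b)
      rw [leadingCoeff_mul, leadingCoeff_mul, leadingCoeff_C, leadingCoeff_C,
        leadingCoeff_taylor] at h1
      by_contra hgb
      have h2 : (g b).leadingCoeff ≠ 0 := leadingCoeff_ne_zero.2 hgb
      exact hb (hμ (mul_right_cancel₀ h2 h1))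
    have hb0' : g b0 = 0 := by
      refine sshexp_per p x0 δ hδ (g b0) ?_ ?_ ?_
      · refine lt_of_lt_of_le (hdeg b0) ?_
        exact_mod_cast hnp b0
      · exact mul_left_cancel₀ (C_ne_zero.2 (hμ0 b0)) (heq b0)
      · have h1 := hz 0 (by omega)
        rw [Finset.sum_eq_single b0 (fun b _ hb => by simp [hne b hb]) (by simp)] at h1
        simpa using h1
    funext b
    by_cases hb : b = b0
    · rw [hb]; exact hb0'
    · exact hne b hb

/-- an exponential polynomial of order `card ι * (h+1)` with that many consecutive zeros vanishes -/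
theorem exp_poly (p : ℕ) [CharP F p] {ι : Type*} [Fintype ι] (μ : ι → F)
    (hμ : Function.Injective μ) (hμ0 : ∀ b, μ b ≠ 0) (x0 δ : F) (hδ : δ ≠ 0) {h : ℕ} (hp : h < p)
    (g : ι → F[X]) (hg : ∀ b, (g b).natDegree ≤ h)
    (hz : ∀ k : ℕ, k < Fintype.card ι * (h + 1) →
      ∑ b, μ b ^ k * (g b).eval (x0 + (k : F) * δ) = 0) : g = 0 := by
  refine sshexp_gen p μ hμ hμ0 x0 δ hδ (Fintype.card ι * (h + 1)) (fun _ => h + 1) g ?_
    (fun _ => hp) ?_ hz
  · simp
  · intro b
    refine lt_of_le_of_lt degree_le_natDegree ?_
    have h1 : (g b).natDegree < h + 1 := Nat.lt_succ_of_le (hg b)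
    exact_mod_cast h1

end Pool.Agent.P.MP_4600d4_nt.Ssh
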