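import Pool.Agent.P.MP_4600d4_nt.SshDefs

set_option autoImplicit false

open Polynomial Finset

namespace Pool.Agent.P.MP_4600d4_nt.Ssh

open Pool.Agent.P.MP_4600d4_nt.Ssg

variable {F : Type*} [Field F]

theorem sshval_iter {D d e : ℕ} {t : F} {u : F[X]} (hu : UGood D d e t u) (y : ℕ) (hy : 1 ≤ y)
    (j : ℕ) (hj : j = 0 ∨ y + j * d + e < D + d) :
    u.eval (-((y + j * d : ℕ) : F)) = t ^ j * u.eval (-(y : F)) := by
  induction j with
  | zero => simp
  | succ j ih =>
    have h1 : y + j * d + e < D := by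
      rcases hj with h | h
      · omega
      · rw [Nat.succ_mul] at h; omega
    have h2 := hu.per (y + j * d) (by omega) h1
    have h3 : y + (j + 1) * d = y + j * d + d := by rw [Nat.succ_mul]; omega
    rw [h3, h2, ih (Or.inr (by omega)), pow_succ]
    ring

/-- Step 2 (ii), the value formula -/
theorem psi_val {D d e n J s Λ : ℕ} (t : Fin s → F) (u : Fin s → F[X])
    (hu : ∀ b, UGood D d e (t b) (u b)) (hen : e < n) (hΛ : Λ + n = D + (J + 1) * d)
    (c : Fin s → Fin (n - e) → F[X])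
    (hc : ∀ l : ℕ, l < J → psi d t u c l = psi d t u c (l + 1)) (ρ k : ℕ) (hρ : 1 ≤ ρ)
    (hk : ρ + k * d ≤ Λ) :
    (psi d t u c 0).eval (-((ρ + k * d : ℕ) : F)) =
      ∑ b, t b ^ k * (gg u c ρ b).eval (-((ρ + k * d : ℕ) : F)) := by
  have hall : ∀ l : ℕ, l ≤ J → psi d t u c 0 = psi d t u c l := by
    intro l
    induction l with
    | zero => intro _; rfl
    | succ l ih => intro hl; rw [ih (by omega), hc l (by omega)]
  obtain ⟨l, j, hlJ, hkl, hj⟩ : ∃ l j : ℕ, l ≤ J ∧ k = l + j ∧ (j = 0 ∨ l = J) := by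
    rcases le_total k J with h | h
    · exact ⟨k, 0, h, rfl, Or.inl rfl⟩
    · exact ⟨J, k - J, le_rfl, by omega, Or.inr rfl⟩
  rw [hall l hlJ]
  unfold psi gg
  rw [eval_finsetSum]
  refine Finset.sum_congr rfl fun b _ => ?_
  rw [eval_finsetSum, eval_finsetSum, Finset.mul_sum]
  refine Finset.sum_congr rfl fun i _ => ?_
  have hi : (i : ℕ) < n - e := i.2
  have hcond : j = 0 ∨ (ρ + (i : ℕ)) + j * d + e < D + d := by
    rcases hj with h | h
    · exact Or.inl h
    · right
      subst h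
      have h1 : k * d = l * d + j * d := by rw [hkl, Nat.add_mul]
      have h2 : (l + 1) * d = l * d + d := Nat.succ_mul l d
      omega
  have hit := sshval_iter (hu b) (ρ + (i : ℕ)) (by omega) j hcond
  have harg : -((ρ + k * d : ℕ) : F) + (((l * d : ℕ) : F) - ((i : ℕ) : F)) =
      -(((ρ + (i : ℕ)) + j * d : ℕ) : F) := by
    rw [hkl]; push_cast; ring
  rw [eval_mul, eval_mul, eval_mul, eval_C, eval_C, taylor_eval, harg, hit, hkl, pow_add]
  ring

theorem natDegree_gg {h s ν : ℕ} (u : Fin s → F[X]) (c : Fin s → Fin ν → F[X])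
    (hc : ∀ b i, (c b i).natDegree ≤ h) (ρ : ℕ) (b : Fin s) : (gg u c ρ b).natDegree ≤ h := by
  unfold gg
  refine natDegree_sum_le_of_forall_le _ _ fun i _ => ?_
  exact (natDegree_C_mul_le _ _).trans (hc b i)

theorem gg_zero {D d e n s : ℕ} (t : Fin s → F) (u : Fin s → F[X])
    (hu : ∀ b, UGood D d e (t b) (u b)) (c : Fin s → Fin (n - e) → F[X]) (ρ : ℕ) (b : Fin s)
    (hρ : 1 ≤ ρ) (hn : ρ + n ≤ d) : gg u c ρ b = 0 := by
  unfold gg
  refine Finset.sum_eq_zero fun i _ => ?_
  have hi : (i : ℕ) < n - e := i.2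
  rw [(hu b).zero (ρ + (i : ℕ)) (by omega) (by omega)]
  simp

/-- Step 2 (iii), the triangular part -/
theorem gg_inj {D d e n s : ℕ} (t : Fin s → F) (u : Fin s → F[X])
    (hu : ∀ b, UGood D d e (t b) (u b)) (hnd : n ≤ d) (c : Fin s → Fin (n - e) → F[X])
    (hg : ∀ ρ b, 1 ≤ ρ → ρ ≤ d → gg u c ρ b = 0) : c = 0 := by
  funext b
  have key : ∀ m : ℕ, ∀ i : Fin (n - e), n - e - (i : ℕ) ≤ m → c b i = 0 := by
    intro m
    induction m with
    | zero => intro i hi; have := i.2; omega
    | succ m ih =>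
      intro i hi
      have hi2 : (i : ℕ) < n - e := i.2
      have h0 := hg (d - e - (i : ℕ)) b (by omega) (by omega)
      unfold gg at h0
      rw [Finset.sum_eq_single i] at h0
      · have h1 : d - e - (i : ℕ) + (i : ℕ) = d - e := by omega
        rw [h1] at h0
        rcases mul_eq_zero.mp h0 with h | h
        · exact absurd (C_eq_zero.mp h) (hu b).top
        · exact h
      · intro i' _ hne
        have hne' : (i' : ℕ) ≠ (i : ℕ) := fun h => hne (Fin.ext h)
        have hi3 : (i' : ℕ) < n - e := i'.2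
        rcases lt_or_gt_of_ne hne' with h | h
        · rw [(hu b).zero (d - e - (i : ℕ) + (i' : ℕ)) (by omega) (by omega)]
          simp
        · rw [ih i' (by omega)]
          simp
      · intro h; exact absurd (Finset.mem_univ i) h
  funext i
  exact key _ i le_rfl

end Pool.Agent.P.MP_4600d4_nt.Ssh
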