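import Pool.Agent.P.MP_4600d4_nt.SshSpace
import Pool.Agent.P.MP_4600d4_nt.SshVal
import Pool.Agent.P.MP_4600d4_nt.SshExp

set_option autoImplicit false

open Polynomial Finset

namespace Pool.Agent.P.MP_4600d4_nt.Ssh

open Pool.Agent.P.MP_4600d4_nt.Ssg

variable {F : Type*} [Field F]

theorem psi_sum {N s ν : ℕ} (d : ℕ) (t : Fin s → F) (u : Fin s → F[X])
    (c : Fin N → Fin s → Fin ν → F[X]) (v : Fin N → F) (l : ℕ) :
    psi d t u (∑ α, v α • c α) l = ∑ α, v α • psi d t u (c α) l := by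
  unfold psi
  simp only [Finset.sum_apply, Pi.smul_apply, sum_mul, smul_sum, smul_mul_assoc]
  rw [sum_comm (s := (univ : Finset (Fin N)))]
  refine sum_congr rfl fun b _ => ?_
  rw [sum_comm]

/-- Step 2. -/
theorem exists_fam (p : ℕ) [CharP F p] {D d e n h J s N1 Λ : ℕ} (t : Fin s → F)
    (ht : Function.Injective t) (ht0 : ∀ b, t b ≠ 0) (u : Fin s → F[X])
    (hu : ∀ b, UGood D d e (t b) (u b)) (hen : e < n) (hnd : n ≤ d) (hd : (d : F) ≠ 0)
    (hΛ : Λ + n = D + (J + 1) * d) (hσ : s * (h + 1) * d ≤ Λ) (hh : D + h < p)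
    (hN : N1 + J * (h + n + 1) ≤ s * (h + 1) * (n - e)) :
    ∃ (f : Fin N1 → F[X]) (g : Fin N1 → ℕ → Fin s → F[X]), LinearIndependent F f ∧
      ∀ α, Fam D d n h Λ t (f α) (g α) := by
  obtain ⟨c, hc1, hc2, hc3⟩ := exists_kill p (J := J) (N1 := N1) t u hu hen hh hN
  refine ⟨fun α => psi d t u (c α) 0, fun α => gg u (c α), ?_, fun α => ⟨?_, ?_, ?_, ?_⟩⟩
  · rw [Fintype.linearIndependent_iff]
    intro v hv
    refine Fintype.linearIndependent_iff.1 hc1 v ?_
    have h0 : psi d t u (∑ α, v α • c α) 0 = 0 := by rw [psi_sum, hv]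
    have h1 : ∀ l : ℕ, l < J →
        psi d t u (∑ α, v α • c α) l = psi d t u (∑ α, v α • c α) (l + 1) := fun l hl => by
      rw [psi_sum, psi_sum]
      exact sum_congr rfl fun α _ => by rw [hc3 α l hl]
    have h2 : ∀ b i, ((∑ α, v α • c α) b i).natDegree ≤ h := fun b i => by
      simp only [Finset.sum_apply, Pi.smul_apply]
      exact natDegree_sum_le_of_forall_le _ _ fun α _ => (natDegree_smul_le _ _).trans (hc2 α b i)
    refine gg_inj t u hu hnd _ fun ρ b hρ1 hρ2 => ?_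
    refine congrFun (exp_poly p t ht ht0 (-(ρ : F)) (-(d : F)) (neg_ne_zero.2 hd)
      (h := h) (by omega) _ (natDegree_gg u _ h2 ρ) fun k hk => ?_) b
    rw [Fintype.card_fin] at hk
    have h3 : (k + 1) * d ≤ s * (h + 1) * d := Nat.mul_le_mul_right d hk
    have h4 := psi_val t u hu hen hΛ _ h1 ρ k hρ1 (by rw [add_mul] at h3; omega)
    rw [h0, eval_zero] at h4
    have e : -(ρ : F) + (k : F) * -(d : F) = -((ρ + k * d : ℕ) : F) := by
      push_cast
      ring
    rw [e, ← h4]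
  · exact natDegree_psi d t u (fun b => (hu b).deg) _ (hc2 α) 0
  · exact natDegree_gg u _ (hc2 α)
  · exact fun ρ k h1 _ h3 => psi_val t u hu hen hΛ _ (hc3 α) ρ k h1 h3
  · exact fun ρ b h1 h2 => gg_zero t u hu _ ρ b h1 h2

end Pool.Agent.P.MP_4600d4_nt.Ssh
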