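import Pool.Agent.P.MP_4600d4_nt.SsgDet

set_option autoImplicit false

open Polynomial Finset

namespace Pool.Agent.P.MP_4600d4_nt.Ssh

open Pool.Agent.P.MP_4600d4_nt.Ssg

variable {F : Type*} [Field F]

/-- independent vectors in the kernel of a linear map -/
theorem exists_indep_ker {V W : Type*} [AddCommGroup V] [Module F V] [FiniteDimensional F V]
    [AddCommGroup W] [Module F W] [FiniteDimensional F W] (Φ : V →ₗ[F] W) {N : ℕ}
    (hN : N + Module.finrank F W ≤ Module.finrank F V) :
    ∃ v : Fin N → V, LinearIndependent F v ∧ ∀ α, Φ (v α) = 0 := by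
  have h1 := Φ.finrank_range_add_finrank_ker
  have h2 := Submodule.finrank_le (LinearMap.range Φ)
  have h3 : N ≤ Module.finrank F (LinearMap.ker Φ) := by omega
  refine ⟨fun α => (Module.finBasis F (LinearMap.ker Φ) (Fin.castLE h3 α) : V), ?_,
    fun α => (Module.finBasis F (LinearMap.ker Φ) (Fin.castLE h3 α)).2⟩
  exact ((Module.finBasis F (LinearMap.ker Φ)).linearIndependent.comp _
    (Fin.castLE_injective h3)).map' (LinearMap.ker Φ).subtype (Submodule.ker_subtype _)

/-- the order of vanishing of a determinant at one point -/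
theorem count_one {N S : ℕ} {κ : Type*} [Fintype κ] (M : Matrix (Fin N) (Fin N) F[X]) (ξ : F)
    (B : Finset (Fin N)) (L : κ → Fin N → F) (hS : S + Fintype.card κ ≤ B.card)
    (hrow : ∀ j ∈ B, ∀ v : Fin N → F, (∀ w, ∑ a, L w a * v a = 0) →
      ∑ a, (M j a).eval ξ * v a = 0) : (X - C ξ) ^ S ∣ M.det := by
  classical
  let A : Matrix (κ ⊕ {j : Fin N // j ∉ B}) (Fin N) F :=
    Matrix.of fun r a => Sum.elim (fun w => L w a) (fun j => (M j.1 a).eval ξ) r
  have hc : Fintype.card {j : Fin N // j ∉ B} + B.card = N := by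
    rw [Fintype.card_subtype_compl, Fintype.card_coe, Fintype.card_fin]
    have := B.card_le_univ
    rw [Fintype.card_fin] at this
    omega
  obtain ⟨v, hv, h0⟩ := exists_indep_ker (F := F) A.mulVecLin (N := S) (by
    rw [Module.finrank_fintype_fun_eq_card, Module.finrank_fintype_fun_eq_card, Fintype.card_sum,
      Fintype.card_fin]
    omega)
  refine pow_dvd_det M ξ v hv fun α j => ?_
  by_cases hj : j ∈ B
  · exact hrow j hj (v α) fun w => congrFun (h0 α) (Sum.inl w)
  · exact congrFun (h0 α) (Sum.inr ⟨j, hj⟩)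

end Pool.Agent.P.MP_4600d4_nt.Ssh
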