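import Pool.Agent.P.MP_4600d4_nt.SshNat

set_option autoImplicit false

open Polynomial Finset

namespace Pool.Agent.P.MP_4600d4_nt.Ssh

open Pool.Agent.P.MP_4600d4_nt.Ssg

variable {F : Type*} [Field F]

lemma sshmain_key (ε : ℝ) (m d g : ℕ) (hm : 4 ≤ m) (hεm : 1 ≤ ε * m)
    (h : (3 / 4 + ε) * (d : ℝ) ≤ (g : ℝ)) : d ≤ g + (m - 4) * d / (4 * m) := by
  have h1 : (3 * m + 4) * d ≤ 4 * m * g := by
    have hm0 : (0 : ℝ) ≤ 4 * (m : ℝ) := by positivity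
    have hd0 : (0 : ℝ) ≤ (d : ℝ) := by positivity
    have h2 := mul_le_mul_of_nonneg_left h hm0
    have h3 := mul_le_mul_of_nonneg_right hεm hd0
    have h4 : ((3 * m + 4 : ℝ)) * d ≤ 4 * m * g := by nlinarith
    exact_mod_cast h4
  obtain ⟨k, rfl⟩ := Nat.exists_eq_add_of_le hm
  rcases le_total d g with hdg | hdg
  · exact le_trans hdg (Nat.le_add_right _ _)
  · obtain ⟨t, rfl⟩ := Nat.exists_eq_add_of_le hdg
    apply Nat.add_le_add_left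
    rw [Nat.le_div_iff_mul_le (by omega), Nat.add_sub_cancel_left]
    nlinarith

theorem main (ε : ℝ) (hε : 0 < ε) : ∃ C : ℕ, ∀ (p : ℕ) [Fact p.Prime] (G : Subgroup (ZMod p)ˣ)
    (R S : Finset (ZMod p)), C ≤ Nat.card G → R.Nonempty → S.Nonempty →
    (0 : ZMod p) ∉ R → (0 : ZMod p) ∉ S →
    (∀ a ∈ R, ∀ b ∈ S,
      (3 / 4 + ε) * (Nat.card G : ℝ) ≤
        (Nat.card {g : G // IsSquare (a * ((g : (ZMod p)ˣ) : ZMod p) + b)} : ℝ) ∨
      (3 / 4 + ε) * (Nat.card G : ℝ) ≤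
        (Nat.card {g : G // ¬ IsSquare (a * ((g : (ZMod p)ˣ) : ZMod p) + b)} : ℝ)) →
    max R.card (Nat.card G) * max S.card (Nat.card G) * Nat.card G ≤ C * p := by
  obtain ⟨m, hm4, hεm⟩ : ∃ m : ℕ, 4 ≤ m ∧ 1 ≤ ε * m := by
    refine ⟨max 4 (Nat.ceil (1 / ε)), le_max_left _ _, ?_⟩
    have h1 : 1 / ε ≤ ((max 4 (Nat.ceil (1 / ε)) : ℕ) : ℝ) :=
      le_trans (Nat.le_ceil _) (by exact_mod_cast le_max_right _ _)
    rw [div_le_iff₀ hε] at h1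
    linarith
  refine ⟨288 * m ^ 3, ?_⟩
  intro p _ G R S hC hR hS hR0 hS0 h
  refine main_nat m p G R S (e := (m - 4) * Nat.card G / (4 * m)) ?_ ?_ hR hS hR0 hS0 ?_
  · have h1 : 4 * m * ((m - 4) * Nat.card G / (4 * m)) ≤ (m - 4) * Nat.card G :=
      Nat.mul_div_le _ _
    obtain ⟨k, rfl⟩ := Nat.exists_eq_add_of_le hm4
    rw [Nat.add_sub_cancel_left] at h1 ⊢
    nlinarith
  · refine le_trans ?_ hC
    have : m ^ 2 ≤ m ^ 3 := Nat.pow_le_pow_right (by omega) (by omega)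
    omega
  · intro a ha b hb
    rcases h a ha b hb with h1 | h1
    · exact Or.inl (sshmain_key ε m _ _ hm4 hεm h1)
    · exact Or.inr (sshmain_key ε m _ _ hm4 hεm h1)

end Pool.Agent.P.MP_4600d4_nt.Ssh
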