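import Pool.Agent.P.MP_4600d4_nt.SshPair
import Pool.Agent.P.MP_4600d4_nt.SshAlg

set_option autoImplicit false

open Polynomial Finset

namespace Pool.Agent.P.MP_4600d4_nt.Ssh

open Pool.Agent.P.MP_4600d4_nt.Ssg

variable {F : Type*} [Field F]

theorem sshnat_fib [DecidableEq F] (R : Finset F) (x : F → F) (hx : Function.Injective x) {d : ℕ}
    (hd : 0 < d) (hR : R.Nonempty) :
    max R.card d ≤ d * (R.image fun b => x b ^ d).card := by
  refine max_le ?_ (Nat.le_mul_of_pos_right _ (card_pos.2 (hR.image _)))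
  refine card_le_mul_card_image R d fun t _ => ?_
  calc _ ≤ (nthRoots d t).toFinset.card := by
        refine card_le_card_of_injOn x (fun b hb => ?_) fun b _ b' _ h => hx h
        have := (mem_filter.1 (mem_coe.1 hb)).2
        exact mem_coe.2 (Multiset.mem_toFinset.2 ((mem_nthRoots hd).2 this))
    _ ≤ d := (Multiset.toFinset_card_le _).trans (card_nthRoots _ _)

/-- The theorem with natural numbers. -/
theorem main_nat (m : ℕ) (p : ℕ) [Fact p.Prime] (G : Subgroup (ZMod p)ˣ) (R S : Finset (ZMod p))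
    {e : ℕ} (hm : 4 * m * e + 4 * Nat.card G ≤ m * Nat.card G) (hd : 48 * m ^ 2 ≤ Nat.card G)
    (hR : R.Nonempty) (hS : S.Nonempty) (hR0 : (0 : ZMod p) ∉ R) (hS0 : (0 : ZMod p) ∉ S)
    (h : ∀ a ∈ R, ∀ b ∈ S,
      Nat.card G ≤ Nat.card {g : G // IsSquare (a * ((g : (ZMod p)ˣ) : ZMod p) + b)} + e ∨
      Nat.card G ≤ Nat.card {g : G // ¬ IsSquare (a * ((g : (ZMod p)ˣ) : ZMod p) + b)} + e) :
    max R.card (Nat.card G) * max S.card (Nat.card G) * Nat.card G ≤ 288 * m ^ 3 * p := by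
  classical
  have hpp : p.Prime := Fact.out
  have hd0 : 0 < Nat.card G := Nat.card_pos
  have hm4 : 4 ≤ m := Nat.le_of_mul_le_mul_right ((Nat.le_add_left _ _).trans hm) hd0
  have he : 4 * e < Nat.card G := by
    refine Nat.lt_of_mul_lt_mul_left (a := m) ?_
    have e1 : m * (4 * e) = 4 * m * e := by ring
    omega
  have hd768 : 768 ≤ Nat.card G := by
    have := Nat.pow_le_pow_left hm4 2
    omega
  have hdvd : Nat.card G ∣ p - 1 := by
    have h1 := Subgroup.card_subgroup_dvd_card G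
    rwa [Nat.card_eq_fintype_card (α := (ZMod p)ˣ), ZMod.card_units] at h1
  have hp2 := hpp.two_le
  have hgp : Nat.card G ≤ p - 1 := Nat.le_of_dvd (by omega) hdvd
  obtain ⟨D, hD⟩ : ∃ D, p = 2 * D + 1 := hpp.odd_of_ne_two (by omega)
  have hD1 : 1 ≤ D := by omega
  have hpair := fun a (ha : a ∈ R) b (hb : b ∈ S) =>
    pair p hD hD1 G a b (fun h0 => hR0 (h0 ▸ ha)) (fun h0 => hS0 (h0 ▸ hb)) (by omega) (h a ha b hb)
  have hdD : Nat.card G ≤ D := by
    obtain ⟨a, ha⟩ := hR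
    obtain ⟨b, hb⟩ := hS
    have h1 := (hpair a ha b hb).1
    obtain ⟨k, hk⟩ := hdvd
    rcases Nat.lt_or_ge k 2 with h2 | h2
    · have h3 : Nat.card G * k ≤ Nat.card G * 1 := Nat.mul_le_mul_left _ (by omega)
      omega
    · have h3 : Nat.card G * 2 ≤ Nat.card G * k := Nat.mul_le_mul_left _ h2
      omega
  have f1 := sshnat_fib R (fun a => -a) neg_injective hd0 hR
  have f2 := sshnat_fib S (fun b => b⁻¹) inv_injective hd0 hS
  have ha := alg p (m := m) (D := D) (e := e) (R.image fun a => (-a) ^ Nat.card G)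
    (S.image fun b => b⁻¹ ^ Nat.card G) (hR.image _) (hS.image _) ?_ ?_ hm hd hd0 hdD (by omega) ?_
  · calc _ ≤ Nat.card G * (R.image fun a => (-a) ^ Nat.card G).card *
          (Nat.card G * (S.image fun b => b⁻¹ ^ Nat.card G).card) * Nat.card G :=
          Nat.mul_le_mul_right _ (Nat.mul_le_mul f1 f2)
      _ = (R.image fun a => (-a) ^ Nat.card G).card * (S.image fun b => b⁻¹ ^ Nat.card G).card *
          Nat.card G ^ 3 := by ring
      _ ≤ 288 * m ^ 3 * D := ha
      _ ≤ _ := Nat.mul_le_mul_left _ (by omega)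
  · intro h0
    obtain ⟨a, ha, h1⟩ := mem_image.1 h0
    exact hR0 (neg_eq_zero.1 (pow_eq_zero_iff hd0.ne' |>.1 h1) ▸ ha)
  · intro h0
    obtain ⟨b, hb, h1⟩ := mem_image.1 h0
    exact hS0 (inv_eq_zero.1 (pow_eq_zero_iff hd0.ne' |>.1 h1) ▸ hb)
  · intro l hl μ hμ
    obtain ⟨a, ha, rfl⟩ := mem_image.1 hl
    obtain ⟨b, hb, rfl⟩ := mem_image.1 hμ
    exact (hpair a ha b hb).2

end Pool.Agent.P.MP_4600d4_nt.Ssh
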