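import Pool.Agent.P.MP_4600d4_nt.SshU
import Pool.Agent.P.MP_4600d4_nt.SsgMain

set_option autoImplicit false

open Polynomial Finset

namespace Pool.Agent.P.MP_4600d4_nt.Ssh

open Pool.Agent.P.MP_4600d4_nt.Ssg

variable {F : Type*} [Field F]

theorem sshpair_gen (p : ℕ) [Fact p.Prime] {D e : ℕ} (hp : p = 2 * D + 1) (hD : 1 ≤ D)
    (G : Subgroup (ZMod p)ˣ) (x ε : ZMod p) (hx : x ≠ 0) (he : e < Nat.card G) (good : G → Prop)
    (hg : ∀ g : G, good g → (1 - ((g : (ZMod p)ˣ) : ZMod p) * x) ^ (D + 1) -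
      ε * (1 - ((g : (ZMod p)ˣ) : ZMod p) * x) = 0)
    (h : Nat.card G ≤ Nat.card {g : G // good g} + e) :
    Nat.card G ≤ D + 1 + e ∧ ∃ u : (ZMod p)[X], UGood D (Nat.card G) e (x ^ Nat.card G) u := by
  classical
  have := Fintype.ofFinite G
  obtain ⟨γ, hγ⟩ := IsCyclic.exists_ofOrder_eq_natCard (α := G)
  have hζ : IsPrimitiveRoot ((γ : (ZMod p)ˣ) : ZMod p) (Nat.card G) :=
    IsPrimitiveRoot.coe_units_iff.2 (by
      rw [← hγ, ← Subgroup.orderOf_coe]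
      exact IsPrimitiveRoot.orderOf _)
  obtain ⟨Bad, hBad⟩ : ∃ Bad : Finset G, Bad = univ.filter fun g => ¬ good g := ⟨_, rfl⟩
  have hB : Bad.card ≤ e := by
    have h1 := card_filter_add_card_filter_not (s := (univ : Finset G)) good
    rw [card_univ, ← hBad, ← Fintype.card_subtype, ← Nat.card_eq_fintype_card,
      ← Nat.card_eq_fintype_card] at h1
    omega
  have hm : (∏ g ∈ Bad, (X - C (((g : (ZMod p)ˣ) : ZMod p) * x))).Monic :=
    monic_prod_of_monic _ _ fun _ _ => monic_X_sub_C _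
  obtain ⟨Q, hQ⟩ := binom_dvd hζ (by omega) hx
    ((∏ g ∈ Bad, (X - C (((g : (ZMod p)ˣ) : ZMod p) * x))) * X ^ (e - Bad.card) *
      ((1 - X) ^ (D + 1) - C ε * (1 - X))) fun i => by
    have h1 : ((γ : (ZMod p)ˣ) : ZMod p) ^ i = (((γ ^ i : G) : (ZMod p)ˣ) : ZMod p) := by
      rw [SubgroupClass.coe_pow, Units.val_pow_eq_pow_val]
    rw [h1, eval_mul, eval_mul]
    by_cases h2 : good (γ ^ i)
    · refine mul_eq_zero_of_right _ ?_
      simp only [eval_sub, eval_pow, eval_one, eval_X, eval_mul, eval_C]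
      exact hg _ h2
    · refine mul_eq_zero_of_left (mul_eq_zero_of_left ?_ _) _
      rw [eval_prod]
      refine prod_eq_zero (i := γ ^ i) (hBad ▸ mem_filter.2 ⟨mem_univ _, h2⟩) ?_
      rw [eval_sub, eval_X, eval_C, sub_self]
  refine exists_ugood p _ Q _ ε (hm.mul (monic_X_pow _)).ne_zero ?_ hD (by omega) he hQ
  rw [hm.natDegree_mul (monic_X_pow _), natDegree_X_pow, natDegree_finsetProd_X_sub_C_eq_card]
  omega

/-- Step 0 for one pair. -/
theorem pair (p : ℕ) [Fact p.Prime] {D e : ℕ} (hp : p = 2 * D + 1) (hD : 1 ≤ D)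
    (G : Subgroup (ZMod p)ˣ) (a b : ZMod p) (ha : a ≠ 0) (hb : b ≠ 0) (he : e < Nat.card G)
    (h : Nat.card G ≤ Nat.card {g : G // IsSquare (a * ((g : (ZMod p)ˣ) : ZMod p) + b)} + e ∨
      Nat.card G ≤ Nat.card {g : G // ¬ IsSquare (a * ((g : (ZMod p)ˣ) : ZMod p) + b)} + e) :
    Nat.card G ≤ D + 1 + e ∧ ∃ u : (ZMod p)[X],
      UGood D (Nat.card G) e ((-a) ^ Nat.card G * b⁻¹ ^ Nat.card G) u := by
  have hx : -a * b⁻¹ ≠ 0 := mul_ne_zero (neg_ne_zero.2 ha) (inv_ne_zero hb)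
  have hz : ∀ g : ZMod p, b * (1 - g * (-a * b⁻¹)) = a * g + b := fun g => by
    field_simp
    ring
  rw [← mul_pow]
  rcases h with h | h
  · refine sshpair_gen p hp hD G _ (b ^ D)⁻¹ hx he _ (fun g hg => ?_) h
    exact root_of_sq hp hb (one_pow D) one_ne_zero (by rw [mul_one, hz]) hg
  · refine sshpair_gen p hp hD G _ (-(b ^ D)⁻¹) hx he _ (fun g hg => ?_) h
    rw [← hz] at hg
    generalize 1 - ((g : (ZMod p)ˣ) : ZMod p) * (-a * b⁻¹) = y at hg ⊢
    have h0 : b * y ≠ 0 := fun h0 => hg (h0 ▸ IsSquare.zero)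
    have h1 := (ZMod.pow_div_two_eq_neg_one_or_one p h0).resolve_left
      (mt (ZMod.euler_criterion p h0).2 hg)
    rw [show p / 2 = D by omega, mul_pow] at h1
    have h2 : b ^ D ≠ 0 := pow_ne_zero _ hb
    field_simp
    linear_combination y * h1

end Pool.Agent.P.MP_4600d4_nt.Ssh
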