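import Pool.Agent.P.MP_4600d4_nt.SshDefs
import Pool.Agent.P.MP_4600d4_nt.SshKer

set_option autoImplicit false

open Polynomial Finset

namespace Pool.Agent.P.MP_4600d4_nt.Ssh

open Pool.Agent.P.MP_4600d4_nt.Ssg

variable {F : Type*} [Field F]

theorem natDegree_psi {D h s ν : ℕ} (d : ℕ) (t : Fin s → F) (u : Fin s → F[X])
    (hu : ∀ b, (u b).natDegree ≤ D) (c : Fin s → Fin ν → F[X])
    (hc : ∀ b i, (c b i).natDegree ≤ h) (l : ℕ) : (psi d t u c l).natDegree ≤ D + h := by
  unfold psi
  refine natDegree_sum_le_of_forall_le _ _ fun b _ => ?_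
  refine natDegree_sum_le_of_forall_le _ _ fun i _ => ?_
  refine natDegree_mul_le.trans ?_
  have h1 := hc b i
  have h2 : (C (t b ^ l) * taylor (((l * d : ℕ) : F) - ((i : ℕ) : F)) (u b)).natDegree ≤ D := by
    refine (natDegree_C_mul_le _ _).trans ?_
    rw [natDegree_taylor]
    exact hu b
  omega

/-- Step 2 (i), the points where two consecutive sums agree for free -/
theorem psi_agree {D d e n s : ℕ} (t : Fin s → F) (u : Fin s → F[X])
    (hu : ∀ b, UGood D d e (t b) (u b)) (hen : e < n) (c : Fin s → Fin (n - e) → F[X])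
    (l j : ℕ) (hj : j + n < D) :
    (psi d t u c l).eval (-(((l + 1) * d + 1 + j : ℕ) : F)) =
      (psi d t u c (l + 1)).eval (-(((l + 1) * d + 1 + j : ℕ) : F)) := by
  unfold psi
  simp only [eval_finsetSum, eval_mul, eval_C, taylor_eval]
  refine Finset.sum_congr rfl fun b _ => Finset.sum_congr rfl fun i _ => ?_
  have hi := i.2
  have hper := (hu b).per (1 + j + i) (by omega) (by omega)
  have e1 : -(((l + 1) * d + 1 + j : ℕ) : F) + (((l * d : ℕ) : F) - ((i : ℕ) : F)) =
      -((1 + j + (i : ℕ) + d : ℕ) : F) := by push_cast; ring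
  have e2 : -(((l + 1) * d + 1 + j : ℕ) : F) + ((((l + 1) * d : ℕ) : F) - ((i : ℕ) : F)) =
      -((1 + j + (i : ℕ) : ℕ) : F) := by push_cast; ring
  rw [e1, e2, hper]
  ring

/-- Step 2 (i). -/
theorem exists_kill (p : ℕ) [CharP F p] {D d e n h J s N1 : ℕ} (t : Fin s → F) (u : Fin s → F[X])
    (hu : ∀ b, UGood D d e (t b) (u b)) (hen : e < n) (hh : D + h < p)
    (hN : N1 + J * (h + n + 1) ≤ s * (h + 1) * (n - e)) :
    ∃ c : Fin N1 → Fin s → Fin (n - e) → F[X], LinearIndependent F c ∧
      (∀ α b i, (c α b i).natDegree ≤ h) ∧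
      ∀ α, ∀ l : ℕ, l < J → psi d t u (c α) l = psi d t u (c α) (l + 1) := by
  classical
  have hdeg : ∀ q : degreeLT F (h + 1), (q : F[X]).natDegree ≤ h := by
    intro q
    have := mem_degreeLT.1 q.2
    by_cases h0 : (q : F[X]) = 0
    · simp [h0]
    · exact Nat.lt_succ_iff.1 ((natDegree_lt_iff_degree_lt h0).2 this)
  let Φ : (Fin s → Fin (n - e) → degreeLT F (h + 1)) →ₗ[F] (Fin J → Fin (h + n + 1) → F) :=
    { toFun := fun c l j =>
        (psi d t u (fun b i => (c b i : F[X])) l -
          psi d t u (fun b i => (c b i : F[X])) (l + 1)).eval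
            (-((((l : ℕ) + 1) * d + 1 + (D - n + j) : ℕ) : F))
      map_add' := by
        intro a b; ext l j
        simp only [psi, Pi.add_apply, Submodule.coe_add, add_mul, Finset.sum_add_distrib,
          eval_sub, eval_add]
        ring
      map_smul' := by
        intro r a; ext l j
        simp only [psi, Pi.smul_apply, Submodule.coe_smul, smul_mul_assoc, ← Finset.smul_sum,
          eval_sub, eval_smul, RingHom.id_apply, smul_eq_mul]
        ring }
  have hfr : ∀ k, Module.finrank F (degreeLT F k) = k := fun k => by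
    simpa using (degreeLTEquiv F k).finrank_eq
  have hle : N1 + Module.finrank F (Fin J → Fin (h + n + 1) → F) ≤
      Module.finrank F (Fin s → Fin (n - e) → degreeLT F (h + 1)) := by
    simp only [Module.finrank_pi_fintype, hfr, Finset.sum_const, Finset.card_univ,
      Fintype.card_fin, smul_eq_mul, Module.finrank_self, mul_one]
    calc N1 + J * (h + n + 1) ≤ s * (h + 1) * (n - e) := hN
      _ = s * ((n - e) * (h + 1)) := by ring
  obtain ⟨v, hv, hker⟩ := exists_indep_ker Φ hle
  let ι : (Fin s → Fin (n - e) → degreeLT F (h + 1)) →ₗ[F] (Fin s → Fin (n - e) → F[X]) :=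
    { toFun := fun c b i => (c b i : F[X])
      map_add' := by intro a b; ext1 x; ext1 y; simp
      map_smul' := by intro r a; ext1 x; ext1 y; simp }
  have hι : LinearMap.ker ι = ⊥ := by
    rw [LinearMap.ker_eq_bot']
    intro c hc
    ext1 x; ext1 y
    exact Subtype.ext (congrFun (congrFun hc x) y)
  refine ⟨fun α => ι (v α), hv.map' ι hι, fun α b i => hdeg _, fun α l hl => ?_⟩
  have hc : ∀ b i, (ι (v α) b i).natDegree ≤ h := fun b i => hdeg _
  have hd : (psi d t u (ι (v α)) l - psi d t u (ι (v α)) (l + 1)).natDegree ≤ D + h :=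
    (natDegree_sub_le _ _).trans (max_le
      (natDegree_psi d t u (fun b => (hu b).deg) _ hc l)
      (natDegree_psi d t u (fun b => (hu b).deg) _ hc (l + 1)))
  rw [← sub_eq_zero]
  refine eq_zero_of_natDegree_lt_card_of_eval_eq_zero _
    (f := fun j : Fin (D + h + 1) => -(((l + 1) * d + 1 + (j : ℕ) : ℕ) : F)) ?_ ?_ ?_
  · intro a b hab
    have hab' : (((l + 1) * d + 1 + (a : ℕ) : ℕ) : F) = (((l + 1) * d + 1 + (b : ℕ) : ℕ) : F) :=
      neg_injective hab
    have ha := a.2
    have hb := b.2
    rcases lt_trichotomy (a : ℕ) b with h1 | h1 | h1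
    · exact absurd hab' (cast_ne_cast p (by omega) (by omega))
    · exact Fin.ext h1
    · exact absurd hab'.symm (cast_ne_cast p (by omega) (by omega))
  · intro j
    have hj := j.2
    by_cases h1 : (j : ℕ) + n < D
    · rw [eval_sub, psi_agree t u hu hen _ l j h1, sub_self]
    · have h2 := congrFun (congrFun (hker α) ⟨l, hl⟩) ⟨(j : ℕ) - (D - n), by omega⟩
      have h3 : D - n + ((j : ℕ) - (D - n)) = j := by omega
      simp only [Φ, LinearMap.coe_mk, AddHom.coe_mk, h3, Pi.zero_apply] at h2
      exact h2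
  · rw [Fintype.card_fin]
    exact Nat.lt_succ_of_le hd

end Pool.Agent.P.MP_4600d4_nt.Ssh
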