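import Pool.Agent.P.MP_4600d4_nt.SshDefs
import Pool.Agent.P.MP_4600d4_nt.SsgU

set_option autoImplicit false

open Polynomial Finset

namespace Pool.Agent.P.MP_4600d4_nt.Ssh

open Pool.Agent.P.MP_4600d4_nt.Ssg

variable {F : Type*} [Field F]

/-- Step 1. -/
theorem exists_ugood (p : ℕ) [CharP F p] {D d e : ℕ} (E Q : F[X]) (t ε : F) (hE0 : E ≠ 0)
    (hE : E.natDegree = e) (hD : 1 ≤ D) (hDp : D < p) (hed : e < d)
    (h : E * ((1 - X) ^ (D + 1) - C ε * (1 - X)) = (X ^ d - C t) * Q) :
    d ≤ D + 1 + e ∧ ∃ u : F[X], UGood D d e t u := by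
  obtain ⟨k, rfl⟩ : ∃ k, D = k + 1 := ⟨D - 1, by omega⟩
  obtain ⟨u, hu⟩ : ∃ u, u = (aeval (uS F) Q) (run F 1 (k + 1)) := ⟨_, rfl⟩
  have R : (uS F ^ d) u - t • u =
      (-(ε * ((k + 1 : ℕ) : F))) • (aeval (uS F) E) (run F 1 k) := by
    have := congrArg (fun f => (aeval (uS F) f) (run F 1 (k + 1))) h
    simp only [map_sub, map_mul, map_pow, map_one, aeval_X, aeval_C,
      Module.End.mul_apply] at this
    rw [LinearMap.sub_apply, u_nil, Module.End.mul_apply, u_step, Module.algebraMap_end_apply,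
      ← hu, LinearMap.sub_apply, Module.algebraMap_end_apply] at this
    rw [← this, smul_smul, zero_sub, map_neg, map_smul, neg_smul]
  have a1 : (1 - X : F[X]).natDegree = 1 := by
    rw [show (1 - X : F[X]) = -(X - C 1) by simp, natDegree_neg, natDegree_X_sub_C]
  have a2 : ((1 - X : F[X]) ^ (k + 1 + 1)).natDegree = k + 1 + 1 := by
    rw [natDegree_pow, a1, mul_one]
  have a3 : ((1 - X : F[X]) ^ (k + 1 + 1) - C ε * (1 - X)).natDegree = k + 1 + 1 := by
    rw [natDegree_sub_eq_left_of_natDegree_lt, a2]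
    rw [a2]
    exact lt_of_le_of_lt (natDegree_C_mul_le _ _) (by omega)
  have a4 : ((1 - X : F[X]) ^ (k + 1 + 1) - C ε * (1 - X)) ≠ 0 := by
    intro h0
    rw [h0] at a3
    simp at a3
  have a5 : (X ^ d - C t : F[X]) * Q ≠ 0 := h ▸ mul_ne_zero hE0 a4
  have hQ : Q ≠ 0 := right_ne_zero_of_mul a5
  have hdeg : e + (k + 1 + 1) = d + Q.natDegree := by
    have := congrArg natDegree h
    rwa [natDegree_mul hE0 a4, natDegree_mul (left_ne_zero_of_mul a5) hQ, a3, hE,
      natDegree_X_pow_sub_C] at this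
  have hu' := u_aeval Q (run F 1 (k + 1)) 1
  rw [pow_one, ← hu] at hu'
  have hE' := u_aeval E (run F 1 k) 1
  rw [pow_one, hE] at hE'
  refine ⟨by omega, u, ?_, fun y y0 y1 => ?_, fun y y0 y1 => ?_, ?_⟩
  · rw [hu']
    refine natDegree_sum_le_of_forall_le _ _ fun j _ => (natDegree_smul_le _ _).trans ?_
    rw [natDegree_taylor, natDegree_run]
  · have h1 := congrArg (eval (-(y : F))) R
    have h2 : ((aeval (uS F) E) (run F 1 k)).eval (-(y : F)) = 0 := by
      rw [hE', eval_finsetSum]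
      refine sum_eq_zero fun j hj => ?_
      have := mem_range.1 hj
      rw [eval_smul, taylor_eval, one_mul, ← neg_add, ← Nat.cast_add,
        eval_run_eq_zero (by omega) (by omega), smul_zero]
    rw [eval_sub, eval_smul, eval_smul, h2, smul_zero, u_pow, taylor_eval, ← neg_add,
      ← Nat.cast_add, smul_eq_mul] at h1
    exact sub_eq_zero.1 h1
  · rw [hu', eval_finsetSum]
    refine sum_eq_zero fun j hj => ?_
    have := mem_range.1 hj
    rw [eval_smul, taylor_eval, one_mul, ← neg_add, ← Nat.cast_add,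
      eval_run_eq_zero (by omega) (by omega), smul_zero]
  · rw [hu', eval_finsetSum, sum_range_succ, sum_eq_zero fun j hj => ?_, zero_add, eval_smul,
      taylor_eval, one_mul, ← neg_add, ← Nat.cast_add, smul_eq_mul]
    · exact mul_ne_zero (leadingCoeff_ne_zero.2 hQ) (eval_run_ne_zero p (by omega) (by omega))
    · have := mem_range.1 hj
      rw [eval_smul, taylor_eval, one_mul, ← neg_add, ← Nat.cast_add,
        eval_run_eq_zero (by omega) (by omega), smul_zero]

end Pool.Agent.P.MP_4600d4_nt.Ssh
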